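import Pool.Agent.Lib.MP_b07157_agB.La

/-!
# Bounds for the multiplicities
-/

noncomputable section

namespace MPb07157.OB

open MvPolynomial

variable {f P : MvPolynomial (Fin 3) ℂ} {v : Fin 3 → MvPolynomial (Fin 3) ℂ} {d n : ℕ}

theorem sum_of_hom {P : MvPolynomial (Fin 3) ℂ} {n : ℕ} (h : P.IsHomogeneous n)
    {m : Fin 3 →₀ ℕ} (hm : coeff m P ≠ 0) : m 0 + m 1 + m 2 = n := by
  have h1 : Finsupp.degree m = n := by
    rw [← h hm, Finsupp.degree_eq_weight_one]
    rfl
  have h2 : Finsupp.degree m = ∑ i, m i := by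
    rw [Finsupp.degree_apply]
    exact Finset.sum_subset (Finset.subset_univ _) fun i _ hi => Finsupp.notMem_support_iff.1 hi
  rw [← h1, h2, Fin.sum_univ_three]

theorem sum_of_hom' {P : MvPolynomial (Fin 3) ℂ} {n : ℕ} (h : P.IsHomogeneous n)
    {m : Fin 3 →₀ ℕ} (hm : coeff m P ≠ 0) (i : Fin 3) : m i + m (i + 1) + m (i + 2) = n := by
  rw [← sum_of_hom h hm, ← Fin.sum_univ_three fun j => m j, sum3 i]

theorem degreeOf_pderiv_lt {f : MvPolynomial (Fin 3) ℂ} {i : Fin 3} (h : pderiv i f ≠ 0) :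
    degreeOf i (pderiv i f) < degreeOf i f := by
  have h0 : ∀ m, coeff m (pderiv i f) ≠ 0 → m i + 1 ≤ degreeOf i f := by
    intro m hm
    rw [coeff_pderiv] at hm
    have h1 : m + Finsupp.single i 1 ∈ f.support := mem_support_iff.2 (left_ne_zero_of_mul hm)
    have h2 := monomial_le_degreeOf i h1
    simpa using h2
  obtain ⟨m, hm⟩ := ne_zero_iff.1 h
  have h1 := h0 m hm
  rw [degreeOf_lt_iff (by omega)]
  intro m' hm'
  have := h0 m' (mem_support_iff.1 hm')
  omega

theorem mu_lt (h : Dat f P v d n) (hNS : NS f) {i : Fin 3} {μ : ℕ}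
    (hP : Ge (wt i) μ (io P)) : μ < n := by
  by_contra hcon
  have hdeg : degreeOf i P = 0 := by
    rw [← Nat.le_zero, degreeOf_le_iff]
    intro m hm
    have h1 := mem_support_iff.1 hm
    have h2 := hP (toZ m) (by rw [cf_io]; exact h1)
    rw [wt_apply] at h2
    have h3 := sum_of_hom' h.hP h1 i
    have h4 : toZ m (i + 1) = (m (i + 1) : ℤ) := rfl
    have h5 : toZ m (i + 2) = (m (i + 2) : ℤ) := rfl
    omega
  have hf : pderiv i f = 0 := by
    by_contra hne
    have hv : v i ≠ 0 := by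
      intro hv
      have h1 := h.rel i
      rw [hv, mul_zero] at h1
      exact (mul_ne_zero h.P0 hne) h1
    have h1 := congrArg (degreeOf i) (h.rel i)
    rw [degreeOf_mul_eq h.P0 hne, degreeOf_mul_eq h.f0 hv] at h1
    have h2 := degreeOf_pderiv_lt hne
    omega
  have h1 := hNS (Pi.single i (X i)) (fun j => by
    by_cases hj : j = i
    · subst hj
      rw [Pi.single_eq_same]
      exact isHomogeneous_X _ _
    · rw [Pi.single_eq_of_ne hj]
      exact isHomogeneous_zero _ _ _) (by
    rw [Finset.sum_eq_single i]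
    · rw [Pi.single_eq_same, hf, mul_zero]
    · intro j _ hj
      rw [Pi.single_eq_of_ne hj, zero_mul]
    · intro hi
      exact absurd (Finset.mem_univ i) hi)
  rw [Finset.sum_eq_single i] at h1
  · rw [Pi.single_eq_same, pderiv_X_self] at h1
    exact one_ne_zero h1
  · intro j _ hj
    rw [Pi.single_eq_of_ne hj, map_zero]
  · intro hi
    exact absurd (Finset.mem_univ i) hi

/-- `P` is not divisible by `x_k ^ 2`. -/
theorem not_sq_dvd (h : Dat f P v d n) (k : Fin 3) : ¬ X k ^ 2 ∣ P := by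
  rintro ⟨P', hP'⟩
  have hpr : Prime (X k : MvPolynomial (Fin 3) ℂ) := X_prime
  have hfin : FiniteMultiplicity (X k : MvPolynomial (Fin 3) ℂ) f :=
    FiniteMultiplicity.of_prime_left hpr h.f0
  obtain ⟨g, hg, hng⟩ := hfin.exists_eq_pow_mul_and_not_dvd
  refine hpr.not_unit (h.prim (X k) fun l => ?_)
  obtain ⟨w, hw⟩ : ∃ w, X k * pderiv l f = X k ^ (multiplicity (X k) f) * w := by
    have h1 : X k * pderiv l (X k ^ (multiplicity (X k) f) * g) =
        X k ^ (multiplicity (X k) f) * ((multiplicity (X k) f : MvPolynomial (Fin 3) ℂ) *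
          (pderiv l (X k) * g) + X k * pderiv l g) := by
      rw [Derivation.leibniz, Derivation.leibniz_pow, smul_eq_mul, smul_eq_mul, nsmul_eq_mul,
        smul_eq_mul]
      rcases Nat.eq_zero_or_pos (multiplicity (X k) f) with h0 | h0
      · rw [h0]
        simp
      · obtain ⟨e, he⟩ := Nat.exists_eq_succ_of_ne_zero h0.ne'
        rw [he, Nat.succ_eq_add_one, Nat.add_sub_cancel]
        ring
    rw [← hg] at h1
    exact ⟨_, h1⟩
  have h2 : X k * P' * w = g * v l := by
    have h3 := h.rel l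
    apply mul_left_cancel₀ (pow_ne_zero (multiplicity (X k) f) hpr.ne_zero)
    calc X k ^ (multiplicity (X k) f) * (X k * P' * w) =
        X k * P' * (X k ^ (multiplicity (X k) f) * w) := by ring
      _ = X k * P' * (X k * pderiv l f) := by rw [hw]
      _ = (X k ^ 2 * P') * pderiv l f := by ring
      _ = P * pderiv l f := by rw [← hP']
      _ = f * v l := h3
      _ = X k ^ (multiplicity (X k) f) * g * v l := by rw [← hg]
      _ = X k ^ (multiplicity (X k) f) * (g * v l) := by ring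
  have h4 : X k ∣ g * v l := ⟨P' * w, by rw [← h2]; ring⟩
  exact (hpr.dvd_or_dvd h4).resolve_left hng

theorem exists_le_one (h : Dat f P v d n) (k : Fin 3) :
    ∃ m : Fin 3 →₀ ℕ, coeff m P ≠ 0 ∧ m k ≤ 1 := by
  by_contra hcon
  push Not at hcon
  apply not_sq_dvd h k
  rw [P.as_sum]
  refine Finset.dvd_sum fun m hm => ?_
  have h1 := hcon m (mem_support_iff.1 hm)
  have h2 : Finsupp.single k 2 + (m - Finsupp.single k 2) = m := by
    ext j
    rw [Finsupp.add_apply, Finsupp.tsub_apply]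
    by_cases hj : j = k
    · subst hj
      rw [Finsupp.single_eq_same]
      omega
    · rw [Finsupp.single_eq_of_ne hj]
      omega
  refine ⟨monomial (m - Finsupp.single k 2) (coeff m P), ?_⟩
  rw [X_pow_eq_monomial, monomial_mul, one_mul, h2]

theorem mu_add (h : Dat f P v d n) {i j : Fin 3} (hij : i ≠ j) {μ ν : ℕ}
    (hi : Ge (wt i) μ (io P)) (hj : Ge (wt j) ν (io P)) : μ + ν ≤ n + 1 := by
  have hk : ∀ i j : Fin 3, ∃ k : Fin 3, k ≠ i ∧ k ≠ j := by decide
  obtain ⟨k, hki, hkj⟩ := hk i j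
  obtain ⟨m, hm, hmk⟩ := exists_le_one h k
  have h1 := hi (toZ m) (by rw [cf_io]; exact hm)
  have h2 := hj (toZ m) (by rw [cf_io]; exact hm)
  rw [wt_apply] at h1 h2
  have h3 := sum_of_hom h.hP hm
  have e : ∀ j, toZ m j = (m j : ℤ) := fun _ => rfl
  simp only [e] at h1 h2
  fin_cases i <;> fin_cases j <;> fin_cases k <;>
    first
    | exact absurd rfl hij
    | exact absurd rfl hki
    | exact absurd rfl hkj
    | (simp only [Fin.zero_eta, Fin.mk_one, Fin.reduceFinMk, Fin.isValue, Fin.reduceAdd, zero_add]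
        at h1 h2 hmk
       omega)

end MPb07157.OB
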