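import Pool.Agent.Lib.MP_b07157_agB.CmpA

/-!
# Comparison of two decompositions
-/

noncomputable section

namespace MPb07157.OB

open MvPolynomial MPb07157Q

variable {f P : MvPolynomial (Fin 3) ℂ} {v : Fin 3 → MvPolynomial (Fin 3) ℂ} {d n : ℕ}

namespace CmpAux

/-- The ring homomorphism from polynomials to Laurent polynomials. -/
abbrev ior : MvPolynomial (Fin 3) ℂ →+* La := (io : MvPolynomial (Fin 3) ℂ →ₐ[ℂ] La).toRingHom

theorem ior_apply (p : MvPolynomial (Fin 3) ℂ) : ior p = io p := rfl

theorem ior_injective : Function.Injective ior := io_injective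

/-- Clearing denominators in polynomials over the Laurent polynomials. -/
theorem exists_clearP (G : MvPolynomial (Fin 3) La) : ∃ N₀ : ℕ, ∀ N : ℕ, N₀ ≤ N →
    ∃ G' : MvPolynomial (Fin 3) (MvPolynomial (Fin 3) ℂ),
      C (io ((X 0 * X 1 * X 2) ^ N)) * G = map ior G' := by
  induction G using MvPolynomial.induction_on' with
  | monomial u a =>
    obtain ⟨N₀, h0⟩ := exists_clear3 a
    refine ⟨N₀, fun N hN => ?_⟩
    obtain ⟨p, hp⟩ := h0 N hN
    refine ⟨monomial u p, ?_⟩
    rw [map_monomial, C_mul_monomial, hp]
    rfl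
  | add p q hp hq =>
    obtain ⟨N₁, h1⟩ := hp
    obtain ⟨N₂, h2⟩ := hq
    refine ⟨max N₁ N₂, fun N hN => ?_⟩
    obtain ⟨p', hp'⟩ := h1 N ((le_max_left _ _).trans hN)
    obtain ⟨q', hq'⟩ := h2 N ((le_max_right _ _).trans hN)
    exact ⟨p' + q', by rw [mul_add, hp', hq', map_add]⟩

theorem mon_isUnit (N : ℕ) : ∃ e : La, e * io ((X 0 * X 1 * X 2) ^ N) = 1 := by
  refine ⟨sg (-(N • (ex 0 + ex 1 + ex 2))) 1, ?_⟩
  have e : io ((X 0 * X 1 * X 2) ^ N) = sg (N • (ex 0 + ex 1 + ex 2)) 1 := by
    rw [map_pow, map_mul, map_mul, io_X, io_X, io_X, sg_mul_sg, sg_mul_sg, sg_pow]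
    simp
  rw [e, sg_mul_sg, neg_add_cancel, one_mul, one_eq_sg]

theorem map_crs (v : Fin 3 → MvPolynomial (Fin 3) ℂ) (i : Fin 3) :
    map ior (crs v i) = crs (fun k => io (v k)) i := by
  fin_cases i
  · show map ior (C (v 1) * X 2 - C (v 2) * X 1) = C (io (v 1)) * X 2 - C (io (v 2)) * X 1
    rw [map_sub, map_mul, map_mul, map_C, map_C, map_X, map_X]
    rfl
  · show map ior (C (v 2) * X 0 - C (v 0) * X 2) = C (io (v 2)) * X 0 - C (io (v 0)) * X 2
    rw [map_sub, map_mul, map_mul, map_C, map_C, map_X, map_X]
    rfl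
  · show map ior (C (v 0) * X 1 - C (v 1) * X 0) = C (io (v 0)) * X 1 - C (io (v 1)) * X 0
    rw [map_sub, map_mul, map_mul, map_C, map_C, map_X, map_X]
    rfl

/-! ### Homogeneous components -/

theorem hc_ext {N : ℕ} {p q : MvPolynomial (Fin 3) La}
    (h : ∀ b : Fin 3 →₀ ℕ, b.degree = N → coeff b p = coeff b q) :
    homogeneousComponent N p = homogeneousComponent N q := by
  ext b : 1
  rw [coeff_homogeneousComponent, coeff_homogeneousComponent]
  split_ifs with h1
  · exact h b h1
  · rfl

theorem hc_X_mul (N : ℕ) (i : Fin 3) (p : MvPolynomial (Fin 3) La) :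
    homogeneousComponent (N + 1) (X i * p) = X i * homogeneousComponent N p := by
  classical
  ext b : 1
  rw [coeff_homogeneousComponent, coeff_X_mul', coeff_X_mul']
  by_cases hi : i ∈ b.support
  · rw [if_pos hi, if_pos hi, coeff_homogeneousComponent]
    have h1 : b - Finsupp.single i 1 + Finsupp.single i 1 = b := by
      apply tsub_add_cancel_of_le
      rw [Finsupp.single_le_iff]
      exact Nat.one_le_iff_ne_zero.2 (Finsupp.mem_support_iff.1 hi)
    have h2 : (b - Finsupp.single i 1).degree + 1 = b.degree := by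
      conv_rhs => rw [← h1]
      rw [map_add, Finsupp.degree_single]
    by_cases h3 : b.degree = N + 1
    · rw [if_pos h3, if_pos (by omega)]
    · rw [if_neg h3, if_neg (by omega)]
  · rw [if_neg hi, if_neg hi, ite_self]

theorem hc_mul_C (N : ℕ) (a : La) (p : MvPolynomial (Fin 3) La) :
    homogeneousComponent N (p * C a) = homogeneousComponent N p * C a := by
  rw [mul_comm, homogeneousComponent_C_mul, mul_comm]

theorem hc_mul_crs (N : ℕ) (a : Fin 3 → La) (p : MvPolynomial (Fin 3) La) (i : Fin 3) :
    homogeneousComponent (N + 1) (p * crs a i) = homogeneousComponent N p * crs a i := by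
  have h1 : ∀ (x y : La) (j k : Fin 3),
      homogeneousComponent (N + 1) (p * (C x * X j - C y * X k)) =
        homogeneousComponent N p * (C x * X j - C y * X k) := by
    intro x y j k
    have e : p * (C x * X j - C y * X k) = C x * (X j * p) - C y * (X k * p) := by ring
    rw [e, map_sub, homogeneousComponent_C_mul, homogeneousComponent_C_mul, hc_X_mul, hc_X_mul]
    ring
  fin_cases i
  · exact h1 _ _ _ _
  · exact h1 _ _ _ _
  · exact h1 _ _ _ _

theorem hc_dC {N : ℕ} {T : MvPolynomial (Fin 3) La}
    (h : ∀ b : Fin 3 →₀ ℕ, b.degree = N → coeff b T = 0) (i : Fin 3) :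
    homogeneousComponent N (dC i T) = 0 := by
  rw [hc_ext (q := 0), map_zero]
  intro b hb
  rw [coeff_dC, h b hb, map_zero, coeff_zero]

theorem dC_add (i : Fin 3) (S T : MvPolynomial (Fin 3) La) : dC i (S + T) = dC i S + dC i T := by
  ext b : 1
  rw [coeff_dC, coeff_add, coeff_add, coeff_dC, coeff_dC, map_add]

theorem dC_sub (i : Fin 3) (S T : MvPolynomial (Fin 3) La) : dC i (S - T) = dC i S - dC i T := by
  ext b : 1
  rw [coeff_dC, coeff_sub, coeff_sub, coeff_dC, coeff_dC, map_sub]

theorem nab_add (i : Fin 3) (S T : MvPolynomial (Fin 3) La) :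
    nab i (S + T) = nab i S + nab i T := by
  unfold nab
  rw [dC_add]
  ring

theorem nab_sub (i : Fin 3) (S T : MvPolynomial (Fin 3) La) :
    nab i (S - T) = nab i S - nab i T := by
  unfold nab
  rw [dC_sub]
  ring

theorem cur_sub (S T : Fin 3 → MvPolynomial (Fin 3) La) (i : Fin 3) :
    cur (fun j => S j - T j) i = cur S i - cur T i := by
  unfold cur
  rw [nab_sub, nab_sub]
  ring

theorem dvg_add (S T : Fin 3 → MvPolynomial (Fin 3) La) :
    dvg (fun j => S j + T j) = dvg S + dvg T := by
  unfold dvg
  rw [← Finset.sum_add_distrib]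
  exact Finset.sum_congr rfl fun i _ => nab_add _ _ _

theorem hc_nab {N : ℕ} {U : MvPolynomial (Fin 3) La}
    (h : ∀ b : Fin 3 →₀ ℕ, b.degree = N + 1 → coeff b U = 0) (i : Fin 3) (a : La) :
    homogeneousComponent (N + 1) (nab i (U * C a)) = X i * homogeneousComponent N U * C a := by
  unfold nab
  rw [map_sub, hc_X_mul, hc_mul_C, hc_dC, sub_zero, mul_assoc]
  intro b hb
  rw [mul_comm, coeff_C_mul, h b hb, mul_zero]

/-- The top part of a curl. -/
theorem hc_cur {N : ℕ} {U : MvPolynomial (Fin 3) La}
    (h : ∀ b : Fin 3 →₀ ℕ, b.degree = N + 1 → coeff b U = 0) (a : Fin 3 → La) (i : Fin 3) :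
    homogeneousComponent (N + 1) (cur (fun j => U * C (a j)) i) =
      -(homogeneousComponent N U * crs a i) := by
  unfold cur
  rw [map_sub, hc_nab h, hc_nab h]
  fin_cases i
  · show X 1 * homogeneousComponent N U * C (a 2) - X 2 * homogeneousComponent N U * C (a 1) =
      -(homogeneousComponent N U * (C (a 1) * X 2 - C (a 2) * X 1))
    ring
  · show X 2 * homogeneousComponent N U * C (a 0) - X 0 * homogeneousComponent N U * C (a 2) =
      -(homogeneousComponent N U * (C (a 2) * X 0 - C (a 0) * X 2))
    ring
  · show X 0 * homogeneousComponent N U * C (a 1) - X 1 * homogeneousComponent N U * C (a 0) =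
      -(homogeneousComponent N U * (C (a 0) * X 1 - C (a 1) * X 0))
    ring

theorem coeff_eq_of_hc {N : ℕ} {p q : MvPolynomial (Fin 3) La}
    (h : homogeneousComponent N p = homogeneousComponent N q) {b : Fin 3 →₀ ℕ}
    (hb : b.degree = N) : coeff b p = coeff b q := by
  have h1 := congrArg (coeff b) h
  rwa [coeff_homogeneousComponent, coeff_homogeneousComponent, if_pos hb, if_pos hb] at h1

theorem sum_v (h : Dat f P v d n) {w : Fin 3 → MvPolynomial (Fin 3) La}
    (hw : ∑ k, w k * C (D k (io f)) = 0) : ∑ k, w k * C (io (v k)) = 0 := by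
  have h1 : C (io f) * ∑ k, w k * C (io (v k)) = 0 := by
    have h2 : C (io f) * ∑ k, w k * C (io (v k)) = C (io P) * ∑ k, w k * C (D k (io f)) := by
      rw [Finset.mul_sum, Finset.mul_sum]
      refine Finset.sum_congr rfl fun k _ => ?_
      have h3 : (C (io f) * C (io (v k)) : MvPolynomial (Fin 3) La) =
          C (io P) * C (D k (io f)) := by
        rw [← C_mul, ← C_mul, ← map_mul, ← h.rel k, map_mul, D_io]
      linear_combination w k * h3
    rw [h2, hw, mul_zero]
  rcases mul_eq_zero.1 h1 with h2 | h2
  · exfalso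
    apply io_ne_zero h.f0
    rwa [C_eq_zero] at h2
  · exact h2

end CmpAux

open CmpAux

/-- Over the Laurent polynomials: vectors orthogonal to `v` and `ξ` are multiples of `v × ξ`. -/
theorem exists_mul_crsL (h : Dat f P v d n) {W : Fin 3 → MvPolynomial (Fin 3) La}
    (h1 : ∑ i, W i * C (io (v i)) = 0) (h2 : ∑ i, W i * X i = 0) :
    ∃ U, ∀ i, W i = U * crs (fun k => io (v k)) i := by
  choose N₀ hN₀ using fun i => exists_clearP (W i)
  set N := N₀ 0 + N₀ 1 + N₀ 2 with hN
  have hle : ∀ i, N₀ i ≤ N := by
    intro i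
    fin_cases i
    · show N₀ 0 ≤ N
      omega
    · show N₀ 1 ≤ N
      omega
    · show N₀ 2 ≤ N
      omega
  choose W' hW' using fun i => hN₀ i N (hle i)
  have hinj : Function.Injective (map (σ := Fin 3) ior) := map_injective _ ior_injective
  have h1' : ∑ i, W' i * C (v i) = 0 := by
    apply hinj
    rw [map_zero, map_sum]
    have e : ∀ i ∈ Finset.univ, map ior (W' i * C (v i)) =
        C (io ((X 0 * X 1 * X 2) ^ N)) * (W i * C (io (v i))) := by
      intro i _
      rw [map_mul, ← hW', map_C, mul_assoc]
      rfl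
    rw [Finset.sum_congr rfl e, ← Finset.mul_sum, h1, mul_zero]
  have h2' : ∑ i, W' i * X i = 0 := by
    apply hinj
    rw [map_zero, map_sum]
    have e : ∀ i ∈ Finset.univ, map ior (W' i * X i) =
        C (io ((X 0 * X 1 * X 2) ^ N)) * (W i * X i) := by
      intro i _
      rw [map_mul, ← hW', map_X, mul_assoc]
    rw [Finset.sum_congr rfl e, ← Finset.mul_sum, h2, mul_zero]
  obtain ⟨U', hU'⟩ := exists_mul_crs h.prim h1' h2'
  obtain ⟨e, he⟩ := mon_isUnit N
  refine ⟨C e * map ior U', fun i => ?_⟩
  have h3 : C (io ((X 0 * X 1 * X 2) ^ N)) * W i =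
      map ior U' * crs (fun k => io (v k)) i := by
    rw [hW', hU', map_mul, map_crs]
  rw [mul_assoc, ← h3, ← mul_assoc, ← C_mul, he, C_1, one_mul]

theorem cmp (h : Dat f P v d n) (M : ℕ) :
    ∀ w : Fin 3 → MvPolynomial (Fin 3) La, (∀ k b, M ≤ b.degree → coeff b (w k) = 0) →
      ∑ k, w k * C (D k (io f)) = 0 → dvg w = 0 →
      ∃ U, ∀ k, w k = cur (fun j => U * C (io (v j))) k := by
  induction M with
  | zero =>
    intro w hw _ _
    have h0 : ∀ k, w k = 0 := by
      intro k
      ext b : 1
      rw [hw k b (Nat.zero_le _), coeff_zero]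
    refine ⟨0, fun k => ?_⟩
    have h1 : cur (fun j => (0 : MvPolynomial (Fin 3) La) * C (io (v j))) k = 0 := by
      have h2 := cur_sub (fun _ => 0) (fun _ => 0) k
      simp only [sub_self, zero_mul] at h2 ⊢
      exact h2
    rw [h0, h1]
  | succ M ih =>
    intro w hw hf hd
    have hv := sum_v h hf
    -- the top parts
    have t1 : ∑ k, homogeneousComponent M (w k) * C (io (v k)) = 0 := by
      have h1 := congrArg (homogeneousComponent M) hv
      rw [map_zero, map_sum] at h1
      rw [← h1]
      exact Finset.sum_congr rfl fun k _ => (hc_mul_C _ _ _).symm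
    have t2 : ∑ k, homogeneousComponent M (w k) * X k = 0 := by
      have h1 := congrArg (homogeneousComponent (M + 1)) hd
      unfold dvg at h1
      rw [map_zero, map_sum] at h1
      rw [← h1]
      refine Finset.sum_congr rfl fun k _ => ?_
      unfold nab
      rw [map_sub, hc_X_mul, hc_dC (fun b hb => hw k b hb.ge), sub_zero, mul_comm]
    obtain ⟨U', hU'⟩ := exists_mul_crsL h t1 t2
    -- the top part is `U'' * crs v`
    have key : ∃ U'' : MvPolynomial (Fin 3) La,
        (∀ k b, M ≤ b.degree →
          coeff b (w k + cur (fun j => U'' * C (io (v j))) k) = 0) := by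
      rcases Nat.eq_zero_or_pos M with h0 | h0
      · refine ⟨0, fun k b _ => ?_⟩
        have h1 : cur (fun j => (0 : MvPolynomial (Fin 3) La) * C (io (v j))) k = 0 := by
          have h2 := cur_sub (fun _ => 0) (fun _ => 0) k
          simp only [sub_self, zero_mul] at h2 ⊢
          exact h2
        rw [h1, add_zero]
        rcases Nat.eq_zero_or_pos b.degree with h3 | h3
        · have h4 : b = 0 := (Finsupp.degree_eq_zero_iff b).1 h3
          have h5 := congrArg (coeff b) (hU' k)
          rw [coeff_homogeneousComponent, if_pos (by rw [h3, h0])] at h5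
          rw [h5, h4, ← constantCoeff_eq, map_mul]
          have h6 : constantCoeff (crs (fun k => io (v k)) k) = 0 := by
            rw [constantCoeff_eq]
            apply coeff_crs_of_ne
            intro l hl
            have h7 := congrArg Finsupp.degree hl
            rw [map_zero, Finsupp.degree_single] at h7
            omega
          rw [h6, mul_zero]
        · exact hw k b (by omega)
      · obtain ⟨M', rfl⟩ := Nat.exists_eq_succ_of_ne_zero h0.ne'
        have hU2 : ∀ k, homogeneousComponent (M' + 1) (w k) =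
            homogeneousComponent M' U' * crs (fun k => io (v k)) k := by
          intro k
          rw [← hc_mul_crs, ← hU' k, homogeneousComponent_of_mem
            (homogeneousComponent_mem _ _), if_pos rfl]
        set U'' := homogeneousComponent M' U' with hU''
        have hcU : ∀ b : Fin 3 →₀ ℕ, b.degree ≠ M' → coeff b U'' = 0 := by
          intro b hb
          rw [hU'', coeff_homogeneousComponent, if_neg hb]
        have hU3 : homogeneousComponent M' U'' = U'' := by
          rw [hU'', homogeneousComponent_of_mem (homogeneousComponent_mem _ _), if_pos rfl]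
        refine ⟨U'', fun k b hb => ?_⟩
        rcases Nat.lt_or_ge (M' + 1) b.degree with h3 | h3
        · -- degree too large
          obtain ⟨N, hN⟩ : ∃ N, b.degree = N + 1 := ⟨b.degree - 1, by omega⟩
          have h4 := hc_cur (N := N) (U := U'') (fun b' hb' => hcU b' (by omega))
            (fun j => io (v j)) k
          have h5 : homogeneousComponent N U'' = 0 := by
            rw [hc_ext (q := 0), map_zero]
            intro b' hb'
            rw [hcU b' (by omega), coeff_zero]
          rw [h5, zero_mul, neg_zero, ← map_zero (homogeneousComponent (N + 1))] at h4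
          rw [coeff_add, hw k b (by omega), coeff_eq_of_hc h4 hN, coeff_zero, add_zero]
        · have h4 : b.degree = M' + 1 := by omega
          have h5 : homogeneousComponent (M' + 1)
              (w k + cur (fun j => U'' * C (io (v j))) k) =
              homogeneousComponent (M' + 1) 0 := by
            rw [map_add, hU2, hc_cur (fun b' hb' => hcU b' (by omega)) (fun j => io (v j)) k,
              hU3, map_zero, add_neg_cancel]
          rw [coeff_eq_of_hc h5 h4, coeff_zero]
    obtain ⟨U'', hU''⟩ := key
    obtain ⟨U₁, hU₁⟩ := ih (fun k => w k + cur (fun j => U'' * C (io (v j))) k) hU''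
      (by
        have e : ∑ k, (w k + cur (fun j => U'' * C (io (v j))) k) * C (D k (io f)) =
            ∑ k, w k * C (D k (io f)) +
              ∑ k, cur (fun j => U'' * C (io (v j))) k * C (D k (io f)) := by
          rw [← Finset.sum_add_distrib]
          exact Finset.sum_congr rfl fun k _ => add_mul _ _ _
        rw [e, hf, cur_kills h, add_zero])
      (by
        rw [dvg_add w (cur (fun j => U'' * C (io (v j)))), hd, zero_add]
        exact dvg_cur _)
    refine ⟨U₁ - U'', fun k => ?_⟩
    have e : (fun j => (U₁ - U'') * C (io (v j))) =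
        fun j => U₁ * C (io (v j)) - U'' * C (io (v j)) := by
      funext j
      ring
    rw [e, cur_sub, ← hU₁ k]
    ring

theorem cur_inj (h : Dat f P v d n) {U : MvPolynomial (Fin 3) La}
    (hU : ∀ k, cur (fun j => U * C (io (v j))) k = 0) : U = 0 := by
  -- one of the components of `v × ξ` is not zero
  have hc : ∃ k, crs (fun j => io (v j)) k ≠ 0 := by
    by_contra hcon
    push Not at hcon
    have h1 : ∀ i, v i = 0 := by
      intro i
      apply io_injective
      rw [map_zero]
      fin_cases i
      · have h2 := coeff_crs (fun j => io (v j)) 1 2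
        rw [hcon 1, coeff_zero] at h2
        exact neg_eq_zero.1 h2.symm
      · have h2 := coeff_crs (fun j => io (v j)) 0 2
        rw [hcon 0, coeff_zero] at h2
        exact h2.symm
      · have h2 := coeff_crs (fun j => io (v j)) 0 1
        rw [hcon 0, coeff_zero] at h2
        exact neg_eq_zero.1 h2.symm
    exact not_isUnit_zero (h.prim 0 fun i => by rw [h1 i])
  obtain ⟨k, hk⟩ := hc
  have h1 : ∀ M : ℕ, (∀ b : Fin 3 →₀ ℕ, M ≤ b.degree → coeff b U = 0) → U = 0 := by
    intro M
    induction M with
    | zero =>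
      intro hM
      ext b : 1
      rw [hM b (Nat.zero_le _), coeff_zero]
    | succ M ih =>
      intro hM
      apply ih
      intro b hb
      rcases Nat.lt_or_ge M b.degree with h3 | h3
      · exact hM b h3
      · have h4 := hc_cur (fun b' hb' => hM b' hb'.ge) (fun j => io (v j)) k
        rw [hU k, map_zero] at h4
        have h5 : homogeneousComponent M U = homogeneousComponent M 0 := by
          rw [map_zero]
          exact (mul_eq_zero.1 (neg_eq_zero.1 h4.symm)).resolve_right hk
        rw [coeff_eq_of_hc h5 (by omega), coeff_zero]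
  apply h1 (U.totalDegree + 1)
  intro b hb
  by_contra hcon
  have h2 := le_totalDegree (mem_support_iff.2 hcon)
  have h3 : (b.sum fun _ e => e) = b.degree := rfl
  omega

end MPb07157.OB
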