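import Pool.Agent.Lib.MP_b07157_agB.La

/-!
# Curls
-/

noncomputable section

namespace MPb07157.OB

open MvPolynomial MPb07157Q

variable {f P : MvPolynomial (Fin 3) ℂ} {v : Fin 3 → MvPolynomial (Fin 3) ℂ} {d n : ℕ}

namespace CmpA

theorem dC_sub (i : Fin 3) (S T : MvPolynomial (Fin 3) La) :
    dC i (S - T) = dC i S - dC i T := by
  refine MvPolynomial.ext _ _ fun b => ?_
  rw [coeff_dC, coeff_sub, coeff_sub, coeff_dC, coeff_dC, map_sub]

theorem dC_X_mul (i j : Fin 3) (T : MvPolynomial (Fin 3) La) :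
    dC i (X j * T) = X j * dC i T := by
  classical
  refine MvPolynomial.ext _ _ fun b => ?_
  rw [coeff_dC, coeff_X_mul', coeff_X_mul', coeff_dC]
  split_ifs with h
  · rfl
  · rw [map_zero]

theorem dC_comm (i j : Fin 3) (T : MvPolynomial (Fin 3) La) : dC i (dC j T) = dC j (dC i T) := by
  refine MvPolynomial.ext _ _ fun b => ?_
  rw [coeff_dC, coeff_dC, coeff_dC, coeff_dC, D_comm]

theorem dC_mul_C (i : Fin 3) (U : MvPolynomial (Fin 3) La) (a : La) :
    dC i (U * C a) = dC i U * C a + U * C (D i a) := by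
  refine MvPolynomial.ext _ _ fun b => ?_
  rw [mul_comm U (C a), mul_comm (dC i U) (C a), mul_comm U (C (D i a)), coeff_dC, coeff_add,
    coeff_C_mul, coeff_C_mul, coeff_C_mul, coeff_dC, D_mul]
  ring

theorem nab_sub (i : Fin 3) (S T : MvPolynomial (Fin 3) La) :
    nab i (S - T) = nab i S - nab i T := by
  unfold nab
  rw [dC_sub]
  ring

theorem nab_mul_C (i : Fin 3) (U : MvPolynomial (Fin 3) La) (a : La) :
    nab i (U * C a) = nab i U * C a - U * C (D i a) := by
  unfold nab
  rw [dC_mul_C]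
  ring

theorem relL (h : Dat f P v d n) (i : Fin 3) : io P * D i (io f) = io f * io (v i) := by
  rw [D_io, ← map_mul, h.rel i, map_mul]

theorem relD (h : Dat f P v d n) (i j : Fin 3) :
    D j (io P) * D i (io f) + io P * D j (D i (io f)) =
      D j (io f) * io (v i) + io f * D j (io (v i)) := by
  have h1 := congrArg (D j) (relL h i)
  rw [D_mul, D_mul] at h1
  rw [mul_comm (D j (io P)), mul_comm (D j (io f)), add_comm, h1, add_comm]

end CmpA

open CmpA

theorem nab_comm (i j : Fin 3) (T : MvPolynomial (Fin 3) La) :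
    nab i (nab j T) = nab j (nab i T) := by
  unfold nab
  rw [dC_sub, dC_sub, dC_X_mul, dC_X_mul, dC_comm i j]
  ring

theorem dvg_cur (T : Fin 3 → MvPolynomial (Fin 3) La) : dvg (cur T) = 0 := by
  have e : ∀ i, cur T i = nab (i + 1) (T (i + 2)) - nab (i + 2) (T (i + 1)) := fun i => rfl
  unfold dvg
  rw [Fin.sum_univ_three, e, e, e, nab_sub, nab_sub, nab_sub]
  show nab 0 (nab 1 (T 2)) - nab 0 (nab 2 (T 1)) + (nab 1 (nab 2 (T 0)) - nab 1 (nab 0 (T 2))) +
    (nab 2 (nab 0 (T 1)) - nab 2 (nab 1 (T 0))) = 0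
  rw [nab_comm 0 1, nab_comm 0 2, nab_comm 1 2]
  ring

theorem dv_cu (t : Fin 3 → La) : dv (cu t) = 0 := by
  have e : ∀ i, cu t i = D (i + 1) (t (i + 2)) - D (i + 2) (t (i + 1)) := fun i => rfl
  unfold dv
  rw [Fin.sum_univ_three, e, e, e, map_sub, map_sub, map_sub]
  show D 0 (D 1 (t 2)) - D 0 (D 2 (t 1)) + (D 1 (D 2 (t 0)) - D 1 (D 0 (t 2))) +
    (D 2 (D 0 (t 1)) - D 2 (D 1 (t 0))) = 0
  rw [D_comm 0 1, D_comm 0 2, D_comm 1 2]
  ring

theorem curl_phi (h : Dat f P v d n) : ∑ i, cu (fun k => io (v k)) i * io (v i) = 0 := by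
  have hf0 : io f ≠ 0 := io_ne_zero h.f0
  have e : ∀ i, cu (fun k => io (v k)) i =
      D (i + 1) (io (v (i + 2))) - D (i + 2) (io (v (i + 1))) := fun i => rfl
  have key : io f * (io f * ∑ i, cu (fun k => io (v k)) i * io (v i)) = 0 := by
    rw [Fin.sum_univ_three, e, e, e]
    show io f * (io f * ((D 1 (io (v 2)) - D 2 (io (v 1))) * io (v 0) +
      (D 2 (io (v 0)) - D 0 (io (v 2))) * io (v 1) +
      (D 0 (io (v 1)) - D 1 (io (v 0))) * io (v 2))) = 0
    have r0 := relL h 0
    have r1 := relL h 1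
    have r2 := relL h 2
    have d12 := relD h 2 1
    have d21 := relD h 1 2
    have d20 := relD h 0 2
    have d02 := relD h 2 0
    have d01 := relD h 1 0
    have d10 := relD h 0 1
    rw [D_comm 1 2] at d12
    rw [D_comm 2 0] at d20
    rw [D_comm 0 1] at d01
    generalize D 2 (D 1 (io f)) = f12 at *
    generalize D 0 (D 2 (io f)) = f02 at *
    generalize D 1 (D 0 (io f)) = f01 at *
    generalize D 0 (io f) = f0 at *
    generalize D 1 (io f) = f1 at *
    generalize D 2 (io f) = f2 at *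
    generalize D 0 (io P) = p0 at *
    generalize D 1 (io P) = p1 at *
    generalize D 2 (io P) = p2 at *
    generalize D 1 (io (v 2)) = v12 at *
    generalize D 2 (io (v 1)) = v21 at *
    generalize D 2 (io (v 0)) = v20 at *
    generalize D 0 (io (v 2)) = v02 at *
    generalize D 0 (io (v 1)) = v01 at *
    generalize D 1 (io (v 0)) = v10 at *
    generalize io (v 0) = w0 at *
    generalize io (v 1) = w1 at *
    generalize io (v 2) = w2 at *
    generalize io f = F at *
    generalize io P = p at *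
    have k0 : F * (v12 - v21) = p1 * f2 - p2 * f1 - f1 * w2 + f2 * w1 := by
      linear_combination d21 - d12
    have k1 : F * (v20 - v02) = p2 * f0 - p0 * f2 - f2 * w0 + f0 * w2 := by
      linear_combination d02 - d20
    have k2 : F * (v01 - v10) = p0 * f1 - p1 * f0 - f0 * w1 + f1 * w0 := by
      linear_combination d10 - d01
    have k3 : F * ((v12 - v21) * w0 + (v20 - v02) * w1 + (v01 - v10) * w2) =
        (p1 * f2 - p2 * f1) * w0 + (p2 * f0 - p0 * f2) * w1 + (p0 * f1 - p1 * f0) * w2 := by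
      linear_combination w0 * k0 + w1 * k1 + w2 * k2
    rw [k3]
    linear_combination (-(p1 * f2 - p2 * f1)) * r0 - (p2 * f0 - p0 * f2) * r1 -
      (p0 * f1 - p1 * f0) * r2
  exact ((mul_eq_zero.1 ((mul_eq_zero.1 key).resolve_left hf0)).resolve_left hf0)

theorem cur_kills (h : Dat f P v d n) (U : MvPolynomial (Fin 3) La) :
    ∑ i, cur (fun k => U * C (io (v k))) i * C (D i (io f)) = 0 := by
  have hP0 : (C (io P) : MvPolynomial (Fin 3) La) ≠ 0 := by
    rw [Ne, C_eq_zero]
    exact io_ne_zero h.P0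
  have e : ∀ i, cur (fun k => U * C (io (v k))) i =
      nab (i + 1) U * C (io (v (i + 2))) - nab (i + 2) U * C (io (v (i + 1))) -
        U * C (cu (fun k => io (v k)) i) := by
    intro i
    show nab (i + 1) (U * C (io (v (i + 2)))) - nab (i + 2) (U * C (io (v (i + 1)))) = _
    rw [nab_mul_C, nab_mul_C]
    have e1 : cu (fun k => io (v k)) i =
      D (i + 1) (io (v (i + 2))) - D (i + 2) (io (v (i + 1))) := rfl
    rw [e1, C_sub]
    ring
  have r : ∀ i, (C (io P) : MvPolynomial (Fin 3) La) * C (D i (io f)) =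
      C (io f) * C (io (v i)) := by
    intro i
    rw [← C_mul, ← C_mul, relL h i]
  have hc : ∑ i, (C (cu (fun k => io (v k)) i) : MvPolynomial (Fin 3) La) * C (io (v i)) = 0 := by
    have h1 := congrArg (C : La → MvPolynomial (Fin 3) La) (curl_phi h)
    rw [map_sum, C_0] at h1
    rw [← h1]
    refine Finset.sum_congr rfl fun i _ => ?_
    rw [C_mul]
  have key : (C (io P) : MvPolynomial (Fin 3) La) *
      ∑ i, cur (fun k => U * C (io (v k))) i * C (D i (io f)) = 0 := by
    rw [Fin.sum_univ_three, e, e, e]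
    rw [Fin.sum_univ_three] at hc
    show C (io P) * ((nab 1 U * C (io (v 2)) - nab 2 U * C (io (v 1)) -
        U * C (cu (fun k => io (v k)) 0)) * C (D 0 (io f)) +
      (nab 2 U * C (io (v 0)) - nab 0 U * C (io (v 2)) -
        U * C (cu (fun k => io (v k)) 1)) * C (D 1 (io f)) +
      (nab 0 U * C (io (v 1)) - nab 1 U * C (io (v 0)) -
        U * C (cu (fun k => io (v k)) 2)) * C (D 2 (io f))) = 0
    have r0 := r 0
    have r1 := r 1
    have r2 := r 2
    generalize (C (cu (fun k => io (v k)) 0) : MvPolynomial (Fin 3) La) = c0 at *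
    generalize (C (cu (fun k => io (v k)) 1) : MvPolynomial (Fin 3) La) = c1 at *
    generalize (C (cu (fun k => io (v k)) 2) : MvPolynomial (Fin 3) La) = c2 at *
    generalize (C (D 0 (io f)) : MvPolynomial (Fin 3) La) = f0 at *
    generalize (C (D 1 (io f)) : MvPolynomial (Fin 3) La) = f1 at *
    generalize (C (D 2 (io f)) : MvPolynomial (Fin 3) La) = f2 at *
    generalize (C (io (v 0)) : MvPolynomial (Fin 3) La) = w0 at *
    generalize (C (io (v 1)) : MvPolynomial (Fin 3) La) = w1 at *
    generalize (C (io (v 2)) : MvPolynomial (Fin 3) La) = w2 at *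
    generalize (C (io f) : MvPolynomial (Fin 3) La) = F at *
    generalize (C (io P) : MvPolynomial (Fin 3) La) = p at *
    linear_combination (nab 1 U * w2 - nab 2 U * w1 - U * c0) * r0 +
      (nab 2 U * w0 - nab 0 U * w2 - U * c1) * r1 +
      (nab 0 U * w1 - nab 1 U * w0 - U * c2) * r2 - F * U * hc
  exact (mul_eq_zero.1 key).resolve_left hP0

theorem cu_kills (h : Dat f P v d n) (g : La) :
    ∑ i, cu (fun k => g * io (v k)) i * D i (io f) = 0 := by
  have hP0 : io P ≠ 0 := io_ne_zero h.P0
  have e : ∀ i, cu (fun k => g * io (v k)) i =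
      D (i + 1) g * io (v (i + 2)) - D (i + 2) g * io (v (i + 1)) +
        g * cu (fun k => io (v k)) i := by
    intro i
    have e1 : cu (fun k => io (v k)) i =
      D (i + 1) (io (v (i + 2))) - D (i + 2) (io (v (i + 1))) := rfl
    rw [e1]
    show D (i + 1) (g * io (v (i + 2))) - D (i + 2) (g * io (v (i + 1))) = _
    rw [D_mul, D_mul]
    ring
  have hc := curl_phi h
  have key : io P * ∑ i, cu (fun k => g * io (v k)) i * D i (io f) = 0 := by
    rw [Fin.sum_univ_three, e, e, e]
    rw [Fin.sum_univ_three] at hc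
    show io P * ((D 1 g * io (v 2) - D 2 g * io (v 1) +
        g * cu (fun k => io (v k)) 0) * D 0 (io f) +
      (D 2 g * io (v 0) - D 0 g * io (v 2) +
        g * cu (fun k => io (v k)) 1) * D 1 (io f) +
      (D 0 g * io (v 1) - D 1 g * io (v 0) +
        g * cu (fun k => io (v k)) 2) * D 2 (io f)) = 0
    have r0 := relL h 0
    have r1 := relL h 1
    have r2 := relL h 2
    generalize cu (fun k => io (v k)) 0 = c0 at *
    generalize cu (fun k => io (v k)) 1 = c1 at *
    generalize cu (fun k => io (v k)) 2 = c2 at *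
    generalize D 0 (io f) = f0 at *
    generalize D 1 (io f) = f1 at *
    generalize D 2 (io f) = f2 at *
    generalize io (v 0) = w0 at *
    generalize io (v 1) = w1 at *
    generalize io (v 2) = w2 at *
    generalize io f = F at *
    generalize io P = p at *
    linear_combination (D 1 g * w2 - D 2 g * w1 + g * c0) * r0 +
      (D 2 g * w0 - D 0 g * w2 + g * c1) * r1 +
      (D 0 g * w1 - D 1 g * w0 + g * c2) * r2 + F * g * hc
  exact (mul_eq_zero.1 key).resolve_left hP0

end MPb07157.OB
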