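import Pool.Agent.Lib.MP_b07157_agB.La

/-!
# The cocycle is trivial
-/

noncomputable section

namespace MPb07157.OB

open MvPolynomial

namespace CombA

/-- The first index with a negative exponent. -/
def r (m : Fin 3 → ℤ) : Fin 3 := if m 0 < 0 then 0 else if m 1 < 0 then 1 else 2

theorem neg_r {m : Fin 3 → ℤ} {i : Fin 3} (h : m i < 0) : m (r m) < 0 := by
  unfold r
  split_ifs with h0 h1
  · exact h0
  · exact h1
  · fin_cases i
    · exact absurd h h0
    · exact absurd h h1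
    · exact h

theorem key {n : ℕ} {μ : Fin 3 → ℕ} (h1 : ∀ i, μ i < n)
    (h2 : ∀ i j, i ≠ j → μ i + μ j ≤ n + 3) {g : Fin 3 → La}
    (hg : ∀ i, Hm td (3 - n) (g i)) (hs : g 0 + g 1 + g 2 = 0)
    (hl : ∀ i m, cf m (g i) ≠ 0 → m (i + 1) < 0 → m (i + 2) < 0 →
      -(m (i + 1) + m (i + 2)) ≤ (μ i : ℤ) - 3) {a : Fin 3} {m : Fin 3 → ℤ}
    (hm : cf m (g a) ≠ 0) (ha1 : m (a + 1) < 0) (ha2 : m (a + 2) < 0) : False := by
  have e1 := hl a m hm ha1 ha2
  have e2 := hg a m hm
  rw [td_eq a] at e2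
  have e3 := h1 a
  have ha : m a < 0 := by omega
  have e4 : cf m (g a) + cf m (g (a + 1)) + cf m (g (a + 2)) = 0 := by
    rw [← map_add, ← map_add, ← sum3 a g, Fin.sum_univ_three, hs, map_zero]
  by_cases h3 : cf m (g (a + 1)) = 0
  · have h4 : cf m (g (a + 2)) ≠ 0 := by
      intro h4
      rw [h3, h4, add_zero, add_zero] at e4
      exact hm e4
    have e5 := hl (a + 2) m h4
    rw [f3c, f3d] at e5
    have e6 := e5 ha ha1
    have e7 := h2 a (a + 2) (f3n2 a).symm
    omega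
  · have e5 := hl (a + 1) m h3
    rw [f3a, f3b] at e5
    have e6 := e5 ha2 ha
    have e7 := h2 a (a + 1) (f3n1 a).symm
    omega

end CombA

open CombA in
theorem comb {n : ℕ} {μ : Fin 3 → ℕ} (h1 : ∀ i, μ i < n)
    (h2 : ∀ i j, i ≠ j → μ i + μ j ≤ n + 3) {g : Fin 3 → La}
    (hg : ∀ i, Hm td (3 - n) (g i)) (hs : g 0 + g 1 + g 2 = 0)
    (hl : ∀ i m, cf m (g i) ≠ 0 → m (i + 1) < 0 → m (i + 2) < 0 →
      -(m (i + 1) + m (i + 2)) ≤ (μ i : ℤ) - 3) :
    ∃ h : Fin 3 → La, (∀ i, Reg i (h i)) ∧ ∀ i, g i = h (i + 1) - h (i + 2) := by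
  refine ⟨fun i => cpt (fun m => r m = i + 1) (g (i + 2)) -
    cpt (fun m => r m = i + 2) (g (i + 1)), fun i m hm => ?_, fun i => ?_⟩
  · rw [co_apply]
    by_contra hcon
    push Not at hcon
    have hr := neg_r hcon
    rw [map_sub] at hm
    rcases f3cases i (r m) with h3 | h3 | h3
    · rw [cf_cpt_neg (fun h4 : r m = i + 1 => f3n1 i (h4.symm.trans h3)),
        cf_cpt_neg (fun h4 : r m = i + 2 => f3n2 i (h4.symm.trans h3)), sub_zero] at hm
      exact hm rfl
    · rw [cf_cpt_pos (P := fun m => r m = i + 1) h3,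
        cf_cpt_neg (fun h4 : r m = i + 2 => f3n3 i (h3.symm.trans h4)), sub_zero] at hm
      rw [h3] at hr
      refine key h1 h2 hg hs hl hm ?_ ?_
      · rwa [f3c]
      · rwa [f3d]
    · rw [cf_cpt_neg (fun h4 : r m = i + 1 => f3n3 i (h4.symm.trans h3)),
        cf_cpt_pos (P := fun m => r m = i + 2) h3, zero_sub, neg_ne_zero] at hm
      rw [h3] at hr
      refine key h1 h2 hg hs hl hm ?_ ?_
      · rwa [f3a]
      · rwa [f3b]
  · apply La.ext'
    intro m
    have e4 : cf m (g i) + cf m (g (i + 1)) + cf m (g (i + 2)) = 0 := by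
      rw [← map_add, ← map_add, ← sum3 i g, Fin.sum_univ_three, hs, map_zero]
    simp only [f3a, f3b, f3c, f3d]
    rw [map_sub, map_sub, map_sub]
    rcases f3cases i (r m) with h3 | h3 | h3
    · rw [cf_cpt_neg (fun h4 : r m = i + 2 => f3n2 i (h4.symm.trans h3)),
        cf_cpt_pos (P := fun m => r m = i) h3, cf_cpt_pos (P := fun m => r m = i) h3,
        cf_cpt_neg (fun h4 : r m = i + 1 => f3n1 i (h4.symm.trans h3))]
      linear_combination e4
    · rw [cf_cpt_neg (fun h4 : r m = i + 2 => f3n3 i (h3.symm.trans h4)),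
        cf_cpt_neg (fun h4 : r m = i => f3n1 i (h3.symm.trans h4)),
        cf_cpt_neg (fun h4 : r m = i => f3n1 i (h3.symm.trans h4)),
        cf_cpt_pos (P := fun m => r m = i + 1) h3]
      ring
    · rw [cf_cpt_pos (P := fun m => r m = i + 2) h3,
        cf_cpt_neg (fun h4 : r m = i => f3n2 i (h3.symm.trans h4)),
        cf_cpt_neg (fun h4 : r m = i => f3n2 i (h3.symm.trans h4)),
        cf_cpt_neg (fun h4 : r m = i + 1 => f3n3 i (h4.symm.trans h3))]
      ring

end MPb07157.OB
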