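import Pool.Agent.Lib.MP_b07157_agB.La

/-!
# Relations of linear type off the coordinate points
-/

noncomputable section

namespace MPb07157.OB

open MvPolynomial MPb07157Q

/-- As `MPb07157Q.linear_type`, first part. -/
theorem lt_loc {v : Fin 3 → MvPolynomial (Fin 3) ℂ} (hv : ∀ q, (∀ i, q ∣ v i) → IsUnit q)
    (i : Fin 3) (hQ : ∀ p : Fin 3 → ℂ, p (i + 1) ≠ 0 → p (i + 2) ≠ 0 →
      ∃ a : Fin 3 → MvPolynomial (Fin 3) ℂ, ∑ k, a k * v k = 0 ∧ ∃ k, eval p (a k) ≠ 0)
    {M : ℕ} (hM : 0 < M) {F : MvPolynomial (Fin 3) (MvPolynomial (Fin 3) ℂ)}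
    (hF : F.IsHomogeneous M) (h0 : eval v F = 0) :
    ∃ N : ℕ, C ((X (i + 1) * X (i + 2)) ^ N) * F ∈ LI v := by
  classical
  -- the ideal of all `h` with `h F` of linear type
  set J : Ideal (MvPolynomial (Fin 3) ℂ) := ((LI v).colon (Ideal.span {F})).comap C with hJ
  have hJm : ∀ h, h ∈ J ↔ C h * F ∈ LI v := by
    intro h
    rw [hJ, Ideal.mem_comap, Submodule.mem_colon_span_singleton, smul_eq_mul]
  have hloc : ∀ a : Fin 3 → MvPolynomial (Fin 3) ℂ, ∑ i, a i * v i = 0 → ∀ i, a i ^ M ∈ J := by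
    intro a ha i
    rw [hJm, C_pow]
    fin_cases i
    · exact local_step hv ha hM hF h0 0 1 2 (by decide) (by decide) (by decide)
    · exact local_step hv ha hM hF h0 1 0 2 (by decide) (by decide) (by decide)
    · exact local_step hv ha hM hF h0 2 0 1 (by decide) (by decide) (by decide)
  have hrad : (X (i + 1) * X (i + 2) : MvPolynomial (Fin 3) ℂ) ∈ J.radical := by
    rw [← vanishingIdeal_zeroLocus_eq_radical (K := ℂ), mem_vanishingIdeal_iff]
    intro p hp
    rw [map_mul, aeval_X, aeval_X]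
    by_cases h1 : p (i + 1) = 0
    · rw [h1, zero_mul]
    by_cases h2 : p (i + 2) = 0
    · rw [h2, mul_zero]
    exfalso
    obtain ⟨a, ha, k, hk⟩ := hQ p h1 h2
    have h3 := hloc a ha k
    rw [mem_zeroLocus_iff] at hp
    have h4 := hp _ h3
    rw [map_pow] at h4
    apply hk
    have h5 := pow_eq_zero_iff hM.ne' |>.1 h4
    simpa using h5
  obtain ⟨N, hN⟩ := hrad
  exact ⟨N, (hJm _).1 hN⟩

namespace LTaux

/-- The syzygies at a point off the curve. -/
theorem exists_syz {f P : MvPolynomial (Fin 3) ℂ} {v : Fin 3 → MvPolynomial (Fin 3) ℂ} {d n : ℕ}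
    (h : Dat f P v d n) (p : Fin 3 → ℂ) (hp : eval p f ≠ 0) :
    ∃ a : Fin 3 → MvPolynomial (Fin 3) ℂ, ∑ k, a k * v k = 0 ∧ ∃ k, eval p (a k) ≠ 0 := by
  classical
  have hP : eval p P ≠ 0 := by
    intro h0
    obtain ⟨s, hs, u, hu⟩ : ∃ s : Multiset (MvPolynomial (Fin 3) ℂ), (∀ q ∈ s, Prime q) ∧
        Associated s.prod P := UniqueFactorizationMonoid.exists_prime_factors P h.P0
    have h1 : eval p s.prod = 0 := by
      have h2 := congrArg (eval p) hu
      rw [map_mul, h0] at h2
      have h3 : IsUnit (eval p (u : MvPolynomial (Fin 3) ℂ)) := u.isUnit.map (eval p)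
      exact (mul_eq_zero.1 h2).resolve_right h3.ne_zero
    rw [map_multiset_prod, Multiset.prod_eq_zero_iff, Multiset.mem_map] at h1
    obtain ⟨q, hq, hq0⟩ := h1
    have hqp := hs q hq
    have hqP : q ∣ P := (Multiset.dvd_prod hq).trans ⟨u, hu.symm⟩
    apply hqp.not_isUnit
    apply h.prim
    intro i
    have h2 : q ∣ f * v i := by
      rw [← h.rel i]
      exact hqP.mul_right _
    rcases hqp.dvd_or_dvd h2 with h3 | h3
    · exfalso
      obtain ⟨c, hc⟩ := h3
      apply hp
      rw [hc, map_mul, hq0, zero_mul]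
    · exact h3
  have h1 : ∃ i, eval p (v i) ≠ 0 := by
    by_contra hcon
    push Not at hcon
    have h2 : P * ∑ i, X i * pderiv i f = f * ∑ i, X i * v i := by
      rw [Finset.mul_sum, Finset.mul_sum]
      refine Finset.sum_congr rfl fun i _ => ?_
      have := h.rel i
      linear_combination X i * this
    rw [euler_aux h.hf] at h2
    have h3 := congrArg (eval p) h2
    rw [map_mul, map_mul, map_mul, map_sum] at h3
    have h4 : ∑ i, eval p (X i * v i) = 0 := by
      apply Finset.sum_eq_zero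
      intro i _
      rw [map_mul, hcon i, mul_zero]
    rw [h4, mul_zero, eval_C] at h3
    have h6 : (d : ℂ) ≠ 0 := by exact_mod_cast h.hd.ne'
    exact (mul_ne_zero hP (mul_ne_zero h6 hp)) h3
  obtain ⟨i, hi⟩ := h1
  obtain ⟨j, hj⟩ : ∃ j : Fin 3, j ≠ i := exists_ne i
  refine ⟨Pi.single j (v i) - Pi.single i (v j), ?_, j, ?_⟩
  · simp only [Pi.sub_apply, sub_mul, Finset.sum_sub_distrib, Pi.single_apply, ite_mul,
      zero_mul, Finset.sum_ite_eq', Finset.mem_univ, if_true]
    ring
  · simpa [hj] using hi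

/-- Clearing the denominators of an operator. -/
theorem exists_clearP (i : Fin 3) {F : MvPolynomial (Fin 3) La} (hr : RegP i F) {M : ℕ}
    (hF : F.IsHomogeneous M) : ∃ (N : ℕ) (F' : MvPolynomial (Fin 3) (MvPolynomial (Fin 3) ℂ)),
      F'.IsHomogeneous M ∧
      map (io : MvPolynomial (Fin 3) ℂ →+* La) F' = C (io ((X (i + 1) * X (i + 2)) ^ N)) * F := by
  classical
  choose N₀ hN₀ using fun b => exists_clear i (hr b)
  set N : ℕ := ∑ b ∈ F.support, N₀ b with hN
  have h1 : ∀ b ∈ F.support, ∃ p : MvPolynomial (Fin 3) ℂ,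
      io ((X (i + 1) * X (i + 2)) ^ N) * coeff b F = io p := by
    intro b hb
    exact hN₀ b N (Finset.single_le_sum (fun _ _ => Nat.zero_le _) hb)
  choose! p hp using h1
  refine ⟨N, ∑ b ∈ F.support, monomial b (p b), ?_, ?_⟩
  · apply IsHomogeneous.sum
    intro b hb
    apply isHomogeneous_monomial
    by_contra hcon
    exact (mem_support_iff.1 hb) (hF.coeff_eq_zero hcon)
  · rw [map_sum]
    have h2 : C (io ((X (i + 1) * X (i + 2)) ^ N)) * F =
        ∑ b ∈ F.support, monomial b (io ((X (i + 1) * X (i + 2)) ^ N) * coeff b F) := by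
      conv_lhs => rw [F.as_sum, Finset.mul_sum]
      refine Finset.sum_congr rfl fun b _ => ?_
      rw [C_mul_monomial]
    rw [h2]
    refine Finset.sum_congr rfl fun b hb => ?_
    rw [map_monomial, hp b hb]
    rfl

end LTaux

theorem lt_reg {f P : MvPolynomial (Fin 3) ℂ} {v : Fin 3 → MvPolynomial (Fin 3) ℂ} {d n : ℕ}
    (h : Dat f P v d n) (i : Fin 3) (hQ : ∀ p : Fin 3 → ℂ, p (i + 1) ≠ 0 → p (i + 2) ≠ 0 →
      eval p f = 0 → QHat f p) {M : ℕ} {F : MvPolynomial (Fin 3) La}
    (hF : F.IsHomogeneous (M + 1)) (hr : RegP i F) (h0 : eval (fun j => D j (io f)) F = 0) :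
    ∃ T : Fin 3 → MvPolynomial (Fin 3) La, (∀ k, RegP i (T k)) ∧ (∀ k, (T k).IsHomogeneous M) ∧
      ∑ k, T k * C (D k (io f)) = 0 ∧ F = ∑ k, T k * X k := by
  classical
  obtain ⟨N, F', hF', hm⟩ := LTaux.exists_clearP i hr hF
  -- the value at the gradient
  have h1 : eval (fun j => pderiv j f) F' = 0 := by
    apply io_injective
    rw [map_zero]
    have e1 : (io : MvPolynomial (Fin 3) ℂ →+* La) (eval (fun j => pderiv j f) F') =
        eval (fun j => D j (io f)) (map (io : MvPolynomial (Fin 3) ℂ →+* La) F') := by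
      have e2 : ((io : MvPolynomial (Fin 3) ℂ →+* La) ∘ fun j => pderiv j f) =
          fun j => D j (io f) := by
        funext j
        exact (D_io j f).symm
      rw [eval_map, ← e2]
      exact eval₂_comp_left (io : MvPolynomial (Fin 3) ℂ →+* La) (RingHom.id _) _ F'
    have e3 : io (eval (fun j => pderiv j f) F') =
        (io : MvPolynomial (Fin 3) ℂ →+* La) (eval (fun j => pderiv j f) F') := rfl
    rw [e3, e1, hm, map_mul, h0, mul_zero]
  have h2 : eval v F' = 0 := by
    have e1 : ∀ z : Fin 3 → MvPolynomial (Fin 3) ℂ, aeval z F' = eval z F' := fun z => rfl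
    have e2 : P ^ (M + 1) * eval (fun j => pderiv j f) F' = f ^ (M + 1) * eval v F' := by
      rw [← e1, ← e1, ← aeval_smul_hom hF', ← aeval_smul_hom hF']
      congr 2
      funext k
      exact h.rel k
    rw [h1, mul_zero] at e2
    exact (mul_eq_zero.1 e2.symm).resolve_left (pow_ne_zero _ h.f0)
  have hQ' : ∀ p : Fin 3 → ℂ, p (i + 1) ≠ 0 → p (i + 2) ≠ 0 →
      ∃ a : Fin 3 → MvPolynomial (Fin 3) ℂ, ∑ k, a k * v k = 0 ∧ ∃ k, eval p (a k) ≠ 0 := by
    intro p hp1 hp2
    by_cases hpf : eval p f = 0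
    · obtain ⟨a, ha, hk⟩ := hQ p hp1 hp2 hpf
      refine ⟨a, ?_, hk⟩
      have e : P * ∑ i, a i * pderiv i f = f * ∑ i, a i * v i := by
        rw [Finset.mul_sum, Finset.mul_sum]
        refine Finset.sum_congr rfl fun i _ => ?_
        have := h.rel i
        linear_combination a i * this
      rw [ha, mul_zero] at e
      exact (mul_eq_zero.1 e.symm).resolve_left h.f0
    · exact LTaux.exists_syz h p hpf
  obtain ⟨N', T, hT1, hT2⟩ := lt_loc h.prim i hQ' (Nat.succ_pos M) hF' h2
  -- relations with the gradient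
  have hT3 : ∑ k, T k * C (pderiv k f) = 0 := by
    have h2 : (C P : MvPolynomial (Fin 3) (MvPolynomial (Fin 3) ℂ)) ≠ 0 := by
      rw [Ne, C_eq_zero]
      exact h.P0
    apply mul_left_cancel₀ h2
    have h3 : C P * ∑ i, T i * C (pderiv i f) = C f * ∑ i, T i * C (v i) := by
      rw [Finset.mul_sum, Finset.mul_sum]
      refine Finset.sum_congr rfl fun i _ => ?_
      have h4 := congrArg (C : MvPolynomial (Fin 3) ℂ →
        MvPolynomial (Fin 3) (MvPolynomial (Fin 3) ℂ)) (h.rel i)
      rw [C_mul, C_mul] at h4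
      linear_combination T i * h4
    rw [h3, hT1, mul_zero, mul_zero]
  -- over the Laurent polynomials
  obtain ⟨e, he1, he2⟩ := io_XX_isUnit i (N' + N)
  set φ : MvPolynomial (Fin 3) ℂ →+* La := (io : MvPolynomial (Fin 3) ℂ →+* La) with hφ
  have hφ' : ∀ x, φ x = io x := fun x => rfl
  set T' : Fin 3 → MvPolynomial (Fin 3) La := fun k => C e * map φ (T k) with hT'
  have a1 : ∑ k, T' k * C (D k (io f)) = 0 := by
    have := congrArg (map φ) hT3
    rw [map_sum, map_zero] at this
    have h5 : ∑ k, T' k * C (D k (io f)) = C e * ∑ k, map φ (T k * C (pderiv k f)) := by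
      rw [Finset.mul_sum]
      refine Finset.sum_congr rfl fun k _ => ?_
      rw [map_mul, map_C, hφ', ← D_io, hT']
      ring
    rw [h5, this, mul_zero]
  have a2 : F = ∑ k, T' k * X k := by
    have h5 := congrArg (map φ) hT2
    rw [map_mul, map_C, hφ', hm, map_sum] at h5
    have h6 : ∑ k, T' k * X k = C e * ∑ k, map φ (T k * X k) := by
      rw [Finset.mul_sum]
      refine Finset.sum_congr rfl fun k _ => ?_
      rw [map_mul, map_X, hT']
      ring
    rw [h6, ← h5, ← mul_assoc (C (io ((X (i + 1) * X (i + 2)) ^ N'))), ← C_mul, ← map_mul io,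
      ← pow_add, ← mul_assoc, ← C_mul, mul_comm e, he2, C_1, one_mul]
  have a3 : ∀ k, RegP i (T' k) := by
    intro k b
    rw [hT']
    show Reg i (coeff b (C e * map φ (T k)))
    rw [coeff_C_mul, coeff_map]
    exact he1.mul (Reg.io i _)
  -- homogeneous components
  refine ⟨fun k => homogeneousComponent M (T' k), ?_, ?_, ?_, ?_⟩
  · intro k b
    rw [coeff_homogeneousComponent]
    split_ifs with hb
    · exact a3 k b
    · exact Reg.zero i
  · intro k
    exact homogeneousComponent_isHomogeneous _ _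
  · ext1 β
    rw [coeff_sum, coeff_zero]
    have h5 := congrArg (coeff β) a1
    rw [coeff_sum, coeff_zero] at h5
    by_cases hβ : β.degree = M
    · rw [← h5]
      refine Finset.sum_congr rfl fun k _ => ?_
      rw [mul_comm, coeff_C_mul, mul_comm (T' k), coeff_C_mul, coeff_homogeneousComponent,
        if_pos hβ]
    · apply Finset.sum_eq_zero
      intro k _
      rw [mul_comm, coeff_C_mul, coeff_homogeneousComponent, if_neg hβ, mul_zero]
  · ext1 β
    have h1 := congrArg (coeff β) a2
    rw [h1, coeff_sum, coeff_sum]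
    by_cases hβ : β.degree = M + 1
    · refine Finset.sum_congr rfl fun k _ => ?_
      rw [coeff_mul_X', coeff_mul_X']
      split_ifs with hi
      · rw [coeff_homogeneousComponent, if_pos]
        have h2 : Finsupp.single k 1 ≤ β := by
          rw [Finsupp.single_le_iff]
          rw [Finsupp.mem_support_iff] at hi
          omega
        have h3 := congrArg Finsupp.degree (tsub_add_cancel_of_le h2)
        rw [map_add, Finsupp.degree_single, hβ] at h3
        omega
      · rfl
    · have h2 : coeff β F = 0 := hF.coeff_eq_zero hβ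
      have h3 : ∑ k, coeff β (T' k * X k) = 0 := by
        rw [← coeff_sum, ← h1, h2]
      rw [h3]
      symm
      apply Finset.sum_eq_zero
      intro k _
      have h4 : (homogeneousComponent M (T' k) * X k).IsHomogeneous (M + 1) :=
        (homogeneousComponent_isHomogeneous M (T' k)).mul (isHomogeneous_X _ k)
      exact h4.coeff_eq_zero hβ

end MPb07157.OB
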