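import Pool.Agent.Lib.MP_b07157_agB.Psi
import Pool.Agent.Lib.MP_b07157_agB.LT

/-!
# Operators which kill `f^s` are combinations of vector fields which kill `f`
-/

noncomputable section

namespace MPb07157.OB

open MvPolynomial MPb07157Q

namespace DecAux

theorem coeff_nab (i : Fin 3) (T : MvPolynomial (Fin 3) La) (b : Fin 3 →₀ ℕ) :
    coeff b (nab i T) = coeff b (X i * T) - D i (coeff b T) := by
  rw [nab, coeff_sub, coeff_dC]

theorem nab_add (i : Fin 3) (T T' : MvPolynomial (Fin 3) La) :
    nab i (T + T') = nab i T + nab i T' := by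
  ext1 b
  rw [coeff_add, coeff_nab, coeff_nab, coeff_nab, mul_add, coeff_add, coeff_add, map_add]
  abel

theorem dvg_add (T T' : Fin 3 → MvPolynomial (Fin 3) La) :
    dvg (T + T') = dvg T + dvg T' := by
  rw [dvg, dvg, dvg, ← Finset.sum_add_distrib]
  exact Finset.sum_congr rfl fun i _ => nab_add i _ _

theorem nab_zero (i : Fin 3) : nab i 0 = 0 := by
  ext1 b
  rw [coeff_nab, mul_zero, coeff_zero, map_zero, sub_zero]

theorem dvg_zero : dvg (0 : Fin 3 → MvPolynomial (Fin 3) La) = 0 := by
  rw [dvg]
  exact Finset.sum_eq_zero fun i _ => nab_zero i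

theorem coeff_dvg {T : Fin 3 → MvPolynomial (Fin 3) La} {F : MvPolynomial (Fin 3) La}
    (hF : F = ∑ k, T k * X k) (b : Fin 3 →₀ ℕ) :
    coeff b (dvg T) = coeff b F - ∑ k, D k (coeff b (T k)) := by
  rw [dvg, coeff_sum, hF, coeff_sum, ← Finset.sum_sub_distrib]
  refine Finset.sum_congr rfl fun k _ => ?_
  rw [coeff_nab, mul_comm]

end DecAux

open DecAux

theorem dec {f P : MvPolynomial (Fin 3) ℂ} {v : Fin 3 → MvPolynomial (Fin 3) ℂ} {d n : ℕ}
    (h : Dat f P v d n) (i : Fin 3) (hQ : ∀ p : Fin 3 → ℂ, p (i + 1) ≠ 0 → p (i + 2) ≠ 0 →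
      eval p f = 0 → QHat f p) (M : ℕ) :
    ∀ G : MvPolynomial (Fin 3) La, RegP i G → (∀ b ∈ G.support, b.degree ≤ M) →
      (∀ q : ℕ, PsiL (io f ^ q) G = 0) →
      ∃ T : Fin 3 → MvPolynomial (Fin 3) La, (∀ k, RegP i (T k)) ∧
        ∑ k, T k * C (D k (io f)) = 0 ∧ G = dvg T := by
  induction M with
  | zero =>
    intro G _ hG h0
    have h1 : G = C (coeff 0 G) := by
      ext1 b
      rw [coeff_C]
      split_ifs with hb
      · rw [← hb]
      · rw [← notMem_support_iff]
        intro hcon
        apply hb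
        have := hG b hcon
        rw [Nat.le_zero, Finsupp.degree_eq_zero_iff] at this
        exact this.symm
    have h2 := h0 0
    rw [h1, PsiL_C, pow_zero, mul_one] at h2
    refine ⟨0, fun k b => ?_, ?_, ?_⟩
    · rw [Pi.zero_apply, coeff_zero]
      exact Reg.zero i
    · exact Finset.sum_eq_zero fun k _ => by rw [Pi.zero_apply, zero_mul]
    · rw [dvg_zero, h1, h2, map_zero]
  | succ M ih =>
    intro G hr hG h0
    set F := homogeneousComponent (M + 1) G with hFdef
    have hf : io f ≠ 0 := by
      intro hcon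
      exact h.f0 (io_injective (by rw [hcon, map_zero]))
    have hF : F.IsHomogeneous (M + 1) := homogeneousComponent_isHomogeneous _ _
    have hrF : RegP i F := by
      intro b
      rw [hFdef, coeff_homogeneousComponent]
      split_ifs
      · exact hr b
      · exact Reg.zero i
    obtain ⟨T, hT1, hT2, hT3, hT4⟩ := lt_reg h i hQ hF hrF (topL hf hG h0)
    have hc : ∀ b, coeff b (G - dvg T) =
        coeff b G - coeff b F + ∑ k, D k (coeff b (T k)) := by
      intro b
      rw [coeff_sub, coeff_dvg hT4]
      abel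
    obtain ⟨T', hT1', hT3', hT4'⟩ := ih (G - dvg T) (by
      intro b
      rw [hc]
      exact ((hr b).sub (hrF b)).add (Reg.sum fun k _ => (hT1 k b).D k)) (by
      intro b hb
      by_contra hcon
      push Not at hcon
      apply mem_support_iff.1 hb
      rw [hc, Finset.sum_eq_zero, add_zero, hFdef, coeff_homogeneousComponent]
      · split_ifs with h7
        · rw [sub_self]
        · rw [sub_zero, ← notMem_support_iff]
          intro h8
          have := hG b h8
          omega
      · intro k _
        rw [(hT2 k).coeff_eq_zero (by omega), map_zero]) (by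
      intro q
      rw [PsiL_sub, h0 q, PsiL_dvg hT3, sub_zero])
    refine ⟨T + T', fun k b => ?_, ?_, ?_⟩
    · rw [Pi.add_apply, coeff_add]
      exact (hT1 k b).add (hT1' k b)
    · have h1 : ∀ k : Fin 3, (T + T') k * C (D k (io f)) =
          T k * C (D k (io f)) + T' k * C (D k (io f)) := by
        intro k
        rw [Pi.add_apply, add_mul]
      rw [Finset.sum_congr rfl fun k _ => h1 k, Finset.sum_add_distrib, hT3, hT3', add_zero]
    · rw [dvg_add, ← hT4']
      abel

end MPb07157.OB
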