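import Pool.Agent.Lib.MP_b07157_agQ.RootQ

/-!
# Laurent polynomials in three variables and operators with such coefficients: definitions
-/

noncomputable section

namespace MPb07157.OB

open MvPolynomial

/-- Laurent polynomials in three variables. -/
abbrev La := AddMonoidAlgebra ℂ (Fin 3 → ℤ)

/-- The exponent of `x_i`. -/
def ex (i : Fin 3) : Fin 3 → ℤ := Pi.single i 1

theorem ex_same (i : Fin 3) : ex i i = 1 := by simp [ex]

theorem ex_ne {i j : Fin 3} (h : j ≠ i) : ex i j = 0 := by simp [ex, h]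

/-- The monomial `c x^m`. -/
abbrev sg (m : Fin 3 → ℤ) (c : ℂ) : La := AddMonoidAlgebra.single m c

/-- The coefficient of `x^m`. -/
def cf (m : Fin 3 → ℤ) : La →ₗ[ℂ] ℂ where
  toFun a := a.coeff m
  map_add' a b := by simp
  map_smul' c a := by simp

theorem La.ext' {a b : La} (h : ∀ m, cf m a = cf m b) : a = b := by
  rw [← AddMonoidAlgebra.coeff_inj]
  ext m
  exact h m

theorem cf_sg (m m' : Fin 3 → ℤ) (c : ℂ) : cf m (sg m' c) = if m' = m then c else 0 := by
  classical
  show (Finsupp.single m' c) m = _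
  rw [Finsupp.single_apply]

theorem sg_mul_sg (m m' : Fin 3 → ℤ) (c c' : ℂ) : sg m c * sg m' c' = sg (m + m') (c * c') :=
  AddMonoidAlgebra.single_mul_single _ _ _ _

theorem La.induct {p : La → Prop} (a : La) (h0 : p 0) (hadd : ∀ a b, p a → p b → p (a + b))
    (hs : ∀ m c, p (sg m c)) : p a :=
  AddMonoidAlgebra.induction_linear a h0 hadd hs

theorem one_eq_sg : (1 : La) = sg 0 1 := rfl

theorem smul_sg (c : ℂ) (m : Fin 3 → ℤ) (c' : ℂ) : c • sg m c' = sg m (c * c') :=
  AddMonoidAlgebra.smul_single _ _ _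

theorem cf_sg_mul (e m : Fin 3 → ℤ) (c : ℂ) (a : La) :
    cf m (sg e c * a) = c * cf (m - e) a := by
  induction a using La.induct with
  | h0 => simp
  | hadd a b ha hb => rw [mul_add, map_add, map_add, ha, hb, mul_add]
  | hs m' c' =>
    rw [sg_mul_sg, cf_sg, cf_sg]
    by_cases h : e + m' = m
    · rw [if_pos h, if_pos]
      rw [← h]
      abel
    · rw [if_neg h, if_neg, mul_zero]
      intro h2
      apply h
      rw [h2]
      abel

/-- The derivative with respect to `x_i`, as a linear map. -/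
def DL0 (i : Fin 3) : La →ₗ[ℂ] La :=
  (Finsupp.lsum ℂ fun m : Fin 3 → ℤ =>
    ((m i : ℂ) • (AddMonoidAlgebra.lsingle (m - ex i) : ℂ →ₗ[ℂ] La))) ∘ₗ
    (AddMonoidAlgebra.coeffLinearEquiv ℂ : La ≃ₗ[ℂ] _).toLinearMap

theorem DL0_sg (i : Fin 3) (m : Fin 3 → ℤ) (c : ℂ) :
    DL0 i (sg m c) = sg (m - ex i) ((m i : ℂ) * c) := by
  show Finsupp.lsum ℂ _ (Finsupp.single m c) = _
  rw [Finsupp.lsum_single, LinearMap.smul_apply]
  show (m i : ℂ) • sg (m - ex i) c = _
  rw [smul_sg]

/-- The derivative with respect to `x_i`. -/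
def D (i : Fin 3) : Derivation ℂ La La :=
  Derivation.mk' (DL0 i) (by
    intro a b
    induction a using La.induct with
    | h0 => simp
    | hadd a a' ha ha' =>
      rw [add_mul, map_add, ha, ha', map_add, add_smul, smul_add]
      abel
    | hs m c =>
      induction b using La.induct with
      | h0 => simp
      | hadd b b' hb hb' =>
        rw [mul_add, map_add, hb, hb', map_add, add_smul, smul_add]
        abel
      | hs m' c' =>
        rw [sg_mul_sg, DL0_sg, DL0_sg, DL0_sg, smul_eq_mul, smul_eq_mul, sg_mul_sg, sg_mul_sg]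
        have e1 : m + (m' - ex i) = m + m' - ex i := by abel
        have e2 : m' + (m - ex i) = m + m' - ex i := by abel
        rw [e1, e2, ← AddMonoidAlgebra.single_add]
        congr 1
        rw [Pi.add_apply]
        push_cast
        ring)

theorem D_sg (i : Fin 3) (m : Fin 3 → ℤ) (c : ℂ) :
    D i (sg m c) = sg (m - ex i) ((m i : ℂ) * c) := DL0_sg i m c

theorem D_mul (i : Fin 3) (a b : La) : D i (a * b) = a * D i b + b * D i a := by
  rw [Derivation.leibniz, smul_eq_mul, smul_eq_mul]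

theorem cf_D (i : Fin 3) (m : Fin 3 → ℤ) (a : La) :
    cf m (D i a) = ((m i : ℂ) + 1) * cf (m + ex i) a := by
  induction a using La.induct with
  | h0 => simp
  | hadd a b ha hb => rw [map_add, map_add, map_add, ha, hb, mul_add]
  | hs m' c =>
    rw [D_sg, cf_sg, cf_sg]
    by_cases h : m' = m + ex i
    · rw [if_pos h, if_pos (by rw [h]; abel), h, Pi.add_apply, ex_same]
      push_cast
      ring
    · rw [if_neg h, if_neg, mul_zero]
      intro h2
      apply h
      rw [← h2]
      abel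

theorem D_comm (i j : Fin 3) (a : La) : D i (D j a) = D j (D i a) := by
  induction a using La.induct with
  | h0 => simp
  | hadd a b ha hb => simp only [map_add, ha, hb]
  | hs m c =>
    rw [D_sg, D_sg, D_sg, D_sg]
    have e1 : m - ex j - ex i = m - ex i - ex j := by abel
    rw [e1]
    congr 1
    by_cases h : i = j
    · subst h
      ring
    · rw [Pi.sub_apply, Pi.sub_apply, ex_ne h, ex_ne (Ne.symm h), sub_zero, sub_zero]
      ring

/-- The exponents of a polynomial as exponents of a Laurent polynomial. -/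
def toZ (m : Fin 3 →₀ ℕ) : Fin 3 → ℤ := fun i => (m i : ℤ)

theorem toZ_injective : Function.Injective toZ := by
  intro m m' h
  ext i
  have := congrFun h i
  simpa [toZ] using this

/-- Polynomials as Laurent polynomials. -/
def io : MvPolynomial (Fin 3) ℂ →ₐ[ℂ] La := aeval fun i => sg (ex i) 1

theorem sg_pow (m : Fin 3 → ℤ) (c : ℂ) (k : ℕ) : sg m c ^ k = sg (k • m) (c ^ k) := by
  induction k with
  | zero => rw [pow_zero, pow_zero, zero_smul, one_eq_sg]
  | succ k ih => rw [pow_succ, ih, sg_mul_sg, succ_nsmul, pow_succ]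

theorem io_monomial (m : Fin 3 →₀ ℕ) (c : ℂ) : io (monomial m c) = sg (toZ m) c := by
  have h1 : ∀ c : ℂ, algebraMap ℂ La c = sg 0 c := fun c => rfl
  have h2 : (toZ m) = (m 0) • ex 0 + (m 1) • ex 1 + (m 2) • ex 2 := by
    funext i
    fin_cases i <;> simp [toZ, ex]
  unfold io
  rw [aeval_monomial, h1, Finsupp.prod_fintype _ _ (fun i => pow_zero _), Fin.prod_univ_three,
    sg_pow, sg_pow, sg_pow, sg_mul_sg, sg_mul_sg, sg_mul_sg, h2]
  congr 1
  · abel
  · simp

theorem cf_io (m : Fin 3 →₀ ℕ) (p : MvPolynomial (Fin 3) ℂ) : cf (toZ m) (io p) = coeff m p := by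
  induction p using MvPolynomial.induction_on' with
  | monomial u a =>
    classical
    rw [io_monomial, cf_sg, coeff_monomial]
    by_cases h : u = m
    · rw [if_pos (by rw [h]), if_pos h]
    · rw [if_neg (fun h2 => h (toZ_injective h2)), if_neg h]
  | add p q hp hq => rw [map_add, map_add, hp, hq, coeff_add]

theorem cf_io_neg {m : Fin 3 → ℤ} {i : Fin 3} (hi : m i < 0) (p : MvPolynomial (Fin 3) ℂ) :
    cf m (io p) = 0 := by
  induction p using MvPolynomial.induction_on' with
  | monomial u a =>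
    rw [io_monomial, cf_sg, if_neg]
    rintro rfl
    simp [toZ] at hi
    omega
  | add p q hp hq => rw [map_add, map_add, hp, hq, add_zero]

theorem io_injective : Function.Injective io := by
  intro p q h
  ext m
  rw [← cf_io, ← cf_io, h]

theorem D_io (i : Fin 3) (p : MvPolynomial (Fin 3) ℂ) : D i (io p) = io (pderiv i p) := by
  induction p using MvPolynomial.induction_on' with
  | monomial u a =>
    rw [io_monomial, D_sg, pderiv_monomial, io_monomial]
    by_cases h : u i = 0
    · simp [toZ, h]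
    · congr 1
      · funext j
        by_cases hj : j = i
        · subst hj
          simp [toZ, ex]
          omega
        · simp [toZ, ex, hj]
      · simp [toZ, mul_comm]
  | add p q hp hq => simp only [map_add, hp, hq]

theorem io_X (i : Fin 3) : io (X i) = sg (ex i) 1 := by
  unfold io
  rw [aeval_X]

theorem io_C (c : ℂ) : io (C c) = sg 0 c := by
  rw [← monomial_zero', io_monomial]
  congr 1

/-! ### Gradings -/

/-- The exponent of `x_i`. -/
def co (i : Fin 3) : (Fin 3 → ℤ) →+ ℤ := Pi.evalAddMonoidHom _ i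

theorem co_apply (i : Fin 3) (m : Fin 3 → ℤ) : co i m = m i := rfl

/-- The total degree. -/
def td : (Fin 3 → ℤ) →+ ℤ := co 0 + co 1 + co 2

theorem td_apply (m : Fin 3 → ℤ) : td m = m 0 + m 1 + m 2 := rfl

/-- The weight `m_(i+1) + m_(i+2)`. -/
def wt (i : Fin 3) : (Fin 3 → ℤ) →+ ℤ := co (i + 1) + co (i + 2)

theorem wt_apply (i : Fin 3) (m : Fin 3 → ℤ) : wt i m = m (i + 1) + m (i + 2) := rfl

/-- All monomials have degree at least `k`. -/
def Ge (l : (Fin 3 → ℤ) →+ ℤ) (k : ℤ) (a : La) : Prop := ∀ m, cf m a ≠ 0 → k ≤ l m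

/-- All monomials have degree `k`. -/
def Hm (l : (Fin 3 → ℤ) →+ ℤ) (k : ℤ) (a : La) : Prop := ∀ m, cf m a ≠ 0 → l m = k

/-- The exponents of `x_i` are not negative. -/
def Reg (i : Fin 3) (a : La) : Prop := Ge (co i) 0 a

open Classical in
/-- The part of a Laurent polynomial with exponents in `P`. -/
def cpt (P : (Fin 3 → ℤ) → Prop) : La →ₗ[ℂ] La where
  toFun a := AddMonoidAlgebra.ofCoeff (a.coeff.filter P)
  map_add' a b := by
    rw [AddMonoidAlgebra.coeff_add, Finsupp.filter_add, AddMonoidAlgebra.ofCoeff_add]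
  map_smul' c a := by
    rw [AddMonoidAlgebra.coeff_smul, Finsupp.filter_smul, AddMonoidAlgebra.ofCoeff_smul,
      RingHom.id_apply]

theorem cf_cpt_pos {P : (Fin 3 → ℤ) → Prop} {m : Fin 3 → ℤ} (h : P m) (a : La) :
    cf m (cpt P a) = cf m a := by
  classical
  show (a.coeff.filter P) m = a.coeff m
  exact Finsupp.filter_apply_pos _ _ h

theorem cf_cpt_neg {P : (Fin 3 → ℤ) → Prop} {m : Fin 3 → ℤ} (h : ¬ P m) (a : La) :
    cf m (cpt P a) = 0 := by
  classical
  show (a.coeff.filter P) m = 0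
  exact Finsupp.filter_apply_neg _ _ h

/-- The component of degree `k`. -/
def gc (l : (Fin 3 → ℤ) →+ ℤ) (k : ℤ) : La →ₗ[ℂ] La := cpt fun m => l m = k

/-! ### Vector fields -/

/-- The divergence. -/
def dv (t : Fin 3 → La) : La := ∑ i, D i (t i)

/-- The curl. -/
def cu (t : Fin 3 → La) (i : Fin 3) : La := D (i + 1) (t (i + 2)) - D (i + 2) (t (i + 1))

/-! ### Operators -/

/-- The derivative of the coefficients. -/
def dC (i : Fin 3) (G : MvPolynomial (Fin 3) La) : MvPolynomial (Fin 3) La :=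
  ∑ b ∈ G.support, monomial b (D i (coeff b G))

theorem coeff_dC (i : Fin 3) (G : MvPolynomial (Fin 3) La) (b : Fin 3 →₀ ℕ) :
    coeff b (dC i G) = D i (coeff b G) := by
  classical
  unfold dC
  rw [coeff_sum]
  simp only [coeff_monomial]
  rw [Finset.sum_ite_eq' G.support b]
  split_ifs with h
  · rfl
  · rw [notMem_support_iff.1 h, map_zero]

/-- `ξ_i T - ∂_i T`, the symbol of `∂_i ∘ T - ∂_i(T)`. -/
def nab (i : Fin 3) (T : MvPolynomial (Fin 3) La) : MvPolynomial (Fin 3) La := X i * T - dC i T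

/-- The operator `∑ ∂^b (T_b · grad)`. -/
def dvg (T : Fin 3 → MvPolynomial (Fin 3) La) : MvPolynomial (Fin 3) La := ∑ i, nab i (T i)

/-- The curl of a vector of operators. -/
def cur (T : Fin 3 → MvPolynomial (Fin 3) La) (i : Fin 3) : MvPolynomial (Fin 3) La :=
  nab (i + 1) (T (i + 2)) - nab (i + 2) (T (i + 1))

/-- `∂^b`. -/
def DD (b : Fin 3 →₀ ℕ) (a : La) : La := (D 0)^[b 0] ((D 1)^[b 1] ((D 2)^[b 2] a))

/-- `∑_b ∂^b (G_b u)`. -/
def PsiL (u : La) (G : MvPolynomial (Fin 3) La) : La :=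
  ∑ b ∈ G.support, DD b (coeff b G * u)

/-- All coefficients are regular. -/
def RegP (i : Fin 3) (G : MvPolynomial (Fin 3) La) : Prop := ∀ b, Reg i (coeff b G)

/-- The data. -/
structure Dat (f P : MvPolynomial (Fin 3) ℂ) (v : Fin 3 → MvPolynomial (Fin 3) ℂ) (d n : ℕ) :
    Prop where
  f0 : f ≠ 0
  P0 : P ≠ 0
  hd : 0 < d
  hn : 0 < n
  hf : f.IsHomogeneous d
  hP : P.IsHomogeneous n
  hv : ∀ i, (v i).IsHomogeneous (n - 1)
  rel : ∀ i, P * pderiv i f = f * v i
  prim : ∀ q, (∀ i, q ∣ v i) → IsUnit q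

/-- At the point `P_i` the lowest part `F` of `P` has no common factor with the lowest parts `a`,
`b` of `v_(i+1)` and `v_(i+2)`. -/
def Cop (i : Fin 3) (F a b : La) : Prop :=
  ∀ j, j ≠ i → ∀ δ, Reg j δ → (∃ u, Reg j u ∧ a * δ = F * u) → (∃ u, Reg j u ∧ b * δ = F * u) →
    ∃ u, Reg j u ∧ δ = F * u

/-- The conditions at the point `P_i`: `M` and `μ` are the multiplicities of `f` and `P`. -/
structure Vert (f P : MvPolynomial (Fin 3) ℂ) (v : Fin 3 → MvPolynomial (Fin 3) ℂ) (i : Fin 3)
    (M μ : ℕ) : Prop where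
  f1 : Ge (wt i) M (io f)
  f2 : gc (wt i) M (io f) ≠ 0
  P1 : Ge (wt i) μ (io P)
  P2 : gc (wt i) μ (io P) ≠ 0
  cop : Cop i (gc (wt i) μ (io P)) (gc (wt i) ((μ : ℤ) - 1) (io (v (i + 1))))
    (gc (wt i) ((μ : ℤ) - 1) (io (v (i + 2))))

end MPb07157.OB
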