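import Pool.Agent.Lib.MP_b07157_agB.ODefs
import Pool.Agent.Lib.MP_b07157_agQ.RootQ

/-!
# Linear changes of coordinates
-/

noncomputable section

namespace MPb07157.OB

open MvPolynomial

namespace LinAux

/-- The substitution `X_j ↦ ∑_i p_ij X_i`. -/
def sub (p : Fin 3 → Fin 3 → ℂ) : MvPolynomial (Fin 3) ℂ →ₐ[ℂ] MvPolynomial (Fin 3) ℂ :=
  aeval fun j => ∑ i, C (p i j) * X i

theorem sub_X (p : Fin 3 → Fin 3 → ℂ) (j : Fin 3) : sub p (X j) = ∑ i, C (p i j) * X i :=
  aeval_X _ _

theorem sub_C (p : Fin 3 → Fin 3 → ℂ) (c : ℂ) : sub p (C c) = C c := by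
  unfold sub
  rw [aeval_C]
  rfl

theorem sub_sub {p q : Fin 3 → Fin 3 → ℂ}
    (h : ∀ l j, ∑ i, p l i * q i j = if l = j then 1 else 0) :
    (sub p).comp (sub q) = AlgHom.id ℂ _ := by
  apply MvPolynomial.algHom_ext
  intro j
  rw [AlgHom.comp_apply, sub_X, map_sum, AlgHom.id_apply]
  have h1 : ∀ i, sub p (C (q i j) * X i) = ∑ l, C (p l i * q i j) * X l := fun i => by
    rw [map_mul, sub_C, sub_X, Finset.mul_sum]
    refine Finset.sum_congr rfl fun l _ => ?_
    rw [map_mul]
    ring
  simp only [h1]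
  rw [Finset.sum_comm]
  have h2 : ∀ l, ∑ i, C (p l i * q i j) * (X l : MvPolynomial (Fin 3) ℂ) =
      if l = j then X l else 0 := fun l => by
    rw [← Finset.sum_mul, ← map_sum, h]
    split_ifs
    · rw [map_one, one_mul]
    · rw [map_zero, zero_mul]
  simp only [h2]
  rw [Finset.sum_ite_eq' Finset.univ j, if_pos (Finset.mem_univ _)]

theorem eval_subst (p : Fin 3 → Fin 3 → ℂ) (f : MvPolynomial (Fin 3) ℂ) (x : Fin 3 → ℂ) :
    eval x (sub p f) = eval (∑ i, x i • p i) f := by
  have h : (aeval x : MvPolynomial (Fin 3) ℂ →ₐ[ℂ] ℂ).comp (sub p) = aeval (∑ i, x i • p i) := by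
    apply MvPolynomial.algHom_ext
    intro j
    rw [AlgHom.comp_apply, sub_X, aeval_X, map_sum, Finset.sum_apply]
    refine Finset.sum_congr rfl fun i _ => ?_
    rw [map_mul, aeval_C, aeval_X, Pi.smul_apply, smul_eq_mul, mul_comm]
    rfl
  have h1 := congrArg (fun φ : MvPolynomial (Fin 3) ℂ →ₐ[ℂ] ℂ => φ f) h
  simp only [AlgHom.comp_apply] at h1
  exact h1

theorem homog_sub (p : Fin 3 → Fin 3 → ℂ) {f : MvPolynomial (Fin 3) ℂ} {d : ℕ}
    (hf : f.IsHomogeneous d) : (sub p f).IsHomogeneous d := by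
  have h := hf.aeval (fun j => ∑ i, C (p i j) * X i) (n := 1) fun j =>
    IsHomogeneous.sum _ _ _ fun i _ => (isHomogeneous_X ℂ i).C_mul (p i j)
  rw [one_mul] at h
  exact h

/-- The chain rule. -/
theorem pderiv_sub (p : Fin 3 → Fin 3 → ℂ) (i : Fin 3) (f : MvPolynomial (Fin 3) ℂ) :
    pderiv i (sub p f) = ∑ j, C (p i j) * sub p (pderiv j f) := by
  have hX : ∀ j, pderiv i (sub p (X j)) = C (p i j) := fun j => by
    rw [sub_X, map_sum, Finset.sum_eq_single i]
    · rw [pderiv_C_mul, pderiv_X_self, mul_one]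
    · intro l _ hl
      rw [pderiv_C_mul, pderiv_X_of_ne hl, mul_zero]
    · intro h
      exact absurd (Finset.mem_univ _) h
  induction f using MvPolynomial.induction_on with
  | C a =>
    rw [sub_C, pderiv_C]
    symm
    refine Finset.sum_eq_zero fun j _ => ?_
    rw [pderiv_C, map_zero, mul_zero]
  | add a b ha hb =>
    rw [map_add, map_add, ha, hb, ← Finset.sum_add_distrib]
    refine Finset.sum_congr rfl fun j _ => ?_
    rw [map_add, map_add, mul_add]
  | mul_X a l ha =>
    rw [map_mul, Derivation.leibniz, ha, hX, smul_eq_mul, smul_eq_mul]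
    have h1 : ∀ j, C (p i j) * sub p (pderiv j (a * X l)) =
        sub p a * (if j = l then C (p i j) else 0) +
          sub p (X l) * (C (p i j) * sub p (pderiv j a)) := fun j => by
      rw [Derivation.leibniz, smul_eq_mul, smul_eq_mul, map_add, map_mul, map_mul]
      by_cases hjl : j = l
      · subst hjl
        rw [pderiv_X_self, if_pos rfl, map_one]
        ring
      · rw [pderiv_X_of_ne (Ne.symm hjl), if_neg hjl, map_zero]
        ring
    simp only [h1]
    rw [Finset.sum_add_distrib, ← Finset.mul_sum, ← Finset.mul_sum,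
      Finset.sum_ite_eq' Finset.univ l, if_pos (Finset.mem_univ _)]

/-- `∑_i (∑_j q_ji u_j) (∑_m p_im v_m) = ∑_m u_m v_m` for inverse matrices. -/
theorem sum_inv {R : Type} [CommRing R] [Algebra ℂ R] {p q : Fin 3 → Fin 3 → ℂ}
    (h : ∀ l j, ∑ i, q l i * p i j = if l = j then 1 else 0) (u v : Fin 3 → R) :
    ∑ i, (∑ j, algebraMap ℂ R (q j i) * u j) * (∑ m, algebraMap ℂ R (p i m) * v m) =
      ∑ m, u m * v m := by
  have h1 : ∀ i, (∑ j, algebraMap ℂ R (q j i) * u j) * (∑ m, algebraMap ℂ R (p i m) * v m) =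
      ∑ j, ∑ m, algebraMap ℂ R (q j i * p i m) * (u j * v m) := fun i => by
    rw [Finset.sum_mul_sum]
    refine Finset.sum_congr rfl fun j _ => Finset.sum_congr rfl fun m _ => ?_
    rw [map_mul]
    ring
  simp only [h1]
  rw [Finset.sum_comm]
  refine Finset.sum_congr rfl fun j _ => ?_
  rw [Finset.sum_comm]
  have h2 : ∀ m, ∑ i, algebraMap ℂ R (q j i * p i m) * (u j * v m) =
      if j = m then u j * v m else 0 := fun m => by
    rw [← Finset.sum_mul, ← map_sum, h]
    split_ifs
    · rw [map_one, one_mul]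
    · rw [map_zero, zero_mul]
  simp only [h2]
  rw [Finset.sum_ite_eq Finset.univ j, if_pos (Finset.mem_univ _)]

/-- `∑_i p_im (∑_j q_ji u_j) = u_m` for inverse matrices. -/
theorem sum_inv' {R : Type} [CommRing R] [Algebra ℂ R] {p q : Fin 3 → Fin 3 → ℂ}
    (h : ∀ l j, ∑ i, q l i * p i j = if l = j then 1 else 0) (u : Fin 3 → R) (m : Fin 3) :
    ∑ i, algebraMap ℂ R (p i m) * (∑ j, algebraMap ℂ R (q j i) * u j) = u m := by
  have h1 : ∀ i, algebraMap ℂ R (p i m) * (∑ j, algebraMap ℂ R (q j i) * u j) =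
      ∑ j, algebraMap ℂ R (q j i * p i m) * u j := fun i => by
    rw [Finset.mul_sum]
    refine Finset.sum_congr rfl fun j _ => ?_
    rw [map_mul]
    ring
  simp only [h1]
  rw [Finset.sum_comm]
  have h2 : ∀ j, ∑ i, algebraMap ℂ R (q j i * p i m) * u j = if j = m then u j else 0 :=
    fun j => by
    rw [← Finset.sum_mul, ← map_sum, h]
    split_ifs
    · rw [map_one, one_mul]
    · rw [map_zero, zero_mul]
  simp only [h2]
  rw [Finset.sum_ite_eq' Finset.univ m, if_pos (Finset.mem_univ _)]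

/-- `∑_l q_jl (∑_m p_lm v_m) = v_j` for inverse matrices. -/
theorem sum_row {R : Type} [CommRing R] [Algebra ℂ R] {p q : Fin 3 → Fin 3 → ℂ}
    (h : ∀ l j, ∑ i, q l i * p i j = if l = j then 1 else 0) (v : Fin 3 → R) (j : Fin 3) :
    ∑ l, algebraMap ℂ R (q j l) * (∑ m, algebraMap ℂ R (p l m) * v m) = v j := by
  have h1 : ∀ l, algebraMap ℂ R (q j l) * (∑ m, algebraMap ℂ R (p l m) * v m) =
      ∑ m, algebraMap ℂ R (q j l * p l m) * v m := fun l => by
    rw [Finset.mul_sum]
    refine Finset.sum_congr rfl fun m _ => ?_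
    rw [map_mul]
    ring
  simp only [h1]
  rw [Finset.sum_comm]
  have h2 : ∀ m, ∑ l, algebraMap ℂ R (q j l * p l m) * v m = if j = m then v m else 0 :=
    fun m => by
    rw [← Finset.sum_mul, ← map_sum, h]
    split_ifs
    · rw [map_one, one_mul]
    · rw [map_zero, zero_mul]
  simp only [h2]
  rw [Finset.sum_ite_eq Finset.univ j, if_pos (Finset.mem_univ _)]

theorem homogComp_sub (p : Fin 3 → Fin 3 → ℂ) (j : ℕ) (f : MvPolynomial (Fin 3) ℂ) :
    homogeneousComponent j (sub p f) = sub p (homogeneousComponent j f) := by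
  have h1 : sub p f = ∑ i ∈ Finset.range (f.totalDegree + 1),
      sub p (homogeneousComponent i f) := by
    rw [← map_sum, sum_homogeneousComponent]
  rw [h1, map_sum]
  have h2 : ∀ i, homogeneousComponent j (sub p (homogeneousComponent i f)) =
      if j = i then sub p (homogeneousComponent i f) else 0 := fun i =>
    homogeneousComponent_of_mem ((mem_homogeneousSubmodule _ _).2
      (homog_sub p (homogeneousComponent_isHomogeneous i f)))
  simp only [h2]
  rw [Finset.sum_ite_eq]
  split_ifs with h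
  · rfl
  · rw [homogeneousComponent_eq_zero _ _ (by
      rw [Finset.mem_range] at h
      omega), map_zero]

theorem translate_sub (p : Fin 3 → Fin 3 → ℂ) (i : Fin 3) (f : MvPolynomial (Fin 3) ℂ) :
    translate (Pi.single i 1) (sub p f) = sub p (translate (p i) f) := by
  have h : (aeval (fun j => X j + C ((Pi.single i 1 : Fin 3 → ℂ) j)) :
      MvPolynomial (Fin 3) ℂ →ₐ[ℂ] MvPolynomial (Fin 3) ℂ).comp (sub p) =
      (sub p).comp (aeval fun j => X j + C (p i j)) := by
    apply MvPolynomial.algHom_ext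
    intro j
    rw [AlgHom.comp_apply, AlgHom.comp_apply, sub_X, aeval_X, map_add, sub_X, sub_C, map_sum]
    have h1 : ∀ l, (aeval (fun j => X j + C ((Pi.single i 1 : Fin 3 → ℂ) j)) :
        MvPolynomial (Fin 3) ℂ →ₐ[ℂ] MvPolynomial (Fin 3) ℂ) (C (p l j) * X l) =
        C (p l j) * X l + (if l = i then C (p l j) else 0) := fun l => by
      rw [map_mul, aeval_C, aeval_X, mul_add]
      by_cases hl : l = i
      · subst hl
        rw [Pi.single_eq_same, if_pos rfl, map_one, mul_one]
        rfl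
      · rw [Pi.single_eq_of_ne hl, if_neg hl, map_zero, mul_zero]
        rfl
    simp only [h1]
    rw [Finset.sum_add_distrib, Finset.sum_ite_eq' Finset.univ i, if_pos (Finset.mem_univ _)]
  exact congrArg (fun φ : MvPolynomial (Fin 3) ℂ →ₐ[ℂ] MvPolynomial (Fin 3) ℂ => φ f) h

theorem squarefree_equiv (e : MvPolynomial (Fin 3) ℂ ≃ₐ[ℂ] MvPolynomial (Fin 3) ℂ)
    {f : MvPolynomial (Fin 3) ℂ} (h : Squarefree f) : Squarefree (e f) := by
  intro x hx
  have h1 : e.symm x * e.symm x ∣ f := by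
    have h2 := map_dvd e.symm hx
    rwa [map_mul, AlgEquiv.symm_apply_apply] at h2
  have h3 := (h _ h1).map e
  rwa [AlgEquiv.apply_symm_apply] at h3

end LinAux

open LinAux in
/-- There is a linear change of coordinates `e` with `(e f)(x) = f(∑ x_i p_i)` for linearly
independent `p_i`. All conditions are invariant. -/
theorem exists_lin {p : Fin 3 → Fin 3 → ℂ} (hp : LinearIndependent ℂ p) :
    ∃ e : MvPolynomial (Fin 3) ℂ ≃ₐ[ℂ] MvPolynomial (Fin 3) ℂ,
      (∀ f x, eval x (e f) = eval (∑ i, x i • p i) f) ∧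
      (∀ f d, f.IsHomogeneous d → (e f).IsHomogeneous d) ∧
      (∀ f, NS f → NS (e f)) ∧
      (∀ f x, QHat f (∑ i, x i • p i) → QHat (e f) x) ∧
      ∀ f d i, OrdAt f d (p i) → OrdAt (e f) d (Pi.single i 1) := by
  obtain ⟨q, hpq, hqp⟩ : ∃ q : Fin 3 → Fin 3 → ℂ,
      (∀ l j, ∑ i, p l i * q i j = if l = j then 1 else 0) ∧
      ∀ l j, ∑ i, q l i * p i j = if l = j then 1 else 0 := by
    have h1 : IsUnit (Matrix.of p) :=
      Matrix.linearIndependent_rows_iff_isUnit.1 hp
    obtain ⟨u, hu⟩ := h1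
    refine ⟨fun i j => (↑u⁻¹ : Matrix (Fin 3) (Fin 3) ℂ) i j, fun l j => ?_, fun l j => ?_⟩
    · have h2 : (Matrix.of p * (↑u⁻¹ : Matrix (Fin 3) (Fin 3) ℂ)) l j =
          (1 : Matrix (Fin 3) (Fin 3) ℂ) l j := by
        rw [← hu, Units.mul_inv]
      rw [Matrix.mul_apply, Matrix.one_apply] at h2
      exact h2
    · have h2 : ((↑u⁻¹ : Matrix (Fin 3) (Fin 3) ℂ) * Matrix.of p) l j =
          (1 : Matrix (Fin 3) (Fin 3) ℂ) l j := by
        rw [← hu, Units.inv_mul]
      rw [Matrix.mul_apply, Matrix.one_apply] at h2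
      exact h2
  let e : MvPolynomial (Fin 3) ℂ ≃ₐ[ℂ] MvPolynomial (Fin 3) ℂ :=
    AlgEquiv.ofAlgHom (sub p) (sub q) (sub_sub hpq) (sub_sub hqp)
  have he : ∀ f, e f = sub p f := fun _ => rfl
  have hes : ∀ f, e.symm f = sub q f := fun _ => rfl
  refine ⟨e, fun f x => eval_subst p f x, fun f d hf => homog_sub p hf, fun f hf a ha h => ?_,
    fun f x hf => ?_, fun f d i hf => ?_⟩
  · -- no linear fields with divergence
    set b : Fin 3 → MvPolynomial (Fin 3) ℂ := fun j => e.symm (∑ i, C (p i j) * a i) with hb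
    have hb1 : ∀ j, (b j).IsHomogeneous 1 := fun j =>
      homog_sub q (IsHomogeneous.sum _ _ _ fun i _ => (ha i).C_mul (p i j))
    have hb2 : ∀ j, sub p (b j) = ∑ i, C (p i j) * a i := fun j => by
      rw [← he, hb]
      exact AlgEquiv.apply_symm_apply _ _
    have hb3 : ∑ j, b j * pderiv j f = 0 := by
      apply e.injective
      rw [map_zero, map_sum, ← h]
      simp only [map_mul, he, hb2, pderiv_sub, Finset.sum_mul, Finset.mul_sum]
      rw [Finset.sum_comm]
      refine Finset.sum_congr rfl fun i _ => Finset.sum_congr rfl fun j _ => ?_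
      ring
    have hb4 := hf b hb1 hb3
    have ha2 : ∀ l, a l = ∑ j, C (q j l) * sub p (b j) := fun l => by
      simp only [hb2]
      exact (sum_inv' (R := MvPolynomial (Fin 3) ℂ) (p := q) (q := p) hpq a l).symm
    have h6 : ∑ l, pderiv l (a l) = ∑ j, sub p (pderiv j (b j)) := by
      have h7 : ∀ l, pderiv l (a l) = ∑ j, C (q j l) * ∑ m, C (p l m) * sub p (pderiv m (b j)) := by
        intro l
        rw [ha2 l, map_sum]
        refine Finset.sum_congr rfl fun j _ => ?_
        rw [pderiv_C_mul, pderiv_sub]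
      simp only [h7]
      rw [Finset.sum_comm]
      refine Finset.sum_congr rfl fun j _ => ?_
      exact sum_row (R := MvPolynomial (Fin 3) ℂ) hqp (fun m => sub p (pderiv m (b j))) j
    rw [h6, ← map_sum, hb4, map_zero]
  · -- vector fields
    obtain ⟨a, h1, m, h2⟩ := hf
    refine ⟨fun i => ∑ j, C (q j i) * sub p (a j), ?_, ?_⟩
    · simp only [he, pderiv_sub]
      have h3 := sum_inv (R := MvPolynomial (Fin 3) ℂ) hqp (fun j => sub p (a j))
        (fun j => sub p (pderiv j f))
      refine h3.trans ?_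
      rw [← map_zero (sub p), ← h1, map_sum]
      exact Finset.sum_congr rfl fun j _ => (map_mul _ _ _).symm
    · by_contra hcon
      push Not at hcon
      apply h2
      have h3 := sum_inv' (R := ℂ) hqp (fun j => eval (∑ i, x i • p i) (a j)) m
      rw [← h3]
      refine Finset.sum_eq_zero fun i _ => ?_
      have h4 := hcon i
      rw [map_sum] at h4
      have h5 : ∑ j, algebraMap ℂ ℂ (q j i) * eval (∑ i, x i • p i) (a j) = 0 := by
        rw [← h4]
        refine Finset.sum_congr rfl fun j _ => ?_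
        rw [map_mul, eval_C, eval_subst]
        rfl
      rw [h5, mul_zero]
  · -- ordinary multiple points
    obtain ⟨⟨F, k, μ, h1, h2, h3, h4, h5⟩, M, h6, h7, h8⟩ := hf
    refine ⟨⟨e F, k, μ, squarefree_equiv e h1, map_dvd e h2, ?_, ?_, ?_⟩, M, ?_, ?_, h8⟩
    · rw [← map_pow]
      exact map_dvd e h3
    · intro j hj
      rw [he, translate_sub, homogComp_sub, h4 j hj, map_zero]
    · rw [he, translate_sub, homogComp_sub]
      exact squarefree_equiv e h5
    · intro j hj
      rw [he, translate_sub, homogComp_sub, h6 j hj, map_zero]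
    · rw [he, translate_sub, homogComp_sub]
      intro h0
      exact h7 (e.injective (by rw [map_zero]; exact h0))

end MPb07157.OB
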