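import Pool.Agent.Lib.MP_b07157_agQ.QDefs

/-!
# Curves with three non-quasi-homogeneous points: definitions
-/

noncomputable section

namespace MPb07157

open MvPolynomial

/-- At the point `p` the reduced curve of `f` has an ordinary multiple point (`F` is a reduced
equation, and the initial form of `F` at `p` is squarefree; `F(p) ≠ 0` is allowed), and the
multiplicity `M` of `f` at `p` is not `d/3`. -/
def OrdAt (f : MvPolynomial (Fin 3) ℂ) (d : ℕ) (p : Fin 3 → ℂ) : Prop :=
  (∃ (F : MvPolynomial (Fin 3) ℂ) (k μ : ℕ), Squarefree F ∧ F ∣ f ∧ f ∣ F ^ k ∧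
    (∀ j < μ, homogeneousComponent j (translate p F) = 0) ∧
    Squarefree (homogeneousComponent μ (translate p F))) ∧
  ∃ M : ℕ, (∀ j < M, homogeneousComponent j (translate p f) = 0) ∧
    homogeneousComponent M (translate p f) ≠ 0 ∧ 3 * M ≠ d

/-- There are three points, not on a line, where the reduced curve of `f` has ordinary multiple
points and the multiplicity of `f` is not `d/3`, such that the curve is quasi-homogeneous at all
other points. -/
def ThreeOrd (f : MvPolynomial (Fin 3) ℂ) (d : ℕ) : Prop :=
  ∃ p : Fin 3 → Fin 3 → ℂ, LinearIndependent ℂ p ∧ (∀ i, OrdAt f d (p i)) ∧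
    ∀ q, (∀ i (c : ℂ), q ≠ c • p i) → eval q f = 0 → IsWHAt f q

end MPb07157
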