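import Pool.Agent.Lib.MP_b07157_agB.La

/-!
# The germs at the coordinate points
-/

noncomputable section

namespace MPb07157.OB

open MvPolynomial

variable {f : MvPolynomial (Fin 3) ℂ} {d : ℕ}

namespace OrdAux

/-- The weight of an exponent. -/
def wN (i : Fin 3) (m : Fin 3 →₀ ℕ) : ℕ := m (i + 1) + m (i + 2)

theorem degree_eq (i : Fin 3) (m : Fin 3 →₀ ℕ) : m.degree = m i + wN i m := by
  rw [Finsupp.degree_eq_sum, sum3 i, wN, add_assoc]

theorem wt_toZ (i : Fin 3) (m : Fin 3 →₀ ℕ) : wt i (toZ m) = (wN i m : ℤ) := by
  rw [wt_apply, wN]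
  simp [toZ]

/-- Change the exponent of `x_i`. -/
def up (i : Fin 3) (m : Fin 3 →₀ ℕ) (k : ℕ) : Fin 3 →₀ ℕ := m.update i k

theorem up_same (i : Fin 3) (m : Fin 3 →₀ ℕ) (k : ℕ) : up i m k i = k := by
  simp [up]

theorem up_ne {i j : Fin 3} (h : j ≠ i) (m : Fin 3 →₀ ℕ) (k : ℕ) : up i m k j = m j := by
  simp [up, Function.update_of_ne h]

theorem wN_up (i : Fin 3) (m : Fin 3 →₀ ℕ) (k : ℕ) : wN i (up i m k) = wN i m := by
  rw [wN, wN, up_ne (f3n1 i), up_ne (f3n2 i)]

theorem ext3 (i : Fin 3) {m m' : Fin 3 →₀ ℕ} (h0 : m i = m' i) (h1 : m (i + 1) = m' (i + 1))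
    (h2 : m (i + 2) = m' (i + 2)) : m = m' := by
  ext j
  rcases f3cases i j with rfl | rfl | rfl
  · exact h0
  · exact h1
  · exact h2

theorem up_eq {i : Fin 3} {m : Fin 3 →₀ ℕ} {k : ℕ} (h : m i = k) : up i m k = m := by
  apply ext3 i
  · rw [up_same, h]
  · rw [up_ne (f3n1 i)]
  · rw [up_ne (f3n2 i)]

theorem up_up (i : Fin 3) (m : Fin 3 →₀ ℕ) (k l : ℕ) : up i (up i m k) l = up i m l := by
  apply ext3 i
  · rw [up_same, up_same]
  · rw [up_ne (f3n1 i), up_ne (f3n1 i), up_ne (f3n1 i)]
  · rw [up_ne (f3n2 i), up_ne (f3n2 i), up_ne (f3n2 i)]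

theorem translate_monomial (i : Fin 3) (m : Fin 3 →₀ ℕ) (c : ℂ) :
    translate (Pi.single i (1 : ℂ)) (monomial m c) =
      ∑ r ∈ Finset.range (m i + 1), monomial (up i m r) (c * ((m i).choose r : ℂ)) := by
  unfold translate
  rw [aeval_monomial, Finsupp.prod_fintype _ _ (fun i => pow_zero _)]
  have h3 : ∀ g : Fin 3 → MvPolynomial (Fin 3) ℂ, ∏ j, g j = g i * g (i + 1) * g (i + 2) := by
    intro g
    rw [Fin.prod_univ_three]
    fin_cases i
    · rfl
    · show g 0 * g 1 * g 2 = g 1 * g 2 * g 0
      ring
    · show g 0 * g 1 * g 2 = g 2 * g 0 * g 1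
      ring
  rw [h3]
  have e1 : (Pi.single i (1 : ℂ) : Fin 3 → ℂ) (i + 1) = 0 := by simp
  have e2 : (Pi.single i (1 : ℂ) : Fin 3 → ℂ) (i + 2) = 0 := by simp
  rw [e1, e2, Pi.single_eq_same, map_zero, add_zero, add_zero, map_one, add_pow, Finset.sum_mul,
    Finset.sum_mul, Finset.mul_sum]
  refine Finset.sum_congr rfl fun r _ => ?_
  have e3 : ∀ (j : Fin 3) (k : ℕ), (X j : MvPolynomial (Fin 3) ℂ) ^ k =
      monomial (Finsupp.single j k) 1 := fun j k => by rw [X_pow_eq_monomial]
  rw [e3, e3, e3, one_pow, mul_one, ← map_natCast (C : ℂ →+* MvPolynomial (Fin 3) ℂ),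
    MvPolynomial.algebraMap_eq]
  rw [show (C c : MvPolynomial (Fin 3) ℂ) * (monomial (Finsupp.single i r) 1 *
      C (((m i).choose r : ℕ) : ℂ) * monomial (Finsupp.single (i + 1) (m (i + 1))) 1 *
      monomial (Finsupp.single (i + 2) (m (i + 2))) 1) =
      C c * (C (((m i).choose r : ℕ) : ℂ) * (monomial (Finsupp.single i r) 1 *
      (monomial (Finsupp.single (i + 1) (m (i + 1))) 1 *
      monomial (Finsupp.single (i + 2) (m (i + 2))) 1))) by ring]
  rw [monomial_mul, monomial_mul, C_mul_monomial, C_mul_monomial]
  congr 1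
  · congr 1
    apply ext3 i
    · simp [up_same]
    · rw [up_ne (f3n1 i)]
      simp
    · rw [up_ne (f3n2 i)]
      simp
  · rw [one_mul, one_mul, mul_one]

/-- The coefficients of the translate of a monomial. -/
theorem coeff_translate_monomial (i : Fin 3) (m m' : Fin 3 →₀ ℕ) (c : ℂ) :
    coeff m' (translate (Pi.single i (1 : ℂ)) (monomial m c)) =
      if up i m (m' i) = m' then c * ((m i).choose (m' i) : ℂ) else 0 := by
  classical
  rw [translate_monomial, coeff_sum]
  simp only [coeff_monomial]
  by_cases h : up i m (m' i) = m'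
  · rw [if_pos h]
    by_cases h1 : m' i ∈ Finset.range (m i + 1)
    · rw [Finset.sum_eq_single_of_mem (m' i) h1, if_pos h]
      intro r _ hr
      rw [if_neg]
      intro h2
      apply hr
      rw [← h2, up_same]
    · rw [Finset.mem_range, not_lt] at h1
      rw [Nat.choose_eq_zero_of_lt (by omega), Nat.cast_zero, mul_zero]
      apply Finset.sum_eq_zero
      intro r hr
      rw [Finset.mem_range] at hr
      rw [if_neg]
      intro h2
      have : r = m' i := by rw [← h2, up_same]
      omega
  · rw [if_neg h]
    apply Finset.sum_eq_zero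
    intro r _
    rw [if_neg]
    intro h2
    apply h
    have : r = m' i := by rw [← h2, up_same]
    rw [← this, h2]

/-- The coefficients of the translate of a form. -/
theorem coeff_translate (hf : f.IsHomogeneous d) (i : Fin 3) (m' : Fin 3 →₀ ℕ) :
    coeff m' (translate (Pi.single i (1 : ℂ)) f) =
      if wN i m' ≤ d then coeff (up i m' (d - wN i m')) f *
        ((d - wN i m').choose (m' i) : ℂ) else 0 := by
  classical
  have e : translate (Pi.single i (1 : ℂ)) f =
      ∑ m ∈ f.support, translate (Pi.single i (1 : ℂ)) (monomial m (coeff m f)) := by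
    conv_lhs => rw [f.as_sum]
    unfold translate
    rw [map_sum]
  rw [e, coeff_sum]
  simp only [coeff_translate_monomial]
  have key : ∀ m ∈ f.support, up i m (m' i) = m' → m = up i m' (d - wN i m') ∧ wN i m' ≤ d := by
    intro m hm h1
    have h2 : m.degree = d := by
      by_contra hcon
      exact (mem_support_iff.1 hm) (hf.coeff_eq_zero hcon)
    have h3 : wN i m' = wN i m := by rw [← h1, wN_up]
    rw [degree_eq i] at h2
    refine ⟨?_, by omega⟩
    rw [h3, ← h1, up_up, up_eq]
    omega
  by_cases h : wN i m' ≤ d
  · rw [if_pos h]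
    have hup : up i (up i m' (d - wN i m')) (m' i) = m' := by rw [up_up, up_eq rfl]
    by_cases h1 : up i m' (d - wN i m') ∈ f.support
    · rw [Finset.sum_eq_single_of_mem _ h1, if_pos hup, up_same]
      intro m hm hne
      rw [if_neg]
      intro h2
      exact hne (key m hm h2).1
    · rw [notMem_support_iff.1 h1, zero_mul]
      apply Finset.sum_eq_zero
      intro m hm
      rw [if_neg]
      intro h2
      apply h1
      rw [← (key m hm h2).1]
      exact hm
  · rw [if_neg h]
    apply Finset.sum_eq_zero
    intro m hm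
    rw [if_neg]
    intro h2
    exact h (key m hm h2).2

theorem ge_iff_coeff (i : Fin 3) (M : ℕ) :
    Ge (wt i) M (io f) ↔ ∀ m, coeff m f ≠ 0 → M ≤ wN i m := by
  constructor
  · intro h m hm
    have := h (toZ m) (by rwa [cf_io])
    rw [wt_toZ] at this
    exact_mod_cast this
  · intro h m hm
    by_cases h1 : ∀ j, 0 ≤ m j
    · obtain ⟨m', rfl⟩ : ∃ m', m = toZ m' := by
        refine ⟨Finsupp.equivFunOnFinite.symm fun j => (m j).toNat, ?_⟩
        funext j
        simp [toZ, h1 j]
      rw [cf_io] at hm
      rw [wt_toZ]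
      exact_mod_cast h m' hm
    · push Not at h1
      obtain ⟨j, hj⟩ := h1
      exact absurd (cf_io_neg hj f) hm

/-- The nonvanishing coefficients of the translate. -/
theorem of_coeff_ne (hf : f.IsHomogeneous d) {i : Fin 3} {M : ℕ}
    (hM : Ge (wt i) M (io f)) {m' : Fin 3 →₀ ℕ}
    (h : coeff m' (translate (Pi.single i (1 : ℂ)) f) ≠ 0) : M ≤ wN i m' := by
  rw [coeff_translate hf] at h
  by_cases h1 : wN i m' ≤ d
  · rw [if_pos h1] at h
    have := (ge_iff_coeff i M).1 hM _ (left_ne_zero_of_mul h)
    rwa [wN_up] at this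
  · rw [if_neg h1] at h
    exact absurd rfl h

end OrdAux

open OrdAux

theorem ge_iff (hf : f.IsHomogeneous d) (i : Fin 3) (M : ℕ) :
    Ge (wt i) M (io f) ↔
      ∀ j < M, homogeneousComponent j (translate (Pi.single i (1 : ℂ)) f) = 0 := by
  constructor
  · intro h j hj
    ext m'
    rw [coeff_homogeneousComponent, coeff_zero]
    split_ifs with h1
    · by_contra hcon
      have h2 := of_coeff_ne hf h hcon
      rw [degree_eq i] at h1
      omega
    · rfl
  · intro h
    rw [ge_iff_coeff]
    intro m hm
    by_contra hcon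
    push Not at hcon
    have h2 : m.degree = d := by
      by_contra hcon2
      exact hm (hf.coeff_eq_zero hcon2)
    have h3 : (up i m 0).degree = wN i m := by
      rw [degree_eq i, up_same, wN_up, zero_add]
    have h4 := congrArg (coeff (up i m 0)) (h _ hcon)
    rw [coeff_homogeneousComponent, if_pos h3, coeff_zero, coeff_translate hf, wN_up, up_same,
      Nat.choose_zero_right, up_up, Nat.cast_one, mul_one] at h4
    rw [degree_eq i] at h2
    rw [if_pos (by omega), up_eq (by omega)] at h4
    exact hm h4

theorem gc_eq (hf : f.IsHomogeneous d) (i : Fin 3) {M : ℕ} (hM : Ge (wt i) M (io f)) :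
    gc (wt i) M (io f) =
      io (X i ^ (d - M) * homogeneousComponent M (translate (Pi.single i (1 : ℂ)) f)) := by
  classical
  apply La.ext'
  intro m
  by_cases h1 : ∀ j, 0 ≤ m j
  · obtain ⟨m', rfl⟩ : ∃ m', m = toZ m' := by
      refine ⟨Finsupp.equivFunOnFinite.symm fun j => (m j).toNat, ?_⟩
      funext j
      simp [toZ, h1 j]
    rw [cf_io, X_pow_eq_monomial, coeff_monomial_mul', one_mul]
    by_cases h2 : wN i m' = M
    · rw [cf_gc_of_eq (by rw [wt_toZ, h2]), cf_io]
      by_cases h3 : coeff m' f = 0
      · rw [h3]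
        split_ifs with h4
        · rw [coeff_homogeneousComponent]
          split_ifs with h5
          · rw [coeff_translate hf]
            split_ifs with h6
            · have h7 : wN i (m' - Finsupp.single i (d - M)) = wN i m' := by
                unfold wN
                simp
              rw [h7, h2]
              rw [degree_eq i, h7, h2] at h5
              have h8 : (Finsupp.single i (d - M)) i ≤ m' i := h4 i
              rw [Finsupp.single_eq_same] at h8
              have h9 : (m' - Finsupp.single i (d - M)) i = m' i - (d - M) := by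
                simp
              have h10 : up i (m' - Finsupp.single i (d - M)) (d - M) = m' := by
                apply ext3 i
                · rw [up_same]
                  omega
                · rw [up_ne (f3n1 i)]
                  simp
                · rw [up_ne (f3n2 i)]
                  simp
              rw [h10, h3, zero_mul]
            · rfl
          · rfl
        · rfl
      · have h4 : m'.degree = d := by
          by_contra hcon
          exact h3 (hf.coeff_eq_zero hcon)
        rw [degree_eq i, h2] at h4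
        have h5 : Finsupp.single i (d - M) ≤ m' := by
          intro j
          by_cases hj : j = i
          · subst hj
            rw [Finsupp.single_eq_same]
            omega
          · rw [Finsupp.single_apply, if_neg (Ne.symm hj)]
            exact Nat.zero_le _
        have h6 : m' - Finsupp.single i (d - M) = up i m' 0 := by
          apply ext3 i
          · rw [up_same, Finsupp.tsub_apply, Finsupp.single_eq_same]
            omega
          · rw [up_ne (f3n1 i)]
            simp
          · rw [up_ne (f3n2 i)]
            simp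
        rw [if_pos h5, h6, coeff_homogeneousComponent, if_pos (by
          rw [degree_eq i, up_same, wN_up, h2, zero_add]), coeff_translate hf, wN_up, h2,
          if_pos (by omega), up_up, up_same, Nat.choose_zero_right, Nat.cast_one, mul_one,
          up_eq (by omega)]
    · rw [cf_gc_of_ne (by rw [wt_toZ]; exact_mod_cast h2)]
      split_ifs with h4
      · rw [coeff_homogeneousComponent]
        split_ifs with h5
        · by_contra hcon
          have h6 := of_coeff_ne hf hM (Ne.symm hcon)
          rw [degree_eq i] at h5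
          have h7 : wN i (m' - Finsupp.single i (d - M)) = wN i m' := by
            unfold wN
            simp
          rw [h7] at h5 h6
          omega
        · rfl
      · rfl
  · push Not at h1
    obtain ⟨j, hj⟩ := h1
    rw [cf_io_neg hj]
    by_cases h2 : wt i m = M
    · rw [cf_gc_of_eq h2, cf_io_neg hj]
    · rw [cf_gc_of_ne h2]

/-- The variable `x_i` does not occur in the lowest part. -/
theorem degreeOf_low (hf : f.IsHomogeneous d) (i : Fin 3) {M : ℕ} (hM : Ge (wt i) M (io f)) :
    degreeOf i (homogeneousComponent M (translate (Pi.single i (1 : ℂ)) f)) = 0 := by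
  classical
  rw [← Nat.le_zero, degreeOf_le_iff]
  intro m hm
  rw [mem_support_iff, coeff_homogeneousComponent] at hm
  split_ifs at hm with h1
  · have h2 := of_coeff_ne hf hM hm
    rw [degree_eq i] at h1
    omega
  · exact absurd rfl hm

end MPb07157.OB
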