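import Pool.Agent.Lib.MP_b07157_agB.La

/-!
# Coprimality of the lowest parts at an ordinary multiple point
-/

noncomputable section

namespace MPb07157.OB

open MvPolynomial

namespace OrdB

/-- A polynomial whose derivative is a multiple of itself has derivative zero. -/
theorem pderiv_eq_zero_of_dvd {q : MvPolynomial (Fin 3) ℂ} {j : Fin 3} (h : q ∣ pderiv j q) :
    pderiv j q = 0 := by
  by_contra hne
  have h1 : totalDegree q ≤ totalDegree (pderiv j q) := totalDegree_le_of_dvd_of_isDomain h hne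
  have h2 : totalDegree (pderiv j q) ≤ totalDegree q - 1 := by
    rw [totalDegree, totalDegree]
    apply Finset.sup_le
    intro m hm
    have h3 : m + Finsupp.single j 1 ∈ q.support := by
      rw [mem_support_iff] at hm ⊢
      intro h4
      apply hm
      rw [coeff_pderiv, h4, zero_mul]
    have h4 := Finset.le_sup (f := fun s : Fin 3 →₀ ℕ => s.sum fun _ e => e) h3
    have h5 : ((m + Finsupp.single j 1 : Fin 3 →₀ ℕ).sum fun _ e => e) =
        (m.sum fun _ e => e) + 1 := by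
      rw [Finsupp.sum_add_index' (fun _ => rfl) (fun _ _ _ => rfl)]
      simp
    rw [h5] at h4
    omega
  have h3 : totalDegree q = 0 := by omega
  rw [totalDegree_eq_zero_iff_eq_C] at h3
  apply hne
  rw [h3, pderiv_C]

/-- A polynomial without variables. -/
theorem eq_C_of_pderiv {q : MvPolynomial (Fin 3) ℂ} {i : Fin 3} (h0 : degreeOf i q = 0)
    (h1 : pderiv (i + 1) q = 0) (h2 : pderiv (i + 2) q = 0) : ∃ c, q = C c := by
  refine ⟨coeff 0 q, ?_⟩
  ext m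
  rw [coeff_C]
  by_cases hm : (0 : Fin 3 →₀ ℕ) = m
  · rw [if_pos hm, hm]
  · rw [if_neg hm]
    by_contra hcon
    have key : ∀ j, pderiv j q = 0 → m j = 0 := by
      intro j hj
      by_contra hmj
      have h3 := congrArg (coeff (m - Finsupp.single j 1)) hj
      rw [coeff_pderiv, coeff_zero, tsub_add_cancel_of_le
        (Finsupp.single_le_iff.2 (Nat.one_le_iff_ne_zero.2 hmj)), mul_eq_zero] at h3
      rcases h3 with h3 | h3
      · exact hcon h3
      · exact Nat.cast_add_one_ne_zero ((m - Finsupp.single j 1 : Fin 3 →₀ ℕ) j) h3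
    apply hm
    ext j
    rw [Finsupp.coe_zero, Pi.zero_apply]
    symm
    rcases f3cases i j with rfl | rfl | rfl
    · have h3 := monomial_le_degreeOf j (mem_support_iff.2 hcon)
      omega
    · exact key _ h1
    · exact key _ h2

theorem step {q f₀ F₀ H a : MvPolynomial (Fin 3) ℂ} {j : Fin 3} (hf : f₀ ≠ 0) (hq : Prime q)
    (hF : F₀ = q * H) (hH : ¬ q ∣ H) (hFf : F₀ ∣ f₀) (ha : F₀ * pderiv j f₀ = f₀ * a)
    (hqa : q ∣ a) : pderiv j q = 0 := by
  have hfin : FiniteMultiplicity q f₀ := FiniteMultiplicity.of_prime_left hq hf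
  obtain ⟨h, hh, hqh⟩ := hfin.exists_eq_pow_mul_and_not_dvd
  set e := multiplicity q f₀ with he
  have he0 : e ≠ 0 := by
    intro h0
    rw [h0, pow_zero, one_mul] at hh
    apply hqh
    rw [← hh]
    exact (Dvd.intro H hF.symm).trans hFf
  obtain ⟨k, hk⟩ := Nat.exists_eq_succ_of_ne_zero he0
  have h1 : pderiv j f₀ = q ^ k * ((e : MvPolynomial (Fin 3) ℂ) * pderiv j q * h + q * pderiv j h) := by
    rw [hh, Derivation.leibniz, Derivation.leibniz_pow, hk, Nat.succ_sub_one, smul_eq_mul,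
      smul_eq_mul, smul_eq_mul, nsmul_eq_mul, Nat.succ_eq_add_one, pow_succ]
    ring
  have h2 : q ^ (k + 1) * (H * ((e : MvPolynomial (Fin 3) ℂ) * pderiv j q * h + q * pderiv j h)) =
      q ^ (k + 1) * (h * a) := by
    have h3 : f₀ = q ^ (k + 1) * h := by rw [hh, hk]
    calc q ^ (k + 1) * (H * ((e : MvPolynomial (Fin 3) ℂ) * pderiv j q * h + q * pderiv j h))
        = (q * H) * (q ^ k * ((e : MvPolynomial (Fin 3) ℂ) * pderiv j q * h + q * pderiv j h)) := by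
          ring
      _ = f₀ * a := by rw [← h1, ← hF, ha]
      _ = _ := by rw [h3]; ring
  have h3 := mul_left_cancel₀ (pow_ne_zero (k + 1) hq.ne_zero) h2
  have h4 : q ∣ H * ((e : MvPolynomial (Fin 3) ℂ) * pderiv j q * h + q * pderiv j h) := by
    rw [h3]
    exact Dvd.dvd.mul_left hqa h
  have h5 := (hq.dvd_or_dvd h4).resolve_left hH
  rw [dvd_add_left (dvd_mul_right q _)] at h5
  have h6 := (hq.dvd_or_dvd h5).resolve_right hqh
  have h7 : ¬ q ∣ (e : MvPolynomial (Fin 3) ℂ) := by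
    intro h8
    apply hq.not_isUnit
    apply isUnit_of_dvd_unit h8
    have : (e : MvPolynomial (Fin 3) ℂ) = C (e : ℂ) := by simp
    rw [this]
    exact (IsUnit.mk0 (e : ℂ) (by exact_mod_cast he0)).map C
  exact pderiv_eq_zero_of_dvd ((hq.dvd_or_dvd h6).resolve_left h7)

/-- A common prime factor of `F₀`, `a` and `b` divides `x_i`. -/
theorem prime_dvd {i : Fin 3} {f₀ F₀ F₁ R₀ a b : MvPolynomial (Fin 3) ℂ} (hf : f₀ ≠ 0)
    (hR : f₀ = F₀ * R₀) {r : ℕ} (hF : F₀ = X i ^ r * F₁) (hs : Squarefree F₁)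
    (hd : degreeOf i F₁ = 0) (ha : F₀ * pderiv (i + 1) f₀ = f₀ * a)
    (hb : F₀ * pderiv (i + 2) f₀ = f₀ * b) {q : MvPolynomial (Fin 3) ℂ} (hq : Prime q)
    (h1 : q ∣ F₀) (h2 : q ∣ a) (h3 : q ∣ b) : q ∣ X i := by
  by_contra hqi
  have hF₁0 : F₁ ≠ 0 := by
    rintro rfl
    rw [hR, hF] at hf
    simp at hf
  have h4 : q ∣ F₁ := by
    rw [hF] at h1
    rcases hq.dvd_or_dvd h1 with h5 | h5
    · exact absurd (hq.dvd_of_dvd_pow h5) hqi
    · exact h5
  obtain ⟨H, hH⟩ := h4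
  have hqH : ¬ q ∣ H := by
    rintro ⟨H', rfl⟩
    apply hq.not_isUnit
    apply hs q
    rw [hH]
    exact ⟨H', by ring⟩
  have hqH' : ¬ q ∣ X i ^ r * H := by
    intro h5
    rcases hq.dvd_or_dvd h5 with h5 | h5
    · exact hqi (hq.dvd_of_dvd_pow h5)
    · exact hqH h5
  have hF' : F₀ = q * (X i ^ r * H) := by rw [hF, hH]; ring
  have hFf : F₀ ∣ f₀ := ⟨R₀, hR⟩
  have e1 := step hf hq hF' hqH' hFf ha h2
  have e2 := step hf hq hF' hqH' hFf hb h3
  have e3 : degreeOf i q = 0 := by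
    have h5 := degreeOf_mul_eq (n := i) hq.ne_zero (q := H) (by
      rintro rfl
      rw [mul_zero] at hH
      exact hF₁0 hH)
    rw [← hH, hd] at h5
    omega
  obtain ⟨c, hc⟩ := eq_C_of_pderiv e3 e1 e2
  apply hq.not_isUnit
  rw [hc]
  apply (IsUnit.mk0 c _).map C
  rintro rfl
  apply hq.ne_zero
  rw [hc, map_zero]

/-- The greatest common divisor is a power of `x_i`. -/
theorem exists_pow {i : Fin 3} (g : MvPolynomial (Fin 3) ℂ) (hg : g ≠ 0)
    (h : ∀ q, Prime q → q ∣ g → q ∣ X i) : ∃ s : ℕ, g ∣ X i ^ s := by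
  induction g using UniqueFactorizationMonoid.induction_on_prime with
  | h₁ => exact absurd rfl hg
  | h₂ x hx => exact ⟨0, by rw [pow_zero]; exact hx.dvd⟩
  | h₃ a p ha hp ih =>
    obtain ⟨s, hs⟩ := ih ha fun q hq hqa => h q hq (Dvd.dvd.mul_left hqa p)
    refine ⟨s + 1, ?_⟩
    rw [pow_succ']
    exact mul_dvd_mul (h p hp (dvd_mul_right p a)) hs

theorem dvd_of {i : Fin 3} {f₀ F₀ F₁ R₀ a b : MvPolynomial (Fin 3) ℂ} (hf : f₀ ≠ 0)
    (hR : f₀ = F₀ * R₀) {r : ℕ} (hF : F₀ = X i ^ r * F₁) (hs : Squarefree F₁)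
    (hd : degreeOf i F₁ = 0) (ha : F₀ * pderiv (i + 1) f₀ = f₀ * a)
    (hb : F₀ * pderiv (i + 2) f₀ = f₀ * b) : ∃ s : ℕ, ∀ δ : MvPolynomial (Fin 3) ℂ,
      F₀ ∣ a * δ → F₀ ∣ b * δ → F₀ ∣ X i ^ s * δ := by
  classical
  let _ : GCDMonoid (MvPolynomial (Fin 3) ℂ) :=
    UniqueFactorizationMonoid.toGCDMonoid _
  have hF0 : F₀ ≠ 0 := by
    rintro rfl
    rw [zero_mul] at hR
    exact hf hR
  obtain ⟨s, hs'⟩ := exists_pow (i := i) (gcd F₀ (gcd a b)) (by
    intro h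
    exact hF0 ((gcd_eq_zero_iff _ _).1 h).1) (by
    intro q hq hqg
    exact prime_dvd hf hR hF hs hd ha hb hq (hqg.trans (gcd_dvd_left _ _))
      ((hqg.trans (gcd_dvd_right _ _)).trans (gcd_dvd_left _ _))
      ((hqg.trans (gcd_dvd_right _ _)).trans (gcd_dvd_right _ _)))
  refine ⟨s, fun δ h1 h2 => ?_⟩
  have h3 : F₀ ∣ gcd F₀ (gcd a b) * δ := by
    have e1 : F₀ ∣ gcd (F₀ * δ) (gcd a b * δ) := by
      apply dvd_gcd (dvd_mul_right _ _)
      have e2 : F₀ ∣ gcd (a * δ) (b * δ) := dvd_gcd h1 h2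
      exact e2.trans (gcd_mul_right' _ _ _).dvd
    exact e1.trans (gcd_mul_right' _ _ _).dvd
  exact h3.trans (mul_dvd_mul_right hs' δ)

end OrdB

/-- `f₀ = F₀ R₀` and `F₀ = x_i^r F₁`, `F₁` squarefree without the variable `x_i`,
`F₀ ∂_j f₀ = f₀ a_j` for `j ≠ i`. -/
theorem cop_of {i : Fin 3} {f₀ F₀ F₁ R₀ a b : MvPolynomial (Fin 3) ℂ} (hf : f₀ ≠ 0)
    (hR : f₀ = F₀ * R₀) {r : ℕ} (hF : F₀ = X i ^ r * F₁) (hs : Squarefree F₁)
    (hd : degreeOf i F₁ = 0) (ha : F₀ * pderiv (i + 1) f₀ = f₀ * a)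
    (hb : F₀ * pderiv (i + 2) f₀ = f₀ * b) : Cop i (io F₀) (io a) (io b) := by
  obtain ⟨s, hdvd⟩ := OrdB.dvd_of hf hR hF hs hd ha hb
  intro j hji δ hδ ⟨u₁, hu₁, e₁⟩ ⟨u₂, hu₂, e₂⟩
  obtain ⟨N₀, h0⟩ := exists_clear j hδ
  obtain ⟨N₁, h1⟩ := exists_clear j hu₁
  obtain ⟨N₂, h2⟩ := exists_clear j hu₂
  set N := max N₀ (max N₁ N₂) with hN
  obtain ⟨δ', hδ'⟩ := h0 N (le_max_left _ _)
  obtain ⟨v₁, hv₁⟩ := h1 N ((le_max_left _ _).trans (le_max_right _ _))
  obtain ⟨v₂, hv₂⟩ := h2 N ((le_max_right _ _).trans (le_max_right _ _))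
  have c1 : a * δ' = F₀ * v₁ := by
    apply io_injective
    rw [map_mul, map_mul, ← hδ', ← hv₁]
    linear_combination io ((X (j + 1) * X (j + 2)) ^ N) * e₁
  have c2 : b * δ' = F₀ * v₂ := by
    apply io_injective
    rw [map_mul, map_mul, ← hδ', ← hv₂]
    linear_combination io ((X (j + 1) * X (j + 2)) ^ N) * e₂
  obtain ⟨w, hw⟩ := hdvd δ' ⟨v₁, c1⟩ ⟨v₂, c2⟩
  obtain ⟨e, he, he'⟩ := io_XX_isUnit j N
  have hx : io (X i ^ s) * sg (-(s • ex i)) 1 = 1 := by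
    rw [map_pow, io_X, sg_pow, sg_mul_sg, add_neg_cancel, one_pow, one_mul, one_eq_sg]
  refine ⟨e * sg (-(s • ex i)) 1 * io w, (he.mul (Reg.sg ?_ 1)).mul (Reg.io j w), ?_⟩
  · simp [ex_ne hji]
  · have h3 := congrArg io hw
    rw [map_mul, map_mul, ← hδ'] at h3
    calc δ = (io ((X (j + 1) * X (j + 2)) ^ N) * e) * (io (X i ^ s) * sg (-(s • ex i)) 1) * δ := by
          rw [he', hx, one_mul, one_mul]
      _ = (io (X i ^ s) * (io ((X (j + 1) * X (j + 2)) ^ N) * δ)) * (e * sg (-(s • ex i)) 1) := by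
          ring
      _ = _ := by rw [h3]; ring

end MPb07157.OB
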