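import Pool.Agent.Lib.MP_b07157_agB.LocN
import Pool.Agent.Lib.MP_b07157_agB.OrdA
import Pool.Agent.Lib.MP_b07157_agB.OrdB
import Pool.Agent.Lib.MP_b07157_agB.ODefs

/-!
# The data at the coordinate points
-/

noncomputable section

namespace MPb07157.OB

open MvPolynomial MPb07157Q

variable {f P : MvPolynomial (Fin 3) ℂ} {v : Fin 3 → MvPolynomial (Fin 3) ℂ} {d n : ℕ}

theorem exists_pol (l : (Fin 3 → ℤ) →+ ℤ) (k : ℤ) (p : MvPolynomial (Fin 3) ℂ) :
    ∃ q, gc l k (io p) = io q := exists_io fun i => Ge.gc (Reg.io i p) l k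

theorem dat_of_isFact {r : ℕ} {g : Fin r → MvPolynomial (Fin 3) ℂ} {m : Fin r → ℕ}
    (hf : IsFact f g m) (hd : 0 < d) (hh : f.IsHomogeneous d) :
    ∃ n, Dat f (∏ j, g j) (vv g m) d n := by
  choose e he hg using hf.exists_degree hh
  have hr := hf.pos_card hd hh
  refine ⟨∑ j, e j, ?_⟩
  exact
    { f0 := hf.ne_zero
      P0 := Finset.prod_ne_zero_iff.2 fun i _ => (hf.irr i).ne_zero
      hd := hd
      hn := Finset.sum_pos (fun j _ => he j) ⟨⟨0, hr⟩, Finset.mem_univ _⟩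
      hf := hh
      hP := IsHomogeneous.prod _ _ _ fun j _ => hg j
      hv := vv_isHomogeneous he hg
      rel := fun i => by
        have := prod_mul_pderiv g m i
        rwa [← hf.eq] at this
      prim := fun q hq => vv_coprime hf hd hh hq }

/-- A reduced equation is a constant times the product of the irreducible factors. -/
theorem eq_of_squarefree {r : ℕ} {g : Fin r → MvPolynomial (Fin 3) ℂ} {m : Fin r → ℕ}
    (hf : IsFact f g m) {F : MvPolynomial (Fin 3) ℂ} {k : ℕ} (hs : Squarefree F) (h1 : F ∣ f)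
    (h2 : f ∣ F ^ k) : ∃ c : ℂ, c ≠ 0 ∧ F = C c * ∏ j, g j := by
  classical
  have hgF : ∀ j, g j ∣ F := by
    intro j
    have h3 : g j ∣ f := by
      rw [hf.eq]
      exact (dvd_pow_self _ (hf.pos j).ne').trans (Finset.dvd_prod_of_mem _ (Finset.mem_univ j))
    exact (hf.irr j).prime.dvd_of_dvd_pow (h3.trans h2)
  have hP : ∏ j, g j ∣ F := by
    have : ∀ s : Finset (Fin r), ∏ j ∈ s, g j ∣ F := by
      intro s
      induction s using Finset.induction_on with
      | empty => simp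
      | insert a s ha ih =>
        rw [Finset.prod_insert ha]
        refine IsRelPrime.mul_dvd ?_ (hgF a) ih
        rw [(hf.irr a).isRelPrime_iff_not_dvd]
        intro hcon
        obtain ⟨j, hj, hj2⟩ := (Prime.dvd_finset_prod_iff (hf.irr a).prime _).1 hcon
        have : a ≠ j := fun h => ha (h ▸ hj)
        exact hf.ne a j this ((hf.irr a).associated_of_dvd (hf.irr j) hj2)
    exact this _
  obtain ⟨R, hR⟩ := hP
  have hRu : IsUnit R := by
    by_contra hcon
    have hF0 : F ≠ 0 := hs.ne_zero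
    have hR0 : R ≠ 0 := by
      rintro rfl
      rw [mul_zero] at hR
      exact hF0 hR
    obtain ⟨q, hq, hq2⟩ := WfDvdMonoid.exists_irreducible_factor hcon hR0
    have h3 : q ∣ f := (hq2.trans (Dvd.intro_left _ hR.symm)).trans h1
    rw [hf.eq] at h3
    unfold prodPow at h3
    obtain ⟨j, -, hj2⟩ := (Prime.dvd_finset_prod_iff hq.prime _).1 h3
    have h4 : Associated q (g j) := hq.associated_of_dvd (hf.irr j) (hq.prime.dvd_of_dvd_pow hj2)
    have h5 : q * q ∣ F := by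
      rw [hR]
      refine mul_dvd_mul ?_ hq2
      exact h4.dvd.trans (Finset.dvd_prod_of_mem _ (Finset.mem_univ j))
    exact hq.not_isUnit (hs q h5)
  rw [MvPolynomial.isUnit_iff_eq_C_of_isReduced] at hRu
  obtain ⟨c, hc, hc2⟩ := hRu
  refine ⟨c, hc.ne_zero, ?_⟩
  rw [hR, hc2]
  ring

theorem ge_v0 (h : Dat f P v d n) {i : Fin 3} {M μ : ℕ} (f1 : Ge (wt i) M (io f))
    (f2 : gc (wt i) M (io f) ≠ 0) (P1 : Ge (wt i) μ (io P)) (j : Fin 3) :
    Ge (wt i) ((μ : ℤ) - wt i (ex j)) (io (v j)) := by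
  obtain ⟨s, hs⟩ := exists_ge (wt i) (io (v j))
  apply ge_of_mul f1 f2 hs
  rw [← LocN.relL h j]
  exact (P1.mul (f1.D j)).mono (by omega)

theorem low_rel0 (h : Dat f P v d n) {i : Fin 3} {M μ : ℕ} (f1 : Ge (wt i) M (io f))
    (f2 : gc (wt i) M (io f) ≠ 0) (P1 : Ge (wt i) μ (io P)) (j : Fin 3) :
    gc (wt i) μ (io P) * D j (gc (wt i) M (io f)) =
      gc (wt i) M (io f) * gc (wt i) ((μ : ℤ) - wt i (ex j)) (io (v j)) := by
  rw [← gc_D, ← gc_mul_low P1 (f1.D j), ← gc_mul_low f1 (ge_v0 h f1 f2 P1 j), LocN.relL h j]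
  congr 1
  congr 1
  ring

theorem translate_C_mul (p : Fin 3 → ℂ) (c : ℂ) (f : MvPolynomial (Fin 3) ℂ) :
    translate p (C c * f) = C c * translate p f := by
  unfold translate
  rw [map_mul, aeval_C]
  rfl

theorem squarefree_C_mul {c : ℂ} {f : MvPolynomial (Fin 3) ℂ}
    (h : Squarefree (C c * f)) : Squarefree f := h.squarefree_of_dvd (Dvd.intro_left _ rfl)

/-- The data at a coordinate point. -/
theorem vert_of_ordAt {r : ℕ} {g : Fin r → MvPolynomial (Fin 3) ℂ} {m : Fin r → ℕ}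
    (hf : IsFact f g m) (h : Dat f (∏ j, g j) (vv g m) d n) {i : Fin 3}
    (ho : OrdAt f d (Pi.single i 1)) :
    ∃ M μ : ℕ, Vert f (∏ j, g j) (vv g m) i M μ ∧ 3 * M ≠ d := by
  classical
  obtain ⟨⟨F, k, μ, hs, h1, h2, h3, h4⟩, M, h5, h6, h7⟩ := ho
  obtain ⟨c, hc, hF⟩ := eq_of_squarefree hf hs h1 h2
  set P := ∏ j, g j with hP
  have h3' : ∀ j < μ, homogeneousComponent j (translate (Pi.single i (1 : ℂ)) P) = 0 := by
    intro j hj
    have := h3 j hj
    rw [hF, translate_C_mul, homogeneousComponent_C_mul] at this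
    exact (mul_eq_zero.1 this).resolve_left (fun h0 => hc (C_eq_zero.1 h0))
  have h4' : Squarefree (homogeneousComponent μ (translate (Pi.single i (1 : ℂ)) P)) := by
    rw [hF, translate_C_mul, homogeneousComponent_C_mul] at h4
    exact squarefree_C_mul h4
  have P1 : Ge (wt i) μ (io P) := (ge_iff h.hP i μ).2 h3'
  have f1 : Ge (wt i) M (io f) := (ge_iff h.hf i M).2 h5
  have P2' := gc_eq h.hP i P1
  have f2' := gc_eq h.hf i f1
  have P2 : gc (wt i) μ (io P) ≠ 0 := by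
    rw [P2']
    exact io_ne_zero (mul_ne_zero (pow_ne_zero _ (X_ne_zero _)) h4'.ne_zero)
  have f2 : gc (wt i) M (io f) ≠ 0 := by
    rw [f2']
    exact io_ne_zero (mul_ne_zero (pow_ne_zero _ (X_ne_zero _)) h6)
  refine ⟨M, μ, ⟨f1, f2, P1, P2, ?_⟩, h7⟩
  -- `f = P R`
  obtain ⟨R, hR⟩ : P ∣ f := by
    rw [hP, hf.eq]
    unfold prodPow
    exact Finset.prod_dvd_prod_of_dvd _ _ fun j _ => dvd_pow_self _ (hf.pos j).ne'
  have hR0 : io R ≠ 0 := by
    apply io_ne_zero
    rintro rfl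
    rw [mul_zero] at hR
    exact h.f0 hR
  obtain ⟨s, R1, R2⟩ := exists_order (wt i) hR0
  have hfR : gc (wt i) (μ + s) (io f) = gc (wt i) μ (io P) * gc (wt i) s (io R) := by
    rw [hR, map_mul, gc_mul_low P1 R1]
  have hfR1 : Ge (wt i) (μ + s) (io f) := by
    rw [hR, map_mul]
    exact P1.mul R1
  have hMs : (M : ℤ) = μ + s := by
    rcases lt_trichotomy (M : ℤ) (μ + s) with hlt | heq | hgt
    · exact absurd (gc_eq_zero_of_lt hfR1 hlt) f2
    · exact heq
    · have := gc_eq_zero_of_lt f1 hgt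
      rw [hfR] at this
      exact absurd this (mul_ne_zero P2 R2)
  obtain ⟨R₀, hR₀⟩ := exists_pol (wt i) s R
  obtain ⟨a, ha⟩ := exists_pol (wt i) ((μ : ℤ) - 1) (vv g m (i + 1))
  obtain ⟨b, hb⟩ := exists_pol (wt i) ((μ : ℤ) - 1) (vv g m (i + 2))
  have l1 := low_rel0 h f1 f2 P1 (i + 1)
  have l2 := low_rel0 h f1 f2 P1 (i + 2)
  rw [wt_ex_one] at l1
  rw [wt_ex_two] at l2
  rw [P2', f2', ha, D_io, ← map_mul, ← map_mul] at l1
  rw [P2', f2', hb, D_io, ← map_mul, ← map_mul] at l2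
  rw [P2', ha, hb]
  have hfR' := hfR
  rw [← hMs, P2', f2', hR₀, ← map_mul] at hfR'
  refine cop_of (mul_ne_zero (pow_ne_zero _ (X_ne_zero _)) h6) (io_injective hfR') rfl h4'
    (degreeOf_low h.hP i P1) (io_injective l1) (io_injective l2)

end MPb07157.OB
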