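import Pool.Agent.Lib.MP_b07157_agB.Main
import Pool.Agent.Lib.MP_b07157_agB.Vt
import Pool.Agent.Lib.MP_b07157_agB.Lin
import Pool.Agent.Lib.MP_b07157_agQ.NSQ
import Pool.Agent.Lib.MP_b07157_agQ.WH
import Pool.Agent.Lib.MP_b07157_agS.SE

/-!
# The root `-3/d` for curves with at most three non-quasi-homogeneous points
-/

noncomputable section

namespace MPb07157

open MvPolynomial MPb07157Q

namespace OB

theorem form_of_bs {f : MvPolynomial (Fin 3) ℂ} {b : Polynomial ℂ} (hb : IsBernsteinSato f b) :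
    InDnForm f 1 (b.map (MvPowerSeries.C (σ := Fin 3) (R := ℂ))) := by
  have h3 := InDn.toForm hb
  rwa [toForm_C] at h3

theorem bs_equiv {f : MvPolynomial (Fin 3) ℂ}
    (e : MvPolynomial (Fin 3) ℂ ≃ₐ[ℂ] MvPolynomial (Fin 3) ℂ) {b : Polynomial ℂ}
    (hb : IsBernsteinSato f b) : IsBernsteinSato (e f) b := by
  have h1 := InDn.equiv e hb
  have h2 : extS e (C b : MvPolynomial (Fin 3) (Polynomial ℂ)) = C b := by
    unfold extS
    rw [aeval_C]
    rfl
  rw [h2] at h1
  exact h1

theorem ne_smul {p : Fin 3 → Fin 3 → ℂ} (hp : LinearIndependent ℂ p) {x : Fin 3 → ℂ} {j k : Fin 3}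
    (hjk : j ≠ k) (hj : x j ≠ 0) (hk : x k ≠ 0) (i : Fin 3) (c : ℂ) :
    ∑ l, x l • p l ≠ c • p i := by
  classical
  intro h
  have h1 : ∑ l, (x l - if l = i then c else 0) • p l = 0 := by
    simp only [sub_smul, Finset.sum_sub_distrib, ite_smul, zero_smul, Finset.sum_ite_eq',
      Finset.mem_univ, if_true, h, sub_self]
  have h2 := Fintype.linearIndependent_iff.1 hp _ h1
  have h3 := h2 j
  have h4 := h2 k
  by_cases hji : j = i
  · rw [if_neg (fun hki => hjk (hji.trans hki.symm)), sub_zero] at h4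
    exact hk h4
  · rw [if_neg hji, sub_zero] at h3
    exact hj h3

end OB

/-- **The root `-3/d`** for curves which are quasi-homogeneous outside three points not on a line,
where they have ordinary multiple points. -/
theorem root_of_threeOrd {f : MvPolynomial (Fin 3) ℂ} (hf : f ≠ 0) {d : ℕ} (hd : 0 < d)
    (hh : f.IsHomogeneous d) (hNS : NS f) (h : ThreeOrd f d) {b : Polynomial ℂ}
    (hb : IsBernsteinSato f b) : b.eval (((-(3 / d) : ℚ)) : ℂ) = 0 := by
  classical
  obtain ⟨p, hp, ho, hq⟩ := h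
  obtain ⟨e, e1, e2, e3, e4, e5⟩ := OB.exists_lin hp
  have hf' : e f ≠ 0 := by
    intro h0
    exact hf (e.injective (by rw [h0, map_zero]))
  obtain ⟨r, g, m, hfact⟩ := exists_isFact hf' hd (e2 f d hh)
  obtain ⟨n, hD⟩ := OB.dat_of_isFact hfact hd (e2 f d hh)
  choose M μ hV using fun i => OB.vert_of_ordAt hfact hD (e5 f d i (ho i))
  refine OB.root3 hD (fun i x h1 h2 h0 => ?_) (fun i => (hV i).1) (fun i => (hV i).2) (e3 f hNS) b
    (OB.form_of_bs (OB.bs_equiv e hb))
  have hne := OB.ne_smul hp (OB.f3n3 i) h1 h2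
  refine e4 f x (qhat_of_isWHAt hd hh ?_ (hq _ hne ?_))
  · have := hne 0 0
    rwa [zero_smul] at this
  · rwa [e1] at h0

/-- The strong monodromy conjecture at `-3/d` for these curves. -/
theorem smc_threeOrd {f : MvPolynomial (Fin 3) ℂ} (hf : f ≠ 0) {d : ℕ} (hd : 0 < d)
    (hh : f.IsHomogeneous d) (h : ThreeOrd f d)
    (hp : IsPole (Zmot f) (-(3 / d)) ∨ IsPole (Zmot0 f) (-(3 / d))) {b : Polynomial ℂ}
    (hb : IsBernsteinSato f b) : b.eval (((-(3 / d) : ℚ)) : ℂ) = 0 := by
  by_cases hNS : NS f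
  · exact root_of_threeOrd hf hd hh hNS h hb
  · have h0 : coeff 0 f = 0 := by
      rw [← MvPolynomial.notMem_support_iff]
      intro h
      have := hh (mem_support_iff.1 h)
      simp at this
      omega
    have hs : (-(3 / d) : ℚ) < 0 := by
      have : (0 : ℚ) < d := by exact_mod_cast hd
      have : (0 : ℚ) < 3 / d := by positivity
      linarith
    obtain ⟨h1, h2⟩ := stable_of_not_NS hf hd hh hNS
    rcases hp with hp | hp
    · exact SmcGlob.of_stableGlob h2 hf _ hs hp b hb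
    · exact SmcLoc.of_stableLoc h1 hf h0 _ hs hp b (OB.form_of_bs hb)

end MPb07157
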