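import Pool.Agent.Lib.MP_b07157_agB.Defs

/-!
# Laurent polynomials in three variables: gradings
-/

noncomputable section

namespace MPb07157.OB

open MvPolynomial

variable {l : (Fin 3 → ℤ) →+ ℤ} {k k' : ℤ} {a b : La} {i j : Fin 3}

theorem sum3 {A : Type*} [AddCommMonoid A] (i : Fin 3) (g : Fin 3 → A) :
    ∑ j, g j = g i + g (i + 1) + g (i + 2) := by
  rw [Fin.sum_univ_three]
  fin_cases i
  · rfl
  · show g 0 + g 1 + g 2 = g 1 + g 2 + g 0
    abel
  · show g 0 + g 1 + g 2 = g 2 + g 0 + g 1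
    abel

theorem f3a (i : Fin 3) : i + 1 + 1 = i + 2 := by fin_cases i <;> rfl

theorem f3b (i : Fin 3) : i + 1 + 2 = i := by fin_cases i <;> rfl

theorem f3c (i : Fin 3) : i + 2 + 1 = i := by fin_cases i <;> rfl

theorem f3d (i : Fin 3) : i + 2 + 2 = i + 1 := by fin_cases i <;> rfl

theorem f3n1 (i : Fin 3) : i + 1 ≠ i := by fin_cases i <;> decide

theorem f3n2 (i : Fin 3) : i + 2 ≠ i := by fin_cases i <;> decide

theorem f3n3 (i : Fin 3) : i + 1 ≠ i + 2 := by fin_cases i <;> decide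

theorem f3cases (i j : Fin 3) : j = i ∨ j = i + 1 ∨ j = i + 2 := by
  fin_cases i <;> fin_cases j <;> decide

theorem td_eq (i : Fin 3) (m : Fin 3 → ℤ) : td m = m i + m (i + 1) + m (i + 2) := by
  rw [td_apply, ← Fin.sum_univ_three m, sum3 i]

theorem wt_ex_self (i : Fin 3) : wt i (ex i) = 0 := by
  rw [wt_apply, ex_ne (f3n1 i), ex_ne (f3n2 i), add_zero]

theorem wt_ex_one (i : Fin 3) : wt i (ex (i + 1)) = 1 := by
  rw [wt_apply, ex_same, ex_ne (f3n3 i).symm, add_zero]

theorem wt_ex_two (i : Fin 3) : wt i (ex (i + 2)) = 1 := by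
  rw [wt_apply, ex_same, ex_ne (f3n3 i), zero_add]

theorem td_ex (i : Fin 3) : td (ex i) = 1 := by
  rw [td_eq i, ex_same, ex_ne (f3n1 i), ex_ne (f3n2 i)]
  norm_num

/-! ### Products -/

theorem exists_of_cf_mul {m : Fin 3 → ℤ} (h : cf m (a * b) ≠ 0) :
    ∃ m₁ m₂, m₁ + m₂ = m ∧ cf m₁ a ≠ 0 ∧ cf m₂ b ≠ 0 := by
  classical
  by_contra hcon
  push Not at hcon
  apply h
  have h1 : cf m (a * b) = a.coeff.sum fun m₁ r₁ => b.coeff.sum fun m₂ r₂ =>
      if m₁ + m₂ = m then r₁ * r₂ else 0 := AddMonoidAlgebra.coeff_mul a b m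
  rw [h1]
  apply Finset.sum_eq_zero
  intro m₁ hm₁
  apply Finset.sum_eq_zero
  intro m₂ _
  dsimp only
  split_ifs with h2
  · have h3 : b.coeff m₂ = 0 := hcon m₁ m₂ h2 (Finsupp.mem_support_iff.1 hm₁)
    rw [h3, mul_zero]
  · rfl

theorem Ge.mono (h : Ge l k a) (hk : k' ≤ k) : Ge l k' a := fun m hm => hk.trans (h m hm)

theorem Ge.zero (l : (Fin 3 → ℤ) →+ ℤ) (k : ℤ) : Ge l k 0 := fun _ hm => absurd (map_zero _) hm

theorem Ge.add (ha : Ge l k a) (hb : Ge l k b) : Ge l k (a + b) := by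
  intro m hm
  by_cases h1 : cf m a = 0
  · apply hb
    rwa [map_add, h1, zero_add] at hm
  · exact ha m h1

theorem Ge.neg (ha : Ge l k a) : Ge l k (-a) := by
  intro m hm
  apply ha
  rwa [map_neg, neg_ne_zero] at hm

theorem Ge.sub (ha : Ge l k a) (hb : Ge l k b) : Ge l k (a - b) := by
  rw [sub_eq_add_neg]
  exact ha.add hb.neg

theorem Ge.sum {ι : Type*} {s : Finset ι} {g : ι → La} (h : ∀ i ∈ s, Ge l k (g i)) :
    Ge l k (∑ i ∈ s, g i) := by
  classical
  induction s using Finset.induction_on with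
  | empty => exact Ge.zero l k
  | insert a s ha ih =>
    rw [Finset.sum_insert ha]
    exact (h a (Finset.mem_insert_self _ _)).add
      (ih fun i hi => h i (Finset.mem_insert_of_mem hi))

theorem Ge.smul (ha : Ge l k a) (c : ℂ) : Ge l k (c • a) := by
  intro m hm
  apply ha
  rw [map_smul, smul_eq_mul] at hm
  exact right_ne_zero_of_mul hm

theorem Ge.mul (ha : Ge l k a) (hb : Ge l k' b) : Ge l (k + k') (a * b) := by
  intro m hm
  obtain ⟨m₁, m₂, rfl, h1, h2⟩ := exists_of_cf_mul hm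
  rw [map_add]
  exact add_le_add (ha _ h1) (hb _ h2)

theorem Ge.D (ha : Ge l k a) (i : Fin 3) : Ge l (k - l (ex i)) (OB.D i a) := by
  intro m hm
  rw [cf_D] at hm
  have := ha _ (right_ne_zero_of_mul hm)
  rw [map_add] at this
  omega

theorem Ge.sg {m : Fin 3 → ℤ} (h : k ≤ l m) (c : ℂ) : Ge l k (OB.sg m c) := by
  intro m' hm'
  rw [cf_sg] at hm'
  by_cases h1 : m = m'
  · rwa [← h1]
  · rw [if_neg h1] at hm'
    exact absurd rfl hm'

theorem Hm.zero (l : (Fin 3 → ℤ) →+ ℤ) (k : ℤ) : Hm l k 0 := fun _ hm => absurd (map_zero _) hm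

theorem Hm.ge (h : Hm l k a) : Ge l k a := fun m hm => (h m hm).ge

theorem Hm.add (ha : Hm l k a) (hb : Hm l k b) : Hm l k (a + b) := by
  intro m hm
  by_cases h1 : cf m a = 0
  · apply hb
    rwa [map_add, h1, zero_add] at hm
  · exact ha m h1

theorem Hm.neg (ha : Hm l k a) : Hm l k (-a) := by
  intro m hm
  apply ha
  rwa [map_neg, neg_ne_zero] at hm

theorem Hm.sub (ha : Hm l k a) (hb : Hm l k b) : Hm l k (a - b) := by
  rw [sub_eq_add_neg]
  exact ha.add hb.neg

theorem Hm.sum {ι : Type*} {s : Finset ι} {g : ι → La} (h : ∀ i ∈ s, Hm l k (g i)) :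
    Hm l k (∑ i ∈ s, g i) := by
  classical
  induction s using Finset.induction_on with
  | empty => exact Hm.zero l k
  | insert a s ha ih =>
    rw [Finset.sum_insert ha]
    exact (h a (Finset.mem_insert_self _ _)).add
      (ih fun i hi => h i (Finset.mem_insert_of_mem hi))

theorem Hm.smul (ha : Hm l k a) (c : ℂ) : Hm l k (c • a) := by
  intro m hm
  apply ha
  rw [map_smul, smul_eq_mul] at hm
  exact right_ne_zero_of_mul hm

theorem Hm.mul (ha : Hm l k a) (hb : Hm l k' b) : Hm l (k + k') (a * b) := by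
  intro m hm
  obtain ⟨m₁, m₂, rfl, h1, h2⟩ := exists_of_cf_mul hm
  rw [map_add, ha _ h1, hb _ h2]

theorem Hm.D (ha : Hm l k a) (i : Fin 3) : Hm l (k - l (ex i)) (OB.D i a) := by
  intro m hm
  rw [cf_D] at hm
  have := ha _ (right_ne_zero_of_mul hm)
  rw [map_add] at this
  omega

theorem Hm.sg {m : Fin 3 → ℤ} (h : l m = k) (c : ℂ) : Hm l k (OB.sg m c) := by
  intro m' hm'
  rw [cf_sg] at hm'
  by_cases h1 : m = m'
  · rwa [← h1]
  · rw [if_neg h1] at hm'
    exact absurd rfl hm'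

theorem Hm.eq_zero (ha : Hm l k a) (ha' : Hm l k' a) (h : k ≠ k') : a = 0 := by
  apply La.ext'
  intro m
  rw [map_zero]
  by_contra hcon
  exact h ((ha m hcon).symm.trans (ha' m hcon))

/-! ### Regular elements -/

theorem Reg.zero (i : Fin 3) : Reg i 0 := Ge.zero _ _

theorem Reg.add (ha : Reg i a) (hb : Reg i b) : Reg i (a + b) := Ge.add ha hb

theorem Reg.sub (ha : Reg i a) (hb : Reg i b) : Reg i (a - b) := Ge.sub ha hb

theorem Reg.neg (ha : Reg i a) : Reg i (-a) := Ge.neg ha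

theorem Reg.smul (ha : Reg i a) (c : ℂ) : Reg i (c • a) := Ge.smul ha c

theorem Reg.sum {ι : Type*} {s : Finset ι} {g : ι → La} (h : ∀ j ∈ s, Reg i (g j)) :
    Reg i (∑ j ∈ s, g j) := Ge.sum h

theorem Reg.mul (ha : Reg i a) (hb : Reg i b) : Reg i (a * b) := by
  have := Ge.mul ha hb
  rwa [add_zero] at this

theorem Reg.D (ha : Reg i a) (j : Fin 3) : Reg i (OB.D j a) := by
  intro m hm
  rw [cf_D] at hm
  have h1 := ha _ (right_ne_zero_of_mul hm)
  rw [map_add, co_apply, co_apply] at h1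
  by_cases h2 : i = j
  · subst h2
    rw [ex_same] at h1
    have h3 := left_ne_zero_of_mul hm
    rw [co_apply]
    by_contra hcon
    apply h3
    have : m i = -1 := by omega
    rw [this]
    norm_num
  · rwa [ex_ne h2, add_zero] at h1

theorem Reg.io (i : Fin 3) (p : MvPolynomial (Fin 3) ℂ) : Reg i (OB.io p) := by
  intro m hm
  by_contra hcon
  push Not at hcon
  exact hm (cf_io_neg (i := i) hcon p)

theorem Reg.sg {m : Fin 3 → ℤ} (h : 0 ≤ m i) (c : ℂ) : Reg i (OB.sg m c) := Ge.sg h c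

/-! ### Components -/

theorem gc_hm (l : (Fin 3 → ℤ) →+ ℤ) (k : ℤ) (a : La) : Hm l k (gc l k a) := by
  intro m hm
  by_contra hcon
  exact hm (cf_cpt_neg hcon a)

theorem cf_gc_of_eq {m : Fin 3 → ℤ} (h : l m = k) (a : La) : cf m (gc l k a) = cf m a :=
  cf_cpt_pos h a

theorem cf_gc_of_ne {m : Fin 3 → ℤ} (h : l m ≠ k) (a : La) : cf m (gc l k a) = 0 :=
  cf_cpt_neg h a

theorem Hm.gc_eq (h : Hm l k a) : gc l k a = a := by
  apply La.ext'
  intro m
  by_cases h1 : l m = k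
  · rw [cf_gc_of_eq h1]
  · rw [cf_gc_of_ne h1]
    by_contra hcon
    exact h1 (h m (Ne.symm hcon))

theorem Hm.gc_ne (h : Hm l k a) (hk : k ≠ k') : gc l k' a = 0 := by
  apply La.ext'
  intro m
  rw [map_zero]
  by_cases h1 : l m = k'
  · rw [cf_gc_of_eq h1]
    by_contra hcon
    exact hk ((h m hcon).symm.trans h1)
  · rw [cf_gc_of_ne h1]

theorem cpt_preserves {P : (Fin 3 → ℤ) → Prop} (Q : (Fin 3 → ℤ) → Prop)
    (h : ∀ m, cf m a ≠ 0 → Q m) : ∀ m, cf m (cpt P a) ≠ 0 → Q m := by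
  intro m hm
  apply h
  by_cases h1 : P m
  · rwa [cf_cpt_pos h1] at hm
  · rw [cf_cpt_neg h1] at hm
    exact absurd rfl hm

theorem Hm.cpt (h : Hm l k a) (P : (Fin 3 → ℤ) → Prop) : Hm l k (OB.cpt P a) :=
  cpt_preserves _ h

theorem Ge.cpt (h : Ge l k a) (P : (Fin 3 → ℤ) → Prop) : Ge l k (OB.cpt P a) :=
  cpt_preserves _ h

theorem Ge.gc (h : Ge l k a) (l' : (Fin 3 → ℤ) →+ ℤ) (k' : ℤ) : Ge l k (OB.gc l' k' a) :=
  cpt_preserves _ h

theorem Hm.gc (h : Hm l k a) (l' : (Fin 3 → ℤ) →+ ℤ) (k' : ℤ) : Hm l k (OB.gc l' k' a) :=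
  cpt_preserves _ h

theorem gc_eq_zero_of_lt (h : Ge l k a) (hk : k' < k) : gc l k' a = 0 := by
  apply La.ext'
  intro m
  rw [map_zero]
  by_cases h1 : l m = k'
  · rw [cf_gc_of_eq h1]
    by_contra hcon
    have := h m hcon
    omega
  · rw [cf_gc_of_ne h1]

/-- The rest after the lowest component. -/
theorem Ge.sub_gc (h : Ge l k a) : Ge l (k + 1) (a - OB.gc l k a) := by
  intro m hm
  by_cases h1 : l m = k
  · rw [map_sub, cf_gc_of_eq h1, sub_self] at hm
    exact absurd rfl hm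
  · rw [map_sub, cf_gc_of_ne h1, sub_zero] at hm
    have := h m hm
    omega

theorem Ge.succ (h : Ge l k a) (h0 : OB.gc l k a = 0) : Ge l (k + 1) a := by
  have := h.sub_gc
  rwa [h0, sub_zero] at this

theorem gc_mul_low (ha : Ge l k a) (hb : Ge l k' b) :
    gc l (k + k') (a * b) = gc l k a * gc l k' b := by
  have e : a * b = gc l k a * gc l k' b + (gc l k a * (b - gc l k' b) + (a - gc l k a) * b) := by
    ring
  have h1 : Ge l (k + k' + 1) (gc l k a * (b - gc l k' b) + (a - gc l k a) * b) := by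
    apply Ge.add
    · have := (gc_hm l k a).ge.mul hb.sub_gc
      rwa [← add_assoc] at this
    · have := ha.sub_gc.mul hb
      rwa [show k + 1 + k' = k + k' + 1 by ring] at this
  rw [e, map_add, gc_eq_zero_of_lt h1 (by omega), add_zero,
    ((gc_hm l k a).mul (gc_hm l k' b)).gc_eq]

theorem gc_mul_hm (hb : Hm l k' b) (k : ℤ) (a : La) : gc l (k + k') (a * b) = gc l k a * b := by
  induction a using La.induct with
  | h0 => simp
  | hadd a a' ha ha' => rw [add_mul, map_add, ha, ha', map_add, add_mul]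
  | hs m c =>
    by_cases h : l m = k
    · rw [(Hm.sg h c).gc_eq, ((Hm.sg h c).mul hb).gc_eq]
    · rw [(Hm.sg rfl c : Hm l (l m) (OB.sg m c)).gc_ne h,
        ((Hm.sg rfl c : Hm l (l m) (OB.sg m c)).mul hb).gc_ne (by omega), zero_mul]

theorem gc_D (l : (Fin 3 → ℤ) →+ ℤ) (k : ℤ) (i : Fin 3) (a : La) :
    gc l (k - l (ex i)) (D i a) = D i (gc l k a) := by
  induction a using La.induct with
  | h0 => simp
  | hadd a a' ha ha' => simp only [map_add, ha, ha']
  | hs m c =>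
    by_cases h : l m = k
    · rw [(Hm.sg h c).gc_eq, ((Hm.sg h c).D i).gc_eq]
    · rw [(Hm.sg rfl c : Hm l (l m) (OB.sg m c)).gc_ne h,
        ((Hm.sg rfl c : Hm l (l m) (OB.sg m c)).D i).gc_ne (by omega), map_zero]

/-- Orders are additive. -/
theorem ge_of_mul (ha : Ge l k a) (ha' : gc l k a ≠ 0) {s : ℤ} (hb : Ge l s b)
    (hab : Ge l (k + k') (a * b)) : Ge l k' b := by
  have h1 : ∀ r : ℕ, Ge l (min k' (s + r)) b := by
    intro r
    induction r with
    | zero =>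
      rw [Nat.cast_zero, add_zero]
      exact hb.mono (min_le_right _ _)
    | succ r ih =>
      rcases le_or_gt k' (s + r) with h2 | h2
      · rw [min_eq_left h2] at ih
        exact ih.mono (min_le_left _ _)
      · rw [min_eq_right h2.le] at ih
        have h3 : gc l (k + (s + r)) (a * b) = 0 := gc_eq_zero_of_lt hab (by omega)
        rw [gc_mul_low ha ih] at h3
        have h4 := ih.succ ((mul_eq_zero.1 h3).resolve_left ha')
        apply h4.mono
        push_cast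
        omega
  have h2 := h1 (k' - s).toNat
  apply h2.mono
  have := Int.self_le_toNat (k' - s)
  rw [le_min_iff]
  constructor
  · exact le_rfl
  · omega

theorem exists_ge (l : (Fin 3 → ℤ) →+ ℤ) (a : La) : ∃ s, Ge l s a := by
  induction a using La.induct with
  | h0 => exact ⟨0, Ge.zero _ _⟩
  | hadd a b ha hb =>
    obtain ⟨s, hs⟩ := ha
    obtain ⟨t, ht⟩ := hb
    exact ⟨min s t, (hs.mono (min_le_left _ _)).add (ht.mono (min_le_right _ _))⟩
  | hs m c => exact ⟨l m, Ge.sg le_rfl c⟩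

/-- The order of a Laurent polynomial. -/
theorem exists_order (l : (Fin 3 → ℤ) →+ ℤ) (ha : a ≠ 0) : ∃ s, Ge l s a ∧ gc l s a ≠ 0 := by
  obtain ⟨s, hs⟩ := exists_ge l a
  by_contra hcon
  push Not at hcon
  have h1 : ∀ r : ℕ, Ge l (s + r) a := by
    intro r
    induction r with
    | zero => simpa using hs
    | succ r ih =>
      have := ih.succ (hcon _ ih)
      push_cast
      rwa [← add_assoc]
  apply ha
  apply La.ext'
  intro m
  rw [map_zero]
  by_contra hm
  have h2 := h1 (l m - s + 1).toNat m hm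
  have := Int.self_le_toNat (l m - s + 1)
  omega

/-! ### Euler relations -/

theorem cf_xD (i : Fin 3) (m : Fin 3 → ℤ) (a : La) :
    cf m (sg (ex i) 1 * D i a) = (m i : ℂ) * cf m a := by
  rw [cf_sg_mul, cf_D, one_mul]
  congr 1
  · rw [Pi.sub_apply, ex_same]
    push_cast
    ring
  · rw [sub_add_cancel]

theorem euler_td (h : Hm td k a) (i : Fin 3) :
    sg (ex i) 1 * D i a + sg (ex (i + 1)) 1 * D (i + 1) a + sg (ex (i + 2)) 1 * D (i + 2) a =
      (k : ℂ) • a := by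
  apply La.ext'
  intro m
  rw [map_add, map_add, cf_xD, cf_xD, cf_xD, map_smul, smul_eq_mul]
  by_cases h1 : cf m a = 0
  · rw [h1]
    ring
  · rw [← h m h1, td_eq i]
    push_cast
    ring

theorem euler_wt (i : Fin 3) (h : Hm (wt i) k a) :
    sg (ex (i + 1)) 1 * D (i + 1) a + sg (ex (i + 2)) 1 * D (i + 2) a = (k : ℂ) • a := by
  apply La.ext'
  intro m
  rw [map_add, cf_xD, cf_xD, map_smul, smul_eq_mul]
  by_cases h1 : cf m a = 0
  · rw [h1]
    ring
  · rw [← h m h1, wt_apply]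
    push_cast
    ring

/-! ### Polynomials -/

theorem hm_io {p : MvPolynomial (Fin 3) ℂ} {d : ℕ} (h : p.IsHomogeneous d) :
    Hm td d (io p) := by
  intro m hm
  by_cases h1 : ∀ i, 0 ≤ m i
  · obtain ⟨m', rfl⟩ : ∃ m', m = toZ m' := by
      refine ⟨Finsupp.equivFunOnFinite.symm fun i => (m i).toNat, ?_⟩
      funext i
      simp [toZ, h1 i]
    rw [cf_io] at hm
    have h2 : m'.degree = d := by
      by_contra hcon
      exact hm (h.coeff_eq_zero hcon)
    rw [Finsupp.degree_eq_sum, Fin.sum_univ_three] at h2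
    rw [td_apply, ← h2]
    simp [toZ]
  · push Not at h1
    obtain ⟨i, hi⟩ := h1
    exact absurd (cf_io_neg hi p) hm

/-- A Laurent polynomial without negative exponents is a polynomial. -/
theorem exists_io (h : ∀ i, Reg i a) : ∃ p, a = io p := by
  classical
  refine ⟨∑ m ∈ a.coeff.support, monomial (Finsupp.equivFunOnFinite.symm
    fun i => (m i).toNat) (cf m a), ?_⟩
  rw [map_sum]
  have h1 : a = ∑ m ∈ a.coeff.support, sg m (cf m a) := by
    have := (AddMonoidAlgebra.sum_coeff_single a).symm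
    exact this
  conv_lhs => rw [h1]
  refine Finset.sum_congr rfl fun m hm => ?_
  rw [io_monomial]
  congr 1
  funext i
  have h2 : 0 ≤ m i := h i m (Finsupp.mem_support_iff.1 hm)
  simp [toZ, h2]

theorem io_XX (i : Fin 3) (N : ℕ) :
    io ((X (i + 1) * X (i + 2)) ^ N) = sg (N • (ex (i + 1) + ex (i + 2))) 1 := by
  rw [map_pow, map_mul, io_X, io_X, sg_mul_sg, sg_pow]
  simp

/-- Clearing denominators. -/
theorem exists_clear (i : Fin 3) (h : Reg i a) : ∃ N₀ : ℕ, ∀ N : ℕ, N₀ ≤ N →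
    ∃ p : MvPolynomial (Fin 3) ℂ, io ((X (i + 1) * X (i + 2)) ^ N) * a = io p := by
  obtain ⟨s, hs⟩ := exists_ge (co (i + 1)) a
  obtain ⟨t, ht⟩ := exists_ge (co (i + 2)) a
  refine ⟨(-s).toNat + (-t).toNat, fun N hN => exists_io fun j => ?_⟩
  have h1 := Int.self_le_toNat (-s)
  have h2 := Int.self_le_toNat (-t)
  have h3 : (((-s).toNat + (-t).toNat : ℕ) : ℤ) ≤ N := by exact_mod_cast hN
  push_cast at h3
  rw [io_XX]
  rcases f3cases i j with rfl | rfl | rfl
  · apply Reg.mul _ h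
    apply Reg.sg
    simp [ex_ne (f3n1 j).symm, ex_ne (f3n2 j).symm]
  · have := (Ge.sg (l := co (i + 1)) (k := (N : ℤ)) (m := N • (ex (i + 1) + ex (i + 2))) (by
      rw [co_apply]
      simp [ex_same, ex_ne (f3n3 i)]) 1).mul hs
    exact this.mono (by omega)
  · have := (Ge.sg (l := co (i + 2)) (k := (N : ℤ)) (m := N • (ex (i + 1) + ex (i + 2))) (by
      rw [co_apply]
      simp [ex_same, ex_ne (f3n3 i).symm]) 1).mul ht
    exact this.mono (by omega)

/-- Clearing denominators in all variables. -/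
theorem exists_clear3 (a : La) : ∃ N₀ : ℕ, ∀ N : ℕ, N₀ ≤ N →
    ∃ p : MvPolynomial (Fin 3) ℂ, io ((X 0 * X 1 * X 2) ^ N) * a = io p := by
  obtain ⟨s, hs⟩ := exists_ge (co 0) a
  obtain ⟨t, ht⟩ := exists_ge (co 1) a
  obtain ⟨u, hu⟩ := exists_ge (co 2) a
  refine ⟨(-s).toNat + (-t).toNat + (-u).toNat, fun N hN => exists_io fun j => ?_⟩
  have h1 := Int.self_le_toNat (-s)
  have h2 := Int.self_le_toNat (-t)
  have h4 := Int.self_le_toNat (-u)
  have h3 : (((-s).toNat + (-t).toNat + (-u).toNat : ℕ) : ℤ) ≤ N := by exact_mod_cast hN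
  push_cast at h3
  have e : io ((X 0 * X 1 * X 2) ^ N) = sg (N • (ex 0 + ex 1 + ex 2)) 1 := by
    rw [map_pow, map_mul, map_mul, io_X, io_X, io_X, sg_mul_sg, sg_mul_sg, sg_pow]
    simp
  have e2 : ∀ j, Ge (co j) (N : ℤ) (sg (N • (ex 0 + ex 1 + ex 2)) 1) := by
    intro j
    apply Ge.sg
    rw [co_apply]
    fin_cases j <;> simp [ex]
  rw [e]
  fin_cases j
  · exact ((e2 0).mul hs).mono (by omega)
  · exact ((e2 1).mul ht).mono (by omega)
  · exact ((e2 2).mul hu).mono (by omega)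

theorem io_XX_isUnit (i : Fin 3) (N : ℕ) : ∃ e : La, Reg i e ∧
    io ((X (i + 1) * X (i + 2)) ^ N) * e = 1 := by
  refine ⟨sg (-(N • (ex (i + 1) + ex (i + 2)))) 1, ?_, ?_⟩
  · apply Reg.sg
    simp [ex_ne (f3n1 i).symm, ex_ne (f3n2 i).symm]
  · rw [io_XX, sg_mul_sg, add_neg_cancel, one_mul, one_eq_sg]

theorem io_ne_zero {p : MvPolynomial (Fin 3) ℂ} (h : p ≠ 0) : io p ≠ 0 := by
  intro h1
  apply h
  apply io_injective
  rw [h1, map_zero]

end MPb07157.OB
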