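import Pool.Agent.Lib.MP_b07157_agB.LocN

/-!
# The local lemma
-/

noncomputable section

namespace MPb07157.OB

open MvPolynomial MPb07157Q

variable {f P : MvPolynomial (Fin 3) ℂ} {v : Fin 3 → MvPolynomial (Fin 3) ℂ} {d n : ℕ}

namespace LocAux

theorem cu_add (a b : La) (w : Fin 3 → La) (k : Fin 3) :
    cu (fun j => (a + b) * w j) k = cu (fun j => a * w j) k + cu (fun j => b * w j) k := by
  simp only [cu, add_mul, map_add]
  abel

theorem cu_reg {i : Fin 3} {a : La} (ha : Reg i a) (v : Fin 3 → MvPolynomial (Fin 3) ℂ)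
    (k : Fin 3) : Reg i (cu (fun j => a * io (v j)) k) := by
  show Reg i (D (k + 1) (a * io (v (k + 2))) - D (k + 2) (a * io (v (k + 1))))
  exact ((ha.mul (Reg.io i _)).D _).sub ((ha.mul (Reg.io i _)).D _)

theorem cu_hm (h : Dat f P v d n) {a : La} (ha : Hm td (3 - n) a) (k : Fin 3) :
    Hm td 1 (cu (fun j => a * io (v j)) k) := by
  have hv : ∀ j, Hm td ((n : ℤ) - 1) (io (v j)) := by
    intro j
    have h1 := hm_io (h.hv j)
    have h2 : ((n - 1 : ℕ) : ℤ) = (n : ℤ) - 1 := by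
      have := h.hn
      omega
    rwa [h2] at h1
  have h1 : ∀ j l, Hm td 1 (D l (a * io (v j))) := by
    intro j l
    have h2 := (ha.mul (hv j)).D l
    rwa [td_ex, show (3 : ℤ) - n + (n - 1) - 1 = 1 by ring] at h2
  show Hm td 1 (D (k + 1) (a * io (v (k + 2))) - D (k + 2) (a * io (v (k + 1))))
  exact (h1 _ _).sub (h1 _ _)

theorem dv_add (s t : Fin 3 → La) : dv (fun k => s k + t k) = dv s + dv t := by
  unfold dv
  rw [← Finset.sum_add_distrib]
  exact Finset.sum_congr rfl fun k _ => map_add _ _ _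

theorem dv_sub (s t : Fin 3 → La) : dv (fun k => s k - t k) = dv s - dv t := by
  unfold dv
  rw [← Finset.sum_sub_distrib]
  exact Finset.sum_congr rfl fun k _ => map_sub _ _ _

end LocAux

open LocAux

theorem loc (h : Dat f P v d n) {i : Fin 3} {M μ : ℕ} (hV : Vert f P v i M μ)
    (h3 : 3 * M ≠ d) {t₁ t₂ : Fin 3 → La} (r₁ : ∀ k, Reg (i + 1) (t₁ k))
    (r₂ : ∀ k, Reg (i + 2) (t₂ k)) (e₁ : ∀ k, Hm td 1 (t₁ k)) (e₂ : ∀ k, Hm td 1 (t₂ k))
    (k₁ : ∑ k, t₁ k * D k (io f) = 0) (k₂ : ∑ k, t₂ k * D k (io f) = 0) {c : ℂ} (hc : c ≠ 0)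
    (d₁ : dv t₁ = sg 0 c) (d₂ : dv t₂ = sg 0 c) {g : La} (hg : Hm td (3 - n) g)
    (hcu : ∀ k, t₁ k - t₂ k = cu (fun j => g * io (v j)) k) :
    ∀ m, cf m g ≠ 0 → m (i + 1) < 0 → m (i + 2) < 0 → -(m (i + 1) + m (i + 2)) ≤ (μ : ℤ) - 3 := by
  set P0 : (Fin 3 → ℤ) → Prop := fun m => m (i + 1) < 0 ∧ m (i + 2) < 0 with hP0
  set P1 : (Fin 3 → ℤ) → Prop := fun m => 0 ≤ m (i + 1) with hP1
  set P2 : (Fin 3 → ℤ) → Prop := fun m => m (i + 1) < 0 ∧ 0 ≤ m (i + 2) with hP2
  have hsplit : g = cpt P0 g + (cpt P1 g + cpt P2 g) := by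
    apply La.ext'
    intro m
    rw [map_add, map_add]
    by_cases h1 : P1 m
    · have n0 : ¬ P0 m := fun h2 => absurd h1 (not_le.2 h2.1)
      have n2 : ¬ P2 m := fun h2 => absurd h1 (not_le.2 h2.1)
      rw [cf_cpt_neg n0, cf_cpt_pos h1, cf_cpt_neg n2, add_zero, zero_add]
    · have h1' : m (i + 1) < 0 := not_le.1 h1
      by_cases h2 : 0 ≤ m (i + 2)
      · have n0 : ¬ P0 m := fun h3 => absurd h2 (not_le.2 h3.2)
        rw [cf_cpt_neg n0, cf_cpt_neg h1, cf_cpt_pos (P := P2) ⟨h1', h2⟩, zero_add, zero_add]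
      · have n2 : ¬ P2 m := fun h3 => h2 h3.2
        rw [cf_cpt_pos (P := P0) ⟨h1', not_le.1 h2⟩, cf_cpt_neg h1, cf_cpt_neg n2, add_zero,
          add_zero]
  have g1r : Reg (i + 1) (cpt P1 g) := by
    intro m hm
    by_contra hcon
    exact hm (cf_cpt_neg (P := P1) hcon g)
  have g2r : Reg (i + 2) (cpt P2 g) := by
    intro m hm
    by_contra hcon
    exact hm (cf_cpt_neg (P := P2) (fun h2 => hcon h2.2) g)
  intro m hm m1 m2
  have key := loc_neg h hV h3 (t₁ := fun k => t₁ k - cu (fun j => cpt P1 g * io (v j)) k)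
    (t₂ := fun k => t₂ k + cu (fun j => cpt P2 g * io (v j)) k)
    (fun k => (r₁ k).sub (cu_reg g1r v k)) (fun k => (r₂ k).add (cu_reg g2r v k))
    (fun k => (e₁ k).sub (cu_hm h (hg.cpt P1) k)) (fun k => (e₂ k).add (cu_hm h (hg.cpt P2) k))
    (by
      simp only [sub_mul, Finset.sum_sub_distrib]
      rw [k₁, cu_kills h, sub_zero])
    (by
      simp only [add_mul, Finset.sum_add_distrib]
      rw [k₂, cu_kills h, add_zero]) hc
    (by
      rw [dv_sub, d₁, dv_cu, sub_zero])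
    (by
      rw [dv_add, d₂, dv_cu, add_zero]) (g := cpt P0 g) (hg.cpt P0)
    (by
      intro k
      have h1 := hcu k
      have h2 : cu (fun j => g * io (v j)) k = cu (fun j => cpt P0 g * io (v j)) k +
          (cu (fun j => cpt P1 g * io (v j)) k + cu (fun j => cpt P2 g * io (v j)) k) := by
        rw [← cu_add, ← cu_add, ← hsplit]
      rw [h2] at h1
      show t₁ k - cu (fun j => cpt P1 g * io (v j)) k -
        (t₂ k + cu (fun j => cpt P2 g * io (v j)) k) = cu (fun j => cpt P0 g * io (v j)) k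
      have h4 : t₁ k - cu (fun j => cpt P1 g * io (v j)) k -
        (t₂ k + cu (fun j => cpt P2 g * io (v j)) k) = (t₁ k - t₂ k) -
          (cu (fun j => cpt P1 g * io (v j)) k + cu (fun j => cpt P2 g * io (v j)) k) := by
        abel
      rw [h4, h1]
      abel)
    (by
      intro m' hm'
      by_contra hcon
      exact hm' (cf_cpt_neg (P := P0) hcon g))
  apply key m
  rw [cf_cpt_pos (P := P0) ⟨m1, m2⟩]
  exact hm

end MPb07157.OB
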