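import Pool.Agent.Lib.MP_b07157_agB.CmpA

/-!
# The local lemma, main case
-/

noncomputable section

namespace MPb07157.OB

open MvPolynomial MPb07157Q

variable {f P : MvPolynomial (Fin 3) ℂ} {v : Fin 3 → MvPolynomial (Fin 3) ℂ} {d n : ℕ}

namespace LocN

variable {i : Fin 3} {M μ : ℕ}

theorem sg_zero (m : Fin 3 → ℤ) : sg m 0 = 0 := AddMonoidAlgebra.single_zero m

theorem sg_ne_zero (m : Fin 3 → ℤ) : sg m 1 ≠ 0 := fun h =>
  one_ne_zero (AddMonoidAlgebra.single_eq_zero.1 h)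

theorem relL (h : Dat f P v d n) (j : Fin 3) : io P * D j (io f) = io f * io (v j) := by
  rw [D_io, ← map_mul, ← map_mul, h.rel]

theorem ge_v (h : Dat f P v d n) (hV : Vert f P v i M μ) (j : Fin 3) :
    Ge (wt i) ((μ : ℤ) - wt i (ex j)) (io (v j)) := by
  obtain ⟨s, hs⟩ := exists_ge (wt i) (io (v j))
  apply ge_of_mul hV.f1 hV.f2 hs
  rw [← relL h j]
  exact (hV.P1.mul (hV.f1.D j)).mono (by omega)

theorem low_rel (h : Dat f P v d n) (hV : Vert f P v i M μ) (j : Fin 3) :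
    gc (wt i) μ (io P) * D j (gc (wt i) M (io f)) =
      gc (wt i) M (io f) * gc (wt i) ((μ : ℤ) - wt i (ex j)) (io (v j)) := by
  rw [← gc_D, ← gc_mul_low hV.P1 (hV.f1.D j), ← gc_mul_low hV.f1 (ge_v h hV j), relL h j]
  congr 1
  congr 1
  ring

theorem e1 (i : Fin 3) : wt i (ex (i + 1)) = 1 := wt_ex_one i

/-- `y φ_y + z φ_z = M F`. -/
theorem euler_low (h : Dat f P v d n) (hV : Vert f P v i M μ) :
    sg (ex (i + 1)) 1 * gc (wt i) ((μ : ℤ) - 1) (io (v (i + 1))) +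
      sg (ex (i + 2)) 1 * gc (wt i) ((μ : ℤ) - 1) (io (v (i + 2))) =
      (M : ℂ) • gc (wt i) μ (io P) := by
  have h1 := low_rel h hV (i + 1)
  have h2 := low_rel h hV (i + 2)
  rw [wt_ex_one] at h1
  rw [wt_ex_two] at h2
  have h3 := euler_wt i (gc_hm (wt i) M (io f))
  apply mul_left_cancel₀ hV.f2
  have h4 : gc (wt i) (M : ℤ) (io f) * ((M : ℂ) • gc (wt i) μ (io P)) =
      gc (wt i) μ (io P) * (((M : ℤ) : ℂ) • gc (wt i) (M : ℤ) (io f)) := by
    rw [mul_smul_comm, mul_smul_comm, mul_comm]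
    push_cast
    rfl
  rw [h4, ← h3]
  linear_combination -(sg (ex (i + 1)) 1) * h1 - (sg (ex (i + 2)) 1) * h2

/-- `x φ_x = (d - M) F`. -/
theorem euler_x (h : Dat f P v d n) (hV : Vert f P v i M μ) :
    sg (ex i) 1 * gc (wt i) μ (io (v i)) = ((d : ℂ) - M) • gc (wt i) μ (io P) := by
  have h1 := low_rel h hV i
  rw [wt_ex_self, sub_zero] at h1
  have h3 := euler_wt i (gc_hm (wt i) M (io f))
  have h4 := euler_td ((hm_io h.hf).gc (wt i) M) i
  apply mul_left_cancel₀ hV.f2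
  have h5 : gc (wt i) (M : ℤ) (io f) * (((d : ℂ) - M) • gc (wt i) μ (io P)) =
      gc (wt i) μ (io P) * (((d : ℤ) : ℂ) • gc (wt i) (M : ℤ) (io f)) -
      gc (wt i) μ (io P) * (((M : ℤ) : ℂ) • gc (wt i) (M : ℤ) (io f)) := by
    rw [mul_smul_comm, mul_smul_comm, mul_smul_comm, mul_comm (gc (wt i) μ (io P)), sub_smul]
    push_cast
    rfl
  rw [h5, ← h3, ← h4]
  linear_combination -(sg (ex i) 1) * h1

theorem hm_F (h : Dat f P v d n) : Hm td n (gc (wt i) μ (io P)) := (hm_io h.hP).gc _ _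

theorem reg_sg_ex (j k : Fin 3) (c : ℂ) : Reg j (sg (ex k) c) := by
  apply Reg.sg
  by_cases h : j = k
  · rw [h, ex_same]
    norm_num
  · rw [ex_ne h]

theorem reg_neg_ex {j k : Fin 3} (h : j ≠ k) (c : ℂ) : Reg j (sg (-ex k) c) := by
  apply Reg.sg
  rw [Pi.neg_apply, ex_ne h, neg_zero]

theorem ge_of_reg {a : La} (h1 : Reg (i + 1) a) (h2 : Reg (i + 2) a) : Ge (wt i) 0 a := by
  intro m hm
  have a1 := h1 m hm
  have a2 := h2 m hm
  rw [co_apply] at a1 a2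
  rw [wt_apply]
  omega

theorem hm_sg_ex_one : Hm (wt i) 1 (sg (ex (i + 1)) 1) := Hm.sg (wt_ex_one i) 1

theorem hm_sg_ex_two : Hm (wt i) 1 (sg (ex (i + 2)) 1) := Hm.sg (wt_ex_two i) 1

/-- The quotient of an element by `F` in both rings is the same. -/
theorem cop_both (hV : Vert f P v i M μ) {δ : La} (r1 : Reg (i + 1) δ) (r2 : Reg (i + 2) δ)
    {u₁ u₂ : La} (a1 : Reg (i + 1) u₁) (a2 : Reg (i + 2) u₁) (b1 : Reg (i + 1) u₂)
    (b2 : Reg (i + 2) u₂)
    (h1 : gc (wt i) ((μ : ℤ) - 1) (io (v (i + 1))) * δ = gc (wt i) μ (io P) * u₁)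
    (h2 : gc (wt i) ((μ : ℤ) - 1) (io (v (i + 2))) * δ = gc (wt i) μ (io P) * u₂) :
    Ge (wt i) μ δ := by
  obtain ⟨w1, c1, c2⟩ := hV.cop (i + 1) (f3n1 i) δ r1 ⟨u₁, a1, h1⟩ ⟨u₂, b1, h2⟩
  obtain ⟨w2, c3, c4⟩ := hV.cop (i + 2) (f3n2 i) δ r2 ⟨u₁, a2, h1⟩ ⟨u₂, b2, h2⟩
  have : w1 = w2 := by
    apply mul_left_cancel₀ hV.P2
    rw [← c2, c4]
  subst this
  rw [c2]
  have := (gc_hm (wt i) (μ : ℤ) (io P)).ge.mul (ge_of_reg c1 c3)
  rwa [add_zero] at this

/-- `M = 0` implies `μ = 0`. -/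
theorem mu_zero (h : Dat f P v d n) (hV : Vert f P v i M μ) (hM : M = 0) : μ = 0 := by
  subst hM
  have h0 : ∀ j, wt i (ex j) = 1 → gc (wt i) ((μ : ℤ) - 1) (io (v j)) = 0 := by
    intro j hj
    have h1 := low_rel h hV j
    rw [hj] at h1
    have h2 : D j (gc (wt i) ((0 : ℕ) : ℤ) (io f)) = 0 := by
      have h3 : Ge (co j) 0 (D j (gc (wt i) ((0 : ℕ) : ℤ) (io f))) :=
        Reg.D (Ge.gc (Reg.io j f) _ _) j
      have h4 := (gc_hm (wt i) ((0 : ℕ) : ℤ) (io f)).D j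
      rw [hj] at h4
      have h5 : ∀ k, Reg k (D j (gc (wt i) ((0 : ℕ) : ℤ) (io f))) := fun k =>
        Reg.D (Ge.gc (Reg.io k f) _ _) j
      apply La.ext'
      intro m
      rw [map_zero]
      by_contra hm
      have h6 := h4 m hm
      have h7 := h5 (i + 1) m hm
      have h8 := h5 (i + 2) m hm
      rw [co_apply] at h7 h8
      rw [wt_apply] at h6
      push_cast at h6
      omega
    rw [h2, mul_zero] at h1
    exact (mul_eq_zero.1 h1.symm).resolve_left hV.f2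
  have h1 := cop_both hV (δ := 1) (u₁ := 0) (u₂ := 0) (Reg.sg (by simp) 1) (Reg.sg (by simp) 1)
    (Reg.zero _) (Reg.zero _) (Reg.zero _) (Reg.zero _)
    (by rw [h0 _ (wt_ex_one i), zero_mul, mul_zero])
    (by rw [h0 _ (wt_ex_two i), zero_mul, mul_zero])
  have h2 := h1 0 (by rw [one_eq_sg, cf_sg, if_pos rfl]; exact one_ne_zero)
  rw [map_zero] at h2
  omega

/-- No linear relation between `φ_y` and `φ_z`. -/
theorem cop_lin (h : Dat f P v d n) (hV : Vert f P v i M μ) (hμ : 2 ≤ μ) {α β : ℂ}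
    (hab : α • gc (wt i) ((μ : ℤ) - 1) (io (v (i + 1))) +
      β • gc (wt i) ((μ : ℤ) - 1) (io (v (i + 2))) = 0) : α = 0 ∧ β = 0 := by
  set a := gc (wt i) ((μ : ℤ) - 1) (io (v (i + 1))) with ha
  set b := gc (wt i) ((μ : ℤ) - 1) (io (v (i + 2))) with hb
  have hE := euler_low h hV
  rw [← ha, ← hb] at hE
  set y : La := sg (ex (i + 1)) 1 with hy
  set z : La := sg (ex (i + 2)) 1 with hz
  set F := gc (wt i) μ (io P) with hF
  have s0 : ∀ (c : ℂ) (u w : La), u * (c • w) = c • (u * w) := fun c u w => mul_smul_comm c u w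
  have key := cop_both hV (δ := α • z - β • y) (u₁ := -((β * M) • 1)) (u₂ := (α * M) • 1)
    ((reg_sg_ex _ _ _).smul _ |>.sub ((reg_sg_ex _ _ _).smul _))
    ((reg_sg_ex _ _ _).smul _ |>.sub ((reg_sg_ex _ _ _).smul _))
    ((Reg.sg (by simp) 1).smul _).neg ((Reg.sg (by simp) 1).smul _).neg
    ((Reg.sg (by simp) 1).smul _) ((Reg.sg (by simp) 1).smul _)
    (by
      rw [← ha, ← hF, mul_sub, s0, s0, mul_neg, s0, mul_one]
      have e1 : (β * M) • F = β • ((M : ℂ) • F) := by rw [smul_smul]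
      rw [e1, ← hE, smul_add]
      have e2 : z * (α • a + β • b) = 0 := by rw [hab, mul_zero]
      rw [mul_add, s0, s0] at e2
      rw [mul_comm a z, mul_comm a y]
      linear_combination e2)
    (by
      rw [← hb, ← hF, mul_sub, s0, s0, s0, mul_one]
      have e1 : (α * M) • F = α • ((M : ℂ) • F) := by rw [smul_smul]
      rw [e1, ← hE, smul_add]
      have e2 : y * (α • a + β • b) = 0 := by rw [hab, mul_zero]
      rw [mul_add, s0, s0] at e2
      rw [mul_comm b z, mul_comm b y]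
      linear_combination -e2)
  have h1 : Hm (wt i) 1 (α • z - β • y) := (hm_sg_ex_two.smul _).sub (hm_sg_ex_one.smul _)
  have h2 : α • z - β • y = 0 := by
    apply La.ext'
    intro m
    rw [map_zero]
    by_contra hm
    have a1 := key m hm
    have a2 := h1 m hm
    omega
  have c1 : cf (ex (i + 2)) (α • z - β • y) = α := by
    rw [map_sub, map_smul, map_smul, hz, hy, cf_sg, cf_sg, if_pos rfl, if_neg]
    · simp
    · intro hcon
      have := congrFun hcon (i + 1)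
      rw [ex_same, ex_ne (f3n3 i)] at this
      exact one_ne_zero this
  have c2 : cf (ex (i + 1)) (α • z - β • y) = -β := by
    rw [map_sub, map_smul, map_smul, hz, hy, cf_sg, cf_sg, if_neg, if_pos rfl]
    · simp
    · intro hcon
      have := congrFun hcon (i + 1)
      rw [ex_same, ex_ne (f3n3 i)] at this
      exact zero_ne_one this
  rw [h2, map_zero] at c1 c2
  exact ⟨c1.symm, neg_eq_zero.1 c2.symm⟩

/-- Lower parts of `t₁` and `t₂` agree, so they are regular in both variables. -/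
theorem low_eq {a b : La} (r1 : Reg (i + 1) a) (r2 : Reg (i + 2) b) {k : ℤ}
    (hd : Ge (wt i) k (a - b)) : ∀ m, wt i m < k → cf m a ≠ 0 → 0 ≤ m (i + 1) ∧ 0 ≤ m (i + 2) := by
  intro m hm ha
  have h1 : cf m (a - b) = 0 := by
    by_contra hcon
    have := hd m hcon
    omega
  rw [map_sub, sub_eq_zero] at h1
  have h2 := r1 m ha
  have h3 := r2 m (h1 ▸ ha)
  exact ⟨h2, h3⟩

theorem low_eq' {a b : La} (r1 : Reg (i + 1) a) (r2 : Reg (i + 2) b) {k : ℤ}
    (hd : Ge (wt i) k (a - b)) : ∀ m, wt i m < k → cf m b ≠ 0 → 0 ≤ m (i + 1) ∧ 0 ≤ m (i + 2) := by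
  intro m hm hb
  have h1 : cf m (a - b) = 0 := by
    by_contra hcon
    have := hd m hcon
    omega
  rw [map_sub, sub_eq_zero] at h1
  have h2 := r1 m (by rw [h1]; exact hb)
  have h3 := r2 m hb
  exact ⟨h2, h3⟩

theorem ge_low {a b : La} (r1 : Reg (i + 1) a) (r2 : Reg (i + 2) b) {k : ℤ} (hk : k ≤ 0)
    (hd : Ge (wt i) k (a - b)) : Ge (wt i) k a ∧ Ge (wt i) k b := by
  constructor
  · intro m hm
    by_contra hcon
    obtain ⟨h1, h2⟩ := low_eq r1 r2 hd m (by omega) hm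
    rw [wt_apply] at hcon
    omega
  · intro m hm
    by_contra hcon
    obtain ⟨h1, h2⟩ := low_eq' r1 r2 hd m (by omega) hm
    rw [wt_apply] at hcon
    omega

/-- An element of degree one which is of weight zero and regular is a multiple of `x`. -/
theorem gc_zero_eq {a : La} (ht : Hm td 1 a)
    (hr : ∀ m, wt i m < 1 → cf m a ≠ 0 → 0 ≤ m (i + 1) ∧ 0 ≤ m (i + 2)) :
    gc (wt i) 0 a = sg (ex i) (cf (ex i) a) := by
  apply La.ext'
  intro m
  rw [cf_sg]
  by_cases h1 : wt i m = 0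
  · rw [cf_gc_of_eq h1]
    by_cases h2 : cf m a = 0
    · rw [h2]
      split_ifs with h3
      · rw [h3, h2]
      · rfl
    · obtain ⟨h3, h4⟩ := hr m (by omega) h2
      have h5 := ht m h2
      rw [td_eq i] at h5
      rw [wt_apply] at h1
      have h6 : ex i = m := by
        funext k
        rcases f3cases i k with rfl | rfl | rfl
        · rw [ex_same]
          omega
        · rw [ex_ne (f3n1 i)]
          omega
        · rw [ex_ne (f3n2 i)]
          omega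
      rw [if_pos h6, h6]
  · rw [cf_gc_of_ne h1, if_neg]
    intro h2
    apply h1
    rw [← h2, wt_ex_self]

theorem ge_one_of {a : La} (h0 : Ge (wt i) 0 a) (h1 : gc (wt i) 0 a = 0) : Ge (wt i) 1 a := by
  have := h0.succ h1
  rwa [zero_add] at this

/-- The weight one case: constant vector fields do not occur. -/
theorem ge_one (h : Dat f P v d n) (hV : Vert f P v i M μ) (hμ : 2 ≤ μ) {t : Fin 3 → La}
    (et : ∀ k, Hm td 1 (t k)) (kt : ∑ k, t k * D k (io f) = 0) (h0 : Ge (wt i) 0 (t i))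
    (hr : ∀ k, k ≠ i → ∀ m, wt i m < 1 → cf m (t k) ≠ 0 → 0 ≤ m (i + 1) ∧ 0 ≤ m (i + 2)) :
    Ge (wt i) 1 (t (i + 1)) ∧ Ge (wt i) 1 (t (i + 2)) := by
  have g0 : ∀ k, k ≠ i → Ge (wt i) 0 (t k) := by
    intro k hk m hm
    by_contra hcon
    obtain ⟨h1, h2⟩ := hr k hk m (by omega) hm
    rw [wt_apply] at hcon
    omega
  have h1 := gc_zero_eq (et (i + 1)) (hr _ (f3n1 i))
  have h2 := gc_zero_eq (et (i + 2)) (hr _ (f3n2 i))
  set α := cf (ex i) (t (i + 1)) with hα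
  set β := cf (ex i) (t (i + 2)) with hβ
  have k1 := congrArg (gc (wt i) ((M : ℤ) - 1)) kt
  rw [sum3 i, map_add, map_add, map_zero] at k1
  have a0 : gc (wt i) ((M : ℤ) - 1) (t i * D i (io f)) = 0 := by
    apply gc_eq_zero_of_lt (h0.mul (hV.f1.D i))
    rw [wt_ex_self]
    omega
  have a1 : gc (wt i) ((M : ℤ) - 1) (t (i + 1) * D (i + 1) (io f)) =
      sg (ex i) α * D (i + 1) (gc (wt i) M (io f)) := by
    have := gc_mul_low (g0 _ (f3n1 i)) (hV.f1.D (i + 1))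
    rw [wt_ex_one, zero_add] at this
    rw [this, h1, ← gc_D, wt_ex_one]
  have a2 : gc (wt i) ((M : ℤ) - 1) (t (i + 2) * D (i + 2) (io f)) =
      sg (ex i) β * D (i + 2) (gc (wt i) M (io f)) := by
    have := gc_mul_low (g0 _ (f3n2 i)) (hV.f1.D (i + 2))
    rw [wt_ex_two, zero_add] at this
    rw [this, h2, ← gc_D, wt_ex_two]
  rw [a0, a1, a2, zero_add] at k1
  have l1 := low_rel h hV (i + 1)
  have l2 := low_rel h hV (i + 2)
  rw [wt_ex_one] at l1
  rw [wt_ex_two] at l2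
  have k2 : gc (wt i) M (io f) * (sg (ex i) 1 *
      (α • gc (wt i) ((μ : ℤ) - 1) (io (v (i + 1))) +
      β • gc (wt i) ((μ : ℤ) - 1) (io (v (i + 2))))) = 0 := by
    have e1 : sg (ex i) α = α • sg (ex i) 1 := by rw [smul_sg, mul_one]
    have e2 : sg (ex i) β = β • sg (ex i) 1 := by rw [smul_sg, mul_one]
    rw [e1, e2] at k1
    have k3 := congrArg (fun w => gc (wt i) μ (io P) * w) k1
    simp only [mul_zero, mul_add, smul_mul_assoc, mul_smul_comm] at k3 ⊢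
    rw [← k3]
    have e3 : gc (wt i) (M : ℤ) (io f) * (sg (ex i) 1 *
        gc (wt i) ((μ : ℤ) - 1) (io (v (i + 1)))) = gc (wt i) μ (io P) * (sg (ex i) 1 *
        D (i + 1) (gc (wt i) M (io f))) := by
      linear_combination -(sg (ex i) 1) * l1
    have e4 : gc (wt i) (M : ℤ) (io f) * (sg (ex i) 1 *
        gc (wt i) ((μ : ℤ) - 1) (io (v (i + 2)))) = gc (wt i) μ (io P) * (sg (ex i) 1 *
        D (i + 2) (gc (wt i) M (io f))) := by
      linear_combination -(sg (ex i) 1) * l2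
    rw [e3, e4]
  have k3 := (mul_eq_zero.1 k2).resolve_left hV.f2
  have k4 := (mul_eq_zero.1 k3).resolve_left (sg_ne_zero _)
  obtain ⟨b1, b2⟩ := cop_lin h hV hμ k4
  rw [b1, sg_zero] at h1
  rw [b2, sg_zero] at h2
  exact ⟨ge_one_of (g0 _ (f3n1 i)) h1, ge_one_of (g0 _ (f3n2 i)) h2⟩

/-- The components of a vector field of weight `k` which kills `f`. -/
theorem kill_low (h : Dat f P v d n) (hV : Vert f P v i M μ) {k : ℤ} {t : Fin 3 → La}
    (kt : ∑ k, t k * D k (io f) = 0) (h0 : Ge (wt i) k (t i)) (h1 : Ge (wt i) (k + 1) (t (i + 1)))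
    (h2 : Ge (wt i) (k + 1) (t (i + 2))) :
    gc (wt i) k (t i) * gc (wt i) μ (io (v i)) +
      gc (wt i) (k + 1) (t (i + 1)) * gc (wt i) ((μ : ℤ) - 1) (io (v (i + 1))) +
      gc (wt i) (k + 1) (t (i + 2)) * gc (wt i) ((μ : ℤ) - 1) (io (v (i + 2))) = 0 := by
  have k1 := congrArg (gc (wt i) (k + M)) kt
  rw [sum3 i, map_add, map_add, map_zero] at k1
  have a0 : gc (wt i) (k + M) (t i * D i (io f)) =
      gc (wt i) k (t i) * D i (gc (wt i) M (io f)) := by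
    have := gc_mul_low h0 (hV.f1.D i)
    rw [wt_ex_self, sub_zero] at this
    rw [this, ← gc_D, wt_ex_self, sub_zero]
  have a1 : gc (wt i) (k + M) (t (i + 1) * D (i + 1) (io f)) =
      gc (wt i) (k + 1) (t (i + 1)) * D (i + 1) (gc (wt i) M (io f)) := by
    have := gc_mul_low h1 (hV.f1.D (i + 1))
    rw [wt_ex_one, show k + 1 + ((M : ℤ) - 1) = k + M by ring] at this
    rw [this, ← gc_D, wt_ex_one]
  have a2 : gc (wt i) (k + M) (t (i + 2) * D (i + 2) (io f)) =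
      gc (wt i) (k + 1) (t (i + 2)) * D (i + 2) (gc (wt i) M (io f)) := by
    have := gc_mul_low h2 (hV.f1.D (i + 2))
    rw [wt_ex_two, show k + 1 + ((M : ℤ) - 1) = k + M by ring] at this
    rw [this, ← gc_D, wt_ex_two]
  rw [a0, a1, a2] at k1
  have l0 := low_rel h hV i
  have l1 := low_rel h hV (i + 1)
  have l2 := low_rel h hV (i + 2)
  rw [wt_ex_self, sub_zero] at l0
  rw [wt_ex_one] at l1
  rw [wt_ex_two] at l2
  apply mul_left_cancel₀ hV.f2
  rw [mul_zero]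
  linear_combination gc (wt i) μ (io P) * k1 - gc (wt i) k (t i) * l0 -
    gc (wt i) (k + 1) (t (i + 1)) * l1 - gc (wt i) (k + 1) (t (i + 2)) * l2

/-- The determinant of the lowest part times `φ_y` and `φ_z`. -/
theorem det_mul (h : Dat f P v d n) (hV : Vert f P v i M μ) {tx ty tz : La}
    (kt : tx * gc (wt i) μ (io (v i)) + ty * gc (wt i) ((μ : ℤ) - 1) (io (v (i + 1))) +
      tz * gc (wt i) ((μ : ℤ) - 1) (io (v (i + 2))) = 0) :
    gc (wt i) ((μ : ℤ) - 1) (io (v (i + 1))) *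
        (sg (ex (i + 1)) 1 * tz - sg (ex (i + 2)) 1 * ty) = gc (wt i) μ (io P) *
        ((M : ℂ) • tz + ((d : ℂ) - M) • (sg (-ex i) 1 * sg (ex (i + 2)) 1 * tx)) ∧
    gc (wt i) ((μ : ℤ) - 1) (io (v (i + 2))) *
        (sg (ex (i + 1)) 1 * tz - sg (ex (i + 2)) 1 * ty) = gc (wt i) μ (io P) *
        (-((M : ℂ) • ty + ((d : ℂ) - M) • (sg (-ex i) 1 * sg (ex (i + 1)) 1 * tx))) := by
  have hE := euler_low h hV
  have hx := euler_x h hV
  have hu : sg (-ex i) 1 * sg (ex i) 1 = (1 : La) := by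
    rw [sg_mul_sg, neg_add_cancel, one_mul, one_eq_sg]
  set a := gc (wt i) ((μ : ℤ) - 1) (io (v (i + 1))) with ha
  set b := gc (wt i) ((μ : ℤ) - 1) (io (v (i + 2))) with hb
  set e := gc (wt i) μ (io (v i)) with he
  set F := gc (wt i) μ (io P) with hF
  set x : La := sg (ex i) 1 with hx'
  set w : La := sg (-ex i) 1 with hw
  set y : La := sg (ex (i + 1)) 1 with hy
  set z : La := sg (ex (i + 2)) 1 with hz
  have e1 : e = w * (((d : ℂ) - M) • F) := by
    rw [← hx, ← mul_assoc, hu, one_mul]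
  have s1 : ∀ (c : ℂ) (u : La), c • u = algebraMap ℂ La c * u := fun c u => Algebra.smul_def c u
  rw [s1] at hE
  rw [e1, s1] at kt
  constructor
  · rw [s1, s1]
    linear_combination tz * hE - z * kt
  · rw [s1, s1]
    linear_combination -ty * hE + y * kt

theorem D_sg_same (i : Fin 3) : D i (sg (ex i) 1) = 1 := by
  rw [D_sg, sub_self, ex_same, one_eq_sg]
  simp

theorem D_sg_ne {i j : Fin 3} (h : i ≠ j) : D i (sg (ex j) 1) = 0 := by
  rw [D_sg, ex_ne h]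
  simp

/-- The Euler relation for `v`. -/
theorem euler_v (h : Dat f P v d n) (i : Fin 3) :
    sg (ex i) 1 * io (v i) + sg (ex (i + 1)) 1 * io (v (i + 1)) +
      sg (ex (i + 2)) 1 * io (v (i + 2)) = (d : ℂ) • io P := by
  have h4 := euler_td (hm_io h.hf) i
  apply mul_left_cancel₀ (io_ne_zero h.f0)
  have h5 : io f * ((d : ℂ) • io P) = io P * (((d : ℤ) : ℂ) • io f) := by
    rw [mul_smul_comm, mul_smul_comm, mul_comm]
    push_cast
    rfl
  rw [h5, ← h4]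
  linear_combination -(sg (ex i) 1) * relL h i - (sg (ex (i + 1)) 1) * relL h (i + 1) -
    (sg (ex (i + 2)) 1) * relL h (i + 2)

theorem hm_gv (h : Dat f P v d n) {g : La} (hg : Hm td (3 - n) g) (j : Fin 3) :
    Hm td 2 (g * io (v j)) := by
  have h1 := hg.mul (hm_io (h.hv j))
  have h2 : (3 : ℤ) - n + ((n - 1 : ℕ) : ℤ) = 2 := by
    have := h.hn
    omega
  rwa [h2] at h1

theorem det_cu (h : Dat f P v d n) {g : La} (hg : Hm td (3 - n) g) (i : Fin 3) :
    sg (ex (i + 1)) 1 * cu (fun j => g * io (v j)) (i + 2) -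
      sg (ex (i + 2)) 1 * cu (fun j => g * io (v j)) (i + 1) =
      (d : ℂ) • D i (g * io P) - (3 : ℂ) • (g * io (v i)) := by
  have h1 := euler_v h i
  have h2 := euler_td (hm_gv h hg i) i
  have h3 : (d : ℂ) • D i (g * io P) = D i (sg (ex i) 1 * (g * io (v i)) +
      sg (ex (i + 1)) 1 * (g * io (v (i + 1))) + sg (ex (i + 2)) 1 * (g * io (v (i + 2)))) := by
    rw [← Derivation.map_smul, ← mul_smul_comm, ← h1]
    congr 1
    ring
  rw [h3, map_add, map_add, D_mul, D_mul i (sg (ex (i + 1)) 1), D_mul i (sg (ex (i + 2)) 1),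
    D_sg_same, D_sg_ne (f3n1 i).symm, D_sg_ne (f3n2 i).symm]
  unfold cu
  rw [f3c, f3d, f3a, f3b]
  have h4 : (3 : ℂ) • (g * io (v i)) = (((2 : ℤ) : ℂ)) • (g * io (v i)) + g * io (v i) := by
    push_cast
    rw [show (3 : ℂ) = 2 + 1 by norm_num, add_smul, one_smul]
  rw [h4, ← h2]
  ring

/-- The orders of the components of the curl. -/
theorem ge_cu (h : Dat f P v d n) (hV : Vert f P v i M μ) {g : La} {s : ℤ}
    (hs : Ge (wt i) s g) : Ge (wt i) (s + μ - 2) (cu (fun j => g * io (v j)) i) ∧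
      Ge (wt i) (s + μ - 1) (cu (fun j => g * io (v j)) (i + 1)) ∧
      Ge (wt i) (s + μ - 1) (cu (fun j => g * io (v j)) (i + 2)) := by
  have v0 := ge_v h hV i
  have v1 := ge_v h hV (i + 1)
  have v2 := ge_v h hV (i + 2)
  have c0 := wt_ex_self i
  have c1 := wt_ex_one i
  have c2 := wt_ex_two i
  unfold cu
  rw [f3c, f3d, f3a, f3b]
  refine ⟨?_, ?_, ?_⟩
  · exact (((hs.mul v2).D (i + 1)).mono (by omega)).sub (((hs.mul v1).D (i + 2)).mono (by omega))
  · exact (((hs.mul v0).D (i + 2)).mono (by omega)).sub (((hs.mul v2).D i).mono (by omega))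
  · exact (((hs.mul v1).D i).mono (by omega)).sub (((hs.mul v0).D (i + 1)).mono (by omega))

/-- The lowest part of the determinant of the curl. -/
theorem det_cu_low (h : Dat f P v d n) (hV : Vert f P v i M μ) {g : La} (hg : Hm td (3 - n) g)
    {s : ℤ} (hs : Ge (wt i) s g) :
    sg (ex i) 1 * gc (wt i) (s + μ) (sg (ex (i + 1)) 1 * cu (fun j => g * io (v j)) (i + 2) -
      sg (ex (i + 2)) 1 * cu (fun j => g * io (v j)) (i + 1)) =
      ((3 * M - d * (μ + s) : ℤ) : ℂ) • (gc (wt i) s g * gc (wt i) μ (io P)) := by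
  rw [det_cu h hg i, map_sub, map_smul, map_smul]
  have v0 := ge_v h hV i
  have c0 := wt_ex_self i
  rw [c0, sub_zero] at v0
  rw [gc_mul_low hs v0]
  have h1 : gc (wt i) (s + μ) (D i (g * io P)) = D i (gc (wt i) s g * gc (wt i) μ (io P)) := by
    rw [← gc_mul_low hs hV.P1, ← gc_D, c0, sub_zero]
  rw [h1]
  have h2 : Hm td 3 (gc (wt i) s g * gc (wt i) μ (io P)) := by
    have := (hg.gc (wt i) s).mul ((hm_io h.hP).gc (wt i) μ)
    rwa [sub_add_cancel] at this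
  have h3 := euler_td h2 i
  have h4 := euler_wt i ((gc_hm (wt i) s g).mul (gc_hm (wt i) μ (io P)))
  have h5 := euler_x h hV
  have s1 : ∀ (c : ℂ) (u : La), c • u = algebraMap ℂ La c * u := fun c u => Algebra.smul_def c u
  rw [s1] at h3 h4 h5
  rw [s1, s1, s1]
  push_cast at h3 h4 h5 ⊢
  simp only [map_ofNat] at h3 h4 h5 ⊢
  linear_combination (d : La) * h3 - (d : La) * h4 - 3 * gc (wt i) s g * h5

/-- The exceptional case: the divergence is zero. -/
theorem no_div {d M : ℕ} {i : Fin 3} (hM : 3 * M = 2 * d) (hd : 0 < d) {tx ty tz : La}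
    (e0 : Hm td 1 tx) (w0 : Hm (wt i) 0 tx)
    (hz : (M : ℂ) • tz + ((d : ℂ) - M) • (sg (-ex i) 1 * sg (ex (i + 2)) 1 * tx) = 0)
    (hy : (M : ℂ) • ty + ((d : ℂ) - M) • (sg (-ex i) 1 * sg (ex (i + 1)) 1 * tx) = 0) :
    D i tx + D (i + 1) ty + D (i + 2) tz = 0 := by
  have hu : sg (ex i) 1 * sg (-ex i) 1 = (1 : La) := by
    rw [sg_mul_sg, add_neg_cancel, one_mul, one_eq_sg]
  set A : La := sg (-ex i) 1 * tx with hA
  have a1 : Hm td 0 A := by
    have := (Hm.sg (l := td) (m := -ex i) (k := -1) (by rw [map_neg, td_ex]) 1).mul e0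
    rwa [neg_add_cancel] at this
  have a2 : Hm (wt i) 0 A := by
    have := (Hm.sg (l := wt i) (m := -ex i) (k := 0) (by rw [map_neg, wt_ex_self, neg_zero]) 1).mul w0
    rwa [zero_add] at this
  have b1 := euler_td a1 i
  have b2 := euler_wt i a2
  rw [Int.cast_zero, zero_smul] at b1 b2
  have c1 : tx = sg (ex i) 1 * A := by rw [hA, ← mul_assoc, hu, one_mul]
  have s1 : ∀ (c : ℂ) (u : La), c • u = algebraMap ℂ La c * u := fun c u => Algebra.smul_def c u
  have hz' : (M : ℂ) • tz = -(((d : ℂ) - M) • (sg (ex (i + 2)) 1 * A)) := by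
    rw [eq_neg_iff_add_eq_zero, ← hz]
    congr 2
    rw [hA]
    ring
  have hy' : (M : ℂ) • ty = -(((d : ℂ) - M) • (sg (ex (i + 1)) 1 * A)) := by
    rw [eq_neg_iff_add_eq_zero, ← hy]
    congr 2
    rw [hA]
    ring
  have e1 := congrArg (D (i + 1)) hy'
  have e2 := congrArg (D (i + 2)) hz'
  rw [Derivation.map_smul, map_neg, Derivation.map_smul, D_mul, D_sg_same] at e1 e2
  have hM0 : (M : ℂ) ≠ 0 := by
    have : M ≠ 0 := by omega
    exact_mod_cast this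
  have e3 : (M : ℂ) • (D i tx + D (i + 1) ty + D (i + 2) tz) = 0 := by
    rw [smul_add, smul_add, e1, e2, c1, D_mul, D_sg_same]
    have hMd : (3 : La) * (M : La) = 2 * (d : La) := by exact_mod_cast congrArg (Nat.cast : ℕ → La) hM
    rw [s1, s1, s1]
    simp only [map_sub, map_natCast]
    linear_combination (M : La) * b1 - (d : La) * b2 + A * hMd
  exact (smul_eq_zero.1 e3).resolve_left hM0

end LocN

/-- The local lemma if all exponents of `x_(i+1)` and `x_(i+2)` in `g` are negative. -/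
theorem loc_neg (h : Dat f P v d n) {i : Fin 3} {M μ : ℕ} (hV : Vert f P v i M μ)
    (h3 : 3 * M ≠ d) {t₁ t₂ : Fin 3 → La} (r₁ : ∀ k, Reg (i + 1) (t₁ k))
    (r₂ : ∀ k, Reg (i + 2) (t₂ k)) (e₁ : ∀ k, Hm td 1 (t₁ k)) (e₂ : ∀ k, Hm td 1 (t₂ k))
    (k₁ : ∑ k, t₁ k * D k (io f) = 0) (k₂ : ∑ k, t₂ k * D k (io f) = 0) {c : ℂ} (hc : c ≠ 0)
    (d₁ : dv t₁ = sg 0 c) (_ : dv t₂ = sg 0 c) {g : La} (hg : Hm td (3 - n) g)
    (hcu : ∀ k, t₁ k - t₂ k = cu (fun j => g * io (v j)) k)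
    (hn : ∀ m, cf m g ≠ 0 → m (i + 1) < 0 ∧ m (i + 2) < 0) :
    ∀ m, cf m g ≠ 0 → -(m (i + 1) + m (i + 2)) ≤ (μ : ℤ) - 3 := by
  intro m₀ hm₀
  by_contra hcon
  have hg0 : g ≠ 0 := by
    rintro rfl
    exact hm₀ (map_zero _)
  obtain ⟨s, hs, hs0⟩ := exists_order (wt i) hg0
  have hsm : s ≤ 2 - μ := by
    have := hs m₀ hm₀
    rw [wt_apply] at this
    omega
  obtain ⟨m₁, hm₁⟩ : ∃ m, cf m (gc (wt i) s g) ≠ 0 := by
    by_contra hcon2
    push Not at hcon2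
    apply hs0
    apply La.ext'
    intro m
    rw [hcon2 m, map_zero]
  have hw₁ := gc_hm (wt i) s g m₁ hm₁
  have hg₁ : cf m₁ g ≠ 0 := by rwa [cf_gc_of_eq hw₁] at hm₁
  obtain ⟨ny, nz⟩ := hn m₁ hg₁
  have hs2 : s ≤ -2 := by
    rw [wt_apply] at hw₁
    omega
  -- orders of the curl
  obtain ⟨o0, o1, o2⟩ := LocN.ge_cu h hV hs
  rw [← hcu] at o0 o1 o2
  set k : ℤ := s + μ - 2 with hk
  have hk0 : k ≤ 0 := by omega
  have o1' : Ge (wt i) (k + 1) (t₁ (i + 1) - t₂ (i + 1)) := o1.mono (by omega)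
  have o2' : Ge (wt i) (k + 1) (t₁ (i + 2) - t₂ (i + 2)) := o2.mono (by omega)
  obtain ⟨p0, q0⟩ := LocN.ge_low (r₁ i) (r₂ i) hk0 o0
  have hA : (Ge (wt i) (k + 1) (t₁ (i + 1)) ∧ Ge (wt i) (k + 1) (t₁ (i + 2))) ∧
      (Ge (wt i) (k + 1) (t₂ (i + 1)) ∧ Ge (wt i) (k + 1) (t₂ (i + 2))) := by
    rcases lt_or_eq_of_le hk0 with hk1 | hk1
    · obtain ⟨a1, a2⟩ := LocN.ge_low (r₁ (i + 1)) (r₂ (i + 1)) (by omega) o1'
      obtain ⟨b1, b2⟩ := LocN.ge_low (r₁ (i + 2)) (r₂ (i + 2)) (by omega) o2'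
      exact ⟨⟨a1, b1⟩, ⟨a2, b2⟩⟩
    · rw [hk1] at o1' o2' p0 q0 ⊢
      rw [zero_add] at o1' o2' ⊢
      have hμ : 2 ≤ μ := by omega
      constructor
      · apply LocN.ge_one h hV hμ e₁ k₁ p0
        intro j hj
        rcases f3cases i j with rfl | rfl | rfl
        · exact absurd rfl hj
        · exact LocN.low_eq (r₁ _) (r₂ _) o1'
        · exact LocN.low_eq (r₁ _) (r₂ _) o2'
      · apply LocN.ge_one h hV hμ e₂ k₂ q0
        intro j hj
        rcases f3cases i j with rfl | rfl | rfl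
        · exact absurd rfl hj
        · exact LocN.low_eq' (r₁ _) (r₂ _) o1'
        · exact LocN.low_eq' (r₁ _) (r₂ _) o2'
  obtain ⟨⟨p1, p2⟩, q1, q2⟩ := hA
  -- the determinants
  have x1 := LocN.det_mul h hV (LocN.kill_low h hV k₁ p0 p1 p2)
  have x2 := LocN.det_mul h hV (LocN.kill_low h hV k₂ q0 q1 q2)
  have rg : ∀ {j : Fin 3} {a : La} (w : ℤ), Reg j a → Reg j (gc (wt i) w a) :=
    fun w ha => Ge.gc ha _ _
  have rq : ∀ {j l : Fin 3} {a b : La}, j ≠ i → Reg j a → Reg j b →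
      Reg j ((M : ℂ) • a + ((d : ℂ) - M) • (sg (-ex i) 1 * sg (ex l) 1 * b)) := by
    intro j l a b hj ha hb
    exact (ha.smul _).add (((LocN.reg_neg_ex hj 1).mul (LocN.reg_sg_ex j l 1)).mul hb |>.smul _)
  have rd : ∀ {j : Fin 3} {a b : La}, Reg j a → Reg j b →
      Reg j (sg (ex (i + 1)) 1 * a - sg (ex (i + 2)) 1 * b) := by
    intro j a b ha hb
    exact ((LocN.reg_sg_ex j _ 1).mul ha).sub ((LocN.reg_sg_ex j _ 1).mul hb)
  obtain ⟨u₁, ru₁, hu₁⟩ := hV.cop (i + 1) (f3n1 i) _ (rd (rg _ (r₁ _)) (rg _ (r₁ _)))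
    ⟨_, rq (f3n1 i) (rg _ (r₁ _)) (rg _ (r₁ _)), x1.1⟩
    ⟨_, (rq (f3n1 i) (rg _ (r₁ _)) (rg _ (r₁ _))).neg, x1.2⟩
  obtain ⟨u₂, ru₂, hu₂⟩ := hV.cop (i + 2) (f3n2 i) _ (rd (rg _ (r₂ _)) (rg _ (r₂ _)))
    ⟨_, rq (f3n2 i) (rg _ (r₂ _)) (rg _ (r₂ _)), x2.1⟩
    ⟨_, (rq (f3n2 i) (rg _ (r₂ _)) (rg _ (r₂ _))).neg, x2.2⟩
  -- comparison
  have y1 := LocN.det_cu_low h hV hg hs
  rw [← hcu, ← hcu] at y1
  have y2 : gc (wt i) (s + μ) (sg (ex (i + 1)) 1 * (t₁ (i + 2) - t₂ (i + 2)) -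
      sg (ex (i + 2)) 1 * (t₁ (i + 1) - t₂ (i + 1))) = gc (wt i) μ (io P) * (u₁ - u₂) := by
    have z1 : ∀ a : La, gc (wt i) (s + μ) (sg (ex (i + 1)) 1 * a) =
        sg (ex (i + 1)) 1 * gc (wt i) (k + 1) a := by
      intro a
      rw [mul_comm, show s + (μ : ℤ) = k + 1 + 1 by omega, gc_mul_hm LocN.hm_sg_ex_one, mul_comm]
    have z2 : ∀ a : La, gc (wt i) (s + μ) (sg (ex (i + 2)) 1 * a) =
        sg (ex (i + 2)) 1 * gc (wt i) (k + 1) a := by
      intro a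
      rw [mul_comm, show s + (μ : ℤ) = k + 1 + 1 by omega, gc_mul_hm LocN.hm_sg_ex_two, mul_comm]
    rw [map_sub, z1, z2, mul_sub, ← hu₁, ← hu₂, map_sub, map_sub]
    ring
  rw [y2] at y1
  have y3 : sg (ex i) 1 * (u₁ - u₂) = ((3 * M - d * (μ + s) : ℤ) : ℂ) • gc (wt i) s g := by
    apply mul_left_cancel₀ hV.P2
    rw [mul_smul_comm, mul_comm (gc (wt i) (μ : ℤ) (io P)) (gc (wt i) s g), ← y1]
    ring
  have y4 : ((3 * M - d * (μ + s) : ℤ) : ℂ) = 0 := by
    have z1 : cf m₁ (sg (ex i) 1 * u₁) = 0 := by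
      by_contra hne
      have := ((LocN.reg_sg_ex (i + 1) i 1).mul ru₁) m₁ hne
      rw [co_apply] at this
      omega
    have z2 : cf m₁ (sg (ex i) 1 * u₂) = 0 := by
      by_contra hne
      have := ((LocN.reg_sg_ex (i + 2) i 1).mul ru₂) m₁ hne
      rw [co_apply] at this
      omega
    have z3 := congrArg (cf m₁) y3
    rw [mul_sub, map_sub, z1, z2, sub_zero, map_smul, smul_eq_mul] at z3
    exact (mul_eq_zero.1 z3.symm).resolve_right hm₁
  have y5 : 3 * (M : ℤ) - d * (μ + s) = 0 := by exact_mod_cast y4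
  have hd : (0 : ℤ) < d := by exact_mod_cast h.hd
  have y6 : (μ : ℤ) + s = 0 ∨ (μ : ℤ) + s = 1 ∨ (μ : ℤ) + s = 2 := by
    have : 0 ≤ (μ : ℤ) + s := by
      by_contra hneg
      push Not at hneg
      have : (d : ℤ) * (μ + s) < 0 := mul_neg_of_pos_of_neg hd hneg
      omega
    omega
  rcases y6 with y6 | y6 | y6
  · rw [y6, mul_zero, sub_zero] at y5
    have := LocN.mu_zero h hV (by omega)
    omega
  · rw [y6, mul_one] at y5
    omega
  · rw [y6] at y5 y3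
    have hk2 : k = 0 := by omega
    have hM : 3 * M = 2 * d := by omega
    have z0 : u₁ = u₂ := by
      have : ((3 * M - d * 2 : ℤ) : ℂ) = 0 := by rw [y5, Int.cast_zero]
      rw [this, zero_smul] at y3
      exact sub_eq_zero.1 ((mul_eq_zero.1 y3).resolve_left (LocN.sg_ne_zero _))
    subst z0
    have z1 := LocN.ge_of_reg ru₁ ru₂
    have z2 := (gc_hm (wt i) (μ : ℤ) (io P)).ge.mul z1
    rw [← hu₁, add_zero] at z2
    rw [hk2] at z2 x1
    have z3 : Hm (wt i) 2 (sg (ex (i + 1)) 1 * gc (wt i) (0 + 1) (t₁ (i + 2)) -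
        sg (ex (i + 2)) 1 * gc (wt i) (0 + 1) (t₁ (i + 1))) :=
      (LocN.hm_sg_ex_one.mul (gc_hm _ _ _)).sub (LocN.hm_sg_ex_two.mul (gc_hm _ _ _))
    have z4 : sg (ex (i + 1)) 1 * gc (wt i) (0 + 1) (t₁ (i + 2)) -
        sg (ex (i + 2)) 1 * gc (wt i) (0 + 1) (t₁ (i + 1)) = 0 := by
      apply La.ext'
      intro m
      rw [map_zero]
      by_contra hm
      have a1 := z3 m hm
      have a2 := z2 m hm
      omega
    rw [z4, mul_zero, mul_zero] at x1
    have w1 := (mul_eq_zero.1 x1.1.symm).resolve_left hV.P2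
    have w2 := neg_eq_zero.1 ((mul_eq_zero.1 x1.2.symm).resolve_left hV.P2)
    have w3 := LocN.no_div hM h.hd ((e₁ i).gc _ _) (gc_hm _ _ _) w1 w2
    have w4 := congrArg (gc (wt i) 0) d₁
    unfold dv at w4
    rw [sum3 i, map_add, map_add] at w4
    have c0 := gc_D (wt i) 0 i (t₁ i)
    rw [wt_ex_self, sub_zero] at c0
    have c1 := gc_D (wt i) (0 + 1) (i + 1) (t₁ (i + 1))
    rw [wt_ex_one, add_sub_cancel_right] at c1
    have c2 := gc_D (wt i) (0 + 1) (i + 2) (t₁ (i + 2))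
    rw [wt_ex_two, add_sub_cancel_right] at c2
    rw [c0, c1, c2, w3, (Hm.sg (map_zero _) c : Hm (wt i) 0 (sg 0 c)).gc_eq] at w4
    exact hc (AddMonoidAlgebra.single_eq_zero.1 w4.symm)

end MPb07157.OB
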