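import Pool.Agent.Lib.MP_b07157_agB.Defs

/-!
# The root from the key lemma
-/

noncomputable section

namespace MPb07157.OB

open MvPolynomial MPb07157Q

variable {n : ℕ}

/-- As `MPb07157.root_of_linear_type`, with the key lemma as hypothesis. -/
theorem root_of_key {f : MvPolynomial (Fin n) ℂ} (hf : f ≠ 0) {d : ℕ} (hd : 0 < d)
    (hh : f.IsHomogeneous d)
    (hkey : ∀ G : MvPolynomial (Fin n) (MvPolynomial (Fin n) ℂ),
      (∀ q : ℕ, Psi ((f : MvPowerSeries (Fin n) ℂ) ^ q) G = 0) → cc G = 0)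
    (b : Polynomial ℂ) (hb : InDnForm f 1 (b.map (MvPowerSeries.C (σ := Fin n) (R := ℂ)))) :
    b.eval (-((n : ℂ) / d)) = 0 := by
  classical
  obtain ⟨h, hh1, hIn⟩ := hb.exists_poly
  have hA := inA_of_inDn hIn
  rw [map_mul, sw_C, sw_liftS] at hA
  obtain ⟨Φ, hΦ, hΦ2⟩ := hA.toOp hf
  obtain ⟨G, hG⟩ := exists_of_op hd hh hΦ
  obtain ⟨G', hG', hcc⟩ := exists_poly_mul hd hh b (C h)
  have hfF : (f : MvPowerSeries (Fin n) ℂ) ≠ 0 := by
    intro h0
    exact hf (MvPolynomial.coe_injective _ _ (by simpa using h0))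
  have hf0 : constantCoeff f = 0 := by
    rw [constantCoeff_eq]
    apply hh.coeff_eq_zero
    rw [map_zero]
    omega
  have hrel : ∀ q : ℕ, Psi ((f : MvPowerSeries (Fin n) ℂ) ^ q) (C f * G - G') = 0 := by
    intro q
    have e1 := hΦ2 (q + 1)
    have e2 : Φ (q + 1) = C (b.eval (q : ℂ)) * (h * f ^ q) := by
      apply mul_left_cancel₀ hf
      rw [pow_one] at e1
      rw [e1, Polynomial.eval_mul, Polynomial.eval_C]
      have e3 : ((((q + 1 : ℕ) : MvPolynomial (Fin n) ℂ)) - 1) = C (q : ℂ) := by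
        push_cast
        rw [add_sub_cancel_right]
        simp
      rw [e3, Polynomial.eval_map, Polynomial.eval₂_hom, pow_succ]
      ring
    rw [Psi_sub, Psi_mul_left, ← pow_succ', ← hG, e2, hG', Psi_C, coe_mul, coe_C, coe_mul,
      coe_pow, Algebra.smul_def, MvPowerSeries.c_eq_algebraMap, sub_self]
  have hkey := hkey (C f * G - G') hrel
  rw [cc_sub, hcc] at hkey
  have e1 : cc (C f * G) = 0 := by
    unfold cc
    rw [coeff_C_mul, map_mul, hf0, zero_mul]
  have e2 : cc (C h : MvPolynomial (Fin n) (MvPolynomial (Fin n) ℂ)) = 1 := by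
    unfold cc
    rw [coeff_zero_C, hh1]
  rw [e1, e2] at hkey
  simpa using hkey

end MPb07157.OB
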