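import Pool.Agent.Lib.MP_b07157_agB.Tot
import Pool.Agent.Lib.MP_b07157_agB.Loc
import Pool.Agent.Lib.MP_b07157_agB.Comb
import Pool.Agent.Lib.MP_b07157_agB.Bnd
import Pool.Agent.Lib.MP_b07157_agB.RootK

/-!
# The root `-3/d` if all points except the three coordinate points are quasi-homogeneous
-/

noncomputable section

namespace MPb07157.OB

open MvPolynomial MPb07157Q

theorem cu_sub (v : Fin 3 → La) (a b : La) (k : Fin 3) :
    cu (fun j => (a - b) * v j) k = cu (fun j => a * v j) k - cu (fun j => b * v j) k := by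
  unfold cu
  dsimp only
  rw [sub_mul, sub_mul, map_sub, map_sub]
  ring

theorem key3 {f P : MvPolynomial (Fin 3) ℂ} {v : Fin 3 → MvPolynomial (Fin 3) ℂ} {d n : ℕ}
    (h : Dat f P v d n) (hQ : ∀ (i : Fin 3) (p : Fin 3 → ℂ), p (i + 1) ≠ 0 → p (i + 2) ≠ 0 →
      eval p f = 0 → QHat f p) {M μ : Fin 3 → ℕ} (hV : ∀ i, Vert f P v i (M i) (μ i))
    (h3 : ∀ i, 3 * M i ≠ d) (hNS : NS f) (G : MvPolynomial (Fin 3) (MvPolynomial (Fin 3) ℂ))
    (hG : ∀ q : ℕ, Psi ((f : MvPowerSeries (Fin 3) ℂ) ^ q) G = 0) : cc G = 0 := by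
  classical
  by_contra hcc
  obtain ⟨t, g, rt, et, eg, kt, dt, sg0, ct⟩ := tot h hQ G hG
  have hc : -(cc G) ≠ 0 := neg_ne_zero.2 hcc
  have hl := fun i => loc h (hV i) (h3 i) (rt (i + 1)) (rt (i + 2)) (et (i + 1)) (et (i + 2))
    (kt (i + 1)) (kt (i + 2)) hc (dt (i + 1)) (dt (i + 2)) (eg i) (ct i)
  obtain ⟨H, rH, gH⟩ := comb (fun i => mu_lt h hNS (hV i).P1)
    (fun i j hij => (mu_add h hij (hV i).P1 (hV j).P1).trans (by omega)) eg sg0 hl
  have e1 : ∀ i k, t (i + 1) k - cu (fun j => H (i + 1) * io (v j)) k =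
      t (i + 2) k - cu (fun j => H (i + 2) * io (v j)) k := by
    intro i k
    have e2 := ct i k
    rw [gH i, cu_sub (fun j => io (v j))] at e2
    linear_combination e2
  have e2 : ∀ i k, t i k - cu (fun j => H i * io (v j)) k =
      t 0 k - cu (fun j => H 0 * io (v j)) k := by
    intro i k
    fin_cases i
    · rfl
    · exact (e1 2 k).symm
    · exact e1 1 k
  have e3 : ∀ k, ∃ p, t 0 k - cu (fun j => H 0 * io (v j)) k = io p := by
    intro k
    apply exists_io
    intro i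
    rw [← e2 i k]
    apply (rt i k).sub
    unfold cu
    exact (((rH i).mul (Reg.io i _)).D _).sub (((rH i).mul (Reg.io i _)).D _)
  choose p hp using e3
  have e4 : ∑ k, p k * pderiv k f = 0 := by
    apply io_injective
    rw [map_sum, map_zero]
    have e5 : ∀ k, io (p k * pderiv k f) =
        t 0 k * D k (io f) - cu (fun j => H 0 * io (v j)) k * D k (io f) := by
      intro k
      rw [map_mul, ← hp, ← D_io]
      ring
    rw [Finset.sum_congr rfl fun k _ => e5 k, Finset.sum_sub_distrib, kt 0, cu_kills h, sub_zero]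
  have e5 := hNS.constantCoeff_div h.hf e4
  have e6 : io (∑ k, pderiv k (p k)) = sg 0 (-(cc G)) := by
    rw [← dt 0, map_sum]
    have e7 : ∀ k, io (pderiv k (p k)) = D k (t 0 k) - D k (cu (fun j => H 0 * io (v j)) k) := by
      intro k
      rw [← D_io, ← hp, map_sub]
    rw [Finset.sum_congr rfl fun k _ => e7 k, Finset.sum_sub_distrib]
    have e8 := dv_cu fun j => H 0 * io (v j)
    unfold dv at e8
    rw [e8, sub_zero]
    rfl
  have e7 := cf_io 0 (∑ k, pderiv k (p k))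
  rw [e6, cf_sg, if_pos (by funext i; rfl), ← constantCoeff_eq, e5] at e7
  exact hc e7

/-- The root `-3/d` for data at the coordinate points. -/
theorem root3 {f P : MvPolynomial (Fin 3) ℂ} {v : Fin 3 → MvPolynomial (Fin 3) ℂ} {d n : ℕ}
    (h : Dat f P v d n) (hQ : ∀ (i : Fin 3) (p : Fin 3 → ℂ), p (i + 1) ≠ 0 → p (i + 2) ≠ 0 →
      eval p f = 0 → QHat f p) {M μ : Fin 3 → ℕ} (hV : ∀ i, Vert f P v i (M i) (μ i))
    (h3 : ∀ i, 3 * M i ≠ d) (hNS : NS f) (b : Polynomial ℂ)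
    (hb : InDnForm f 1 (b.map (MvPowerSeries.C (σ := Fin 3) (R := ℂ)))) :
    b.eval (((-(3 / d) : ℚ)) : ℂ) = 0 := by
  have := root_of_key h.f0 h.hd h.hf (key3 h hQ hV h3 hNS) b hb
  rw [← this]
  congr 1
  push_cast
  ring

end MPb07157.OB
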