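import Pool.Agent.Lib.MP_b07157_agB.Dec
import Pool.Agent.Lib.MP_b07157_agB.Cmp

/-!
# The parts of order zero and degree one
-/

noncomputable section

namespace MPb07157.OB

open MvPolynomial MPb07157Q

namespace TotAux

theorem dC_add (i : Fin 3) (S T : MvPolynomial (Fin 3) La) : dC i (S + T) = dC i S + dC i T := by
  ext1 b
  rw [coeff_dC, coeff_add, coeff_add, coeff_dC, coeff_dC, map_add]

theorem dC_sub (i : Fin 3) (S T : MvPolynomial (Fin 3) La) : dC i (S - T) = dC i S - dC i T := by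
  ext1 b
  rw [coeff_dC, coeff_sub, coeff_sub, coeff_dC, coeff_dC, map_sub]

theorem nab_add (i : Fin 3) (S T : MvPolynomial (Fin 3) La) :
    nab i (S + T) = nab i S + nab i T := by
  unfold nab
  rw [dC_add]
  ring

theorem nab_sub (i : Fin 3) (S T : MvPolynomial (Fin 3) La) :
    nab i (S - T) = nab i S - nab i T := by
  unfold nab
  rw [dC_sub]
  ring

theorem dvg_sub (S T : Fin 3 → MvPolynomial (Fin 3) La) :
    dvg (fun k => S k - T k) = dvg S - dvg T := by
  unfold dvg
  simp only [nab_sub, Finset.sum_sub_distrib]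

theorem cur_add (S T : Fin 3 → MvPolynomial (Fin 3) La) (k : Fin 3) :
    cur (fun j => S j + T j) k = cur S k + cur T k := by
  unfold cur
  simp only [nab_add]
  ring

theorem coeff_mulC (b : Fin 3 →₀ ℕ) (T : MvPolynomial (Fin 3) La) (a : La) :
    coeff b (T * C a) = coeff b T * a := by
  rw [mul_comm, coeff_C_mul, mul_comm]

theorem coeff_nab (i : Fin 3) (T : MvPolynomial (Fin 3) La) :
    coeff 0 (nab i T) = - D i (coeff 0 T) := by
  unfold nab
  have h1 : coeff 0 (X i * T) = 0 := by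
    rw [coeff_X_mul']
    simp
  rw [coeff_sub, h1, coeff_dC, zero_sub]

theorem coeff_dvg (T : Fin 3 → MvPolynomial (Fin 3) La) :
    coeff 0 (dvg T) = - dv (fun k => coeff 0 (T k)) := by
  unfold dvg dv
  rw [coeff_sum, ← Finset.sum_neg_distrib]
  exact Finset.sum_congr rfl fun i _ => coeff_nab i (T i)

theorem coeff_cur (T : Fin 3 → MvPolynomial (Fin 3) La) (k : Fin 3) :
    coeff 0 (cur T k) = - cu (fun j => coeff 0 (T j)) k := by
  unfold cur cu
  rw [coeff_sub, coeff_nab, coeff_nab]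
  ring

theorem gc_td_io (p : MvPolynomial (Fin 3) ℂ) : gc td 0 (io p) = sg 0 (constantCoeff p) := by
  induction p using MvPolynomial.induction_on' with
  | monomial u a =>
    rw [io_monomial, constantCoeff_monomial]
    by_cases hu : u = 0
    · rw [if_pos hu, hu]
      have h0 : toZ 0 = 0 := by
        funext i
        simp [toZ]
      rw [h0]
      exact (Hm.sg (map_zero td) a).gc_eq
    · rw [if_neg hu]
      have h1 : td (toZ u) ≠ 0 := by
        intro h
        apply hu
        rw [td_apply] at h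
        simp only [toZ] at h
        ext i
        fin_cases i
        · simp only [Finsupp.coe_zero, Pi.zero_apply]
          show u 0 = 0
          omega
        · simp only [Finsupp.coe_zero, Pi.zero_apply]
          show u 1 = 0
          omega
        · simp only [Finsupp.coe_zero, Pi.zero_apply]
          show u 2 = 0
          omega
      rw [(Hm.sg (l := td) rfl a).gc_ne h1]
      simp
  | add p q hp hq =>
    rw [map_add, map_add, hp, hq, map_add, ← AddMonoidAlgebra.single_add]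

theorem exists_deg (G : MvPolynomial (Fin 3) La) : ∃ M, ∀ b ∈ G.support, b.degree ≤ M :=
  ⟨G.support.sup fun b => b.degree, fun _ hb => Finset.le_sup (f := fun b => b.degree) hb⟩

theorem exists_deg' (w : Fin 3 → MvPolynomial (Fin 3) La) :
    ∃ M, ∀ k b, M ≤ b.degree → coeff b (w k) = 0 := by
  choose M hM using fun k => exists_deg (w k)
  refine ⟨M 0 + M 1 + M 2 + 1, fun k b hb => ?_⟩
  by_contra hcon
  have h1 := hM k b (mem_support_iff.2 hcon)
  have h2 : M k ≤ M 0 + M 1 + M 2 := by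
    fin_cases k
    · show M 0 ≤ _
      omega
    · show M 1 ≤ _
      omega
    · show M 2 ≤ _
      omega
  omega

end TotAux

theorem tot {f P : MvPolynomial (Fin 3) ℂ} {v : Fin 3 → MvPolynomial (Fin 3) ℂ} {d n : ℕ}
    (h : Dat f P v d n) (hQ : ∀ (i : Fin 3) (p : Fin 3 → ℂ), p (i + 1) ≠ 0 → p (i + 2) ≠ 0 →
      eval p f = 0 → QHat f p) (G : MvPolynomial (Fin 3) (MvPolynomial (Fin 3) ℂ))
    (hG : ∀ q : ℕ, Psi ((f : MvPowerSeries (Fin 3) ℂ) ^ q) G = 0) :
    ∃ (t : Fin 3 → Fin 3 → La) (g : Fin 3 → La), (∀ i k, Reg i (t i k)) ∧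
      (∀ i k, Hm td 1 (t i k)) ∧ (∀ i, Hm td (3 - n) (g i)) ∧
      (∀ i, ∑ k, t i k * D k (io f) = 0) ∧ (∀ i, dv (t i) = sg 0 (-(cc G))) ∧
      g 0 + g 1 + g 2 = 0 ∧
      ∀ i k, t (i + 1) k - t (i + 2) k = cu (fun j => g i * io (v j)) k := by
  obtain ⟨M, hM⟩ := TotAux.exists_deg (map (io : MvPolynomial (Fin 3) ℂ →+* La) G)
  have hT : ∀ i : Fin 3, ∃ T : Fin 3 → MvPolynomial (Fin 3) La, (∀ k, RegP i (T k)) ∧
      ∑ k, T k * C (D k (io f)) = 0 ∧ map (io : MvPolynomial (Fin 3) ℂ →+* La) G = dvg T := by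
    intro i
    refine dec h i (hQ i) M _ ?_ hM fun q => Psi_to_L f G q (hG q)
    intro b
    rw [coeff_map]
    exact Reg.io i _
  choose T hT1 hT2 hT3 using hT
  have hw0 : ∀ i j : Fin 3, ∑ k, (T i k - T j k) * C (D k (io f)) = 0 := by
    intro i j
    simp only [sub_mul, Finset.sum_sub_distrib]
    rw [hT2, hT2, sub_zero]
  have hwd : ∀ i j : Fin 3, dvg (fun k => T i k - T j k) = 0 := by
    intro i j
    rw [TotAux.dvg_sub, ← hT3, ← hT3, sub_self]
  have hU : ∀ i : Fin 3, ∃ U : MvPolynomial (Fin 3) La, ∀ k, T (i + 1) k - T (i + 2) k =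
      cur (fun j => U * C (io (v j))) k := by
    intro i
    obtain ⟨M', hM'⟩ := TotAux.exists_deg' (fun k => T (i + 1) k - T (i + 2) k)
    exact cmp h M' _ hM' (hw0 _ _) (hwd _ _)
  choose U hU using hU
  have hUs : U 0 + U 1 + U 2 = 0 := by
    refine cur_inj h fun k => ?_
    have e1 : (fun j => (U 0 + U 1 + U 2) * C (io (v j))) =
        fun j => (fun j => (fun j => U 0 * C (io (v j))) j + (fun j => U 1 * C (io (v j))) j) j +
          (fun j => U 2 * C (io (v j))) j := by
      funext j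
      ring
    rw [e1, TotAux.cur_add, TotAux.cur_add, ← hU 0, ← hU 1, ← hU 2]
    show T 1 k - T 2 k + (T 2 k - T 0 k) + (T 0 k - T 1 k) = 0
    ring
  have hfD : ∀ k, Hm td ((d : ℤ) - 1) (D k (io f)) := by
    intro k
    have := (hm_io h.hf).D k
    rwa [td_ex] at this
  have hvD : ∀ k, Hm td ((n : ℤ) - 1) (io (v k)) := by
    intro k
    have h1 := hm_io (h.hv k)
    have h2 : ((n - 1 : ℕ) : ℤ) = (n : ℤ) - 1 := by
      have := h.hn
      omega
    rwa [h2] at h1
  refine ⟨fun i k => gc td 1 (coeff 0 (T i k)), fun i => - gc td (3 - n) (coeff 0 (U i)),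
    fun i k => Ge.gc (hT1 i k 0) _ _, fun i k => gc_hm _ _ _, fun i => (gc_hm _ _ _).neg, ?_, ?_,
    ?_, ?_⟩
  · intro i
    have h1 : ∑ k, coeff 0 (T i k) * D k (io f) = 0 := by
      have := congrArg (coeff 0) (hT2 i)
      rw [coeff_sum, coeff_zero] at this
      rw [← this]
      refine Finset.sum_congr rfl fun k _ => ?_
      rw [TotAux.coeff_mulC]
    have h2 : ∀ k, gc td 1 (coeff 0 (T i k)) * D k (io f) =
        gc td (1 + ((d : ℤ) - 1)) (coeff 0 (T i k) * D k (io f)) :=
      fun k => (gc_mul_hm (hfD k) 1 _).symm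
    simp only [h2]
    rw [← map_sum, h1, map_zero]
  · intro i
    have h1 : ∀ k, D k (gc td 1 (coeff 0 (T i k))) = gc td 0 (D k (coeff 0 (T i k))) := by
      intro k
      have := gc_D td 1 k (coeff 0 (T i k))
      rw [td_ex, sub_self] at this
      exact this.symm
    have h2 : coeff 0 (map (io : MvPolynomial (Fin 3) ℂ →+* La) G) =
        - dv (fun k => coeff 0 (T i k)) := by
      rw [hT3 i, TotAux.coeff_dvg]
    show ∑ k, D k (gc td 1 (coeff 0 (T i k))) = _
    simp only [h1]
    rw [← map_sum]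
    have h3 : ∑ k, D k (coeff 0 (T i k)) = - io (coeff 0 G) := by
      rw [coeff_map] at h2
      have h4 : io (coeff 0 G) = - dv (fun k => coeff 0 (T i k)) := h2
      rw [h4, neg_neg]
      rfl
    rw [h3, map_neg, TotAux.gc_td_io]
    have h5 : sg 0 (-(cc G)) = - sg 0 (cc G) := by
      rw [← AddMonoidAlgebra.single_neg]
    rw [h5]
    rfl
  · show - gc td (3 - n) (coeff 0 (U 0)) + - gc td (3 - n) (coeff 0 (U 1)) +
      - gc td (3 - n) (coeff 0 (U 2)) = 0
    rw [← neg_add, ← neg_add, ← map_add, ← map_add, ← coeff_add, ← coeff_add, hUs, coeff_zero,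
      map_zero, neg_zero]
  · intro i k
    have h1 : coeff 0 (T (i + 1) k) - coeff 0 (T (i + 2) k) =
        - cu (fun j => coeff 0 (U i) * io (v j)) k := by
      rw [← coeff_sub, hU i k, TotAux.coeff_cur]
      simp only [TotAux.coeff_mulC]
    have h2 : ∀ a b : Fin 3, gc td 1 (D a (coeff 0 (U i) * io (v b))) =
        D a (gc td (3 - n) (coeff 0 (U i)) * io (v b)) := by
      intro a b
      have e1 := gc_D td 2 a (coeff 0 (U i) * io (v b))
      rw [td_ex, show (2 : ℤ) - 1 = 1 by norm_num] at e1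
      rw [e1]
      have e2 := gc_mul_hm (hvD b) (3 - (n : ℤ)) (coeff 0 (U i))
      rw [show (3 - (n : ℤ)) + ((n : ℤ) - 1) = 2 by ring] at e2
      rw [e2]
    show gc td 1 (coeff 0 (T (i + 1) k)) - gc td 1 (coeff 0 (T (i + 2) k)) =
      cu (fun j => - gc td (3 - n) (coeff 0 (U i)) * io (v j)) k
    rw [← map_sub, h1, map_neg]
    unfold cu
    rw [map_sub, h2, h2]
    simp only [neg_mul, map_neg]
    ring

end MPb07157.OB
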